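import Pool.Agent.Hhelper85.RQ.Defs

set_option linter.all false

/-!
# Analytic continuation from logarithmically averaged counting

PAPER PROOF. Let `T(x) = ∑_{n ≤ x} r n log (x / n) = κ x + Δ(x)`, `|Δ(x)| ≤ B √x` for `x ≥ 1`. First
`∑_{n ≤ x} r n ≤ T(e x) = O(x)` (since `log (e x / n) ≥ 1` for `n ≤ x`), so the L-series converges
absolutely for `Re s > 1` (`LSeriesSummable_of_sum_norm_bigO...`), also with an extra
factor `log n`. For `Y ≥ 1` and `Re s > 1` let `G_Y(s) = ∑_{n > Y} r n log (n / Y) n^(-s)`. Claim: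
`G_Y(s) = Y^(-s) T(Y) - ∫_Y^∞ (2 s - s² log (x/Y)) x^(-s-1) T(x) dx`.
Proof: by linearity and absolute convergence (Fubini/`integral_tsum` or
`hasSum_integral_of_summable_integral_norm`) it is enough to take one `n`, i.e. `T(x) = log⁺ (x/n)`:
for `n > Y`, `-∫_n^∞ (2 s - s² log (x/Y)) x^(-s-1) log (x/n) dx = n^(-s) log (n/Y)`
(substitute `x = n y`: `∫_1^∞ y^(-s-1) log y dy = 1/s²`, `∫_1^∞ y^(-s-1) log² y dy = 2/s³`), and
for `n ≤ Y` the right side is `0`: `Y^(-s) log (Y/n) = ∫_Y^∞ (2 s - s² log (x/Y)) x^(-s-1)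
log (x/n) dx` (write `log (x/n) = log (x/Y) + log (Y/n)` and use the integrals `∫_1^∞ y^(-s-1) = 1/s`,
`1/s²`, `2/s³`: `2s (1/s² + L/s) - s² (2/s³ + L/s²) = L`, `L = log (Y/n)`). (An antiderivative of the integrand may
be easier than substitution.) Insert `T = κ x + Δ`: the `κ`-part is
`κ Y^(1-s) (1 - 2 s/(s-1) + s²/(s-1)²) = κ Y^(1-s)/(s-1)²`. So `G_Y = κ Y^(1-s)/(s-1)² + τ_Y(s)`,
`τ_Y(s) = Y^(-s) Δ(Y) - ∫_Y^∞ (2 s - s² log (x/Y)) x^(-s-1) Δ(x) dx`, analytic for `Re s > 1/2`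
(Mellin transforms of `Δ 1_{x > Y}` and `Δ(x) log (x/Y) 1_{x>Y}`: use
`mellin_differentiableAt_of_isBigO_rpow` with exponents `-1/2` and any `-1/2 - small`; or note
that the second is minus the derivative structure), and
`|τ_Y(s)| ≤ B Y^(1/2-σ) (1 + 2 |s|/(σ-1/2) + |s|²/(σ-1/2)²)` (`∫_1^∞ y^(-a-1) log y = 1/a²`, `a = σ - 1/2`).
Finally `1 - V Z x = log⁺ (x/Z) - log⁺ (x/(e Z))` for `x > 0`, so
`∑ r n (1 - V Z n) n^(-s) = G_Z(s) - G_{eZ}(s)`, and `V Z n = 0` for `n ≥ e Z`. Take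
`tail = τ_Z - τ_{eZ}` and use `(e Z)^(1/2-σ) ≤ Z^(1/2-σ)`.
-/

namespace Pool.Hhelper85.RQ

/-- The polar term. -/
noncomputable def polar (Z : ℝ) (s : ℂ) : ℂ :=
  ((Z : ℂ) ^ (1 - s) - ((Real.exp 1 * Z : ℝ) : ℂ) ^ (1 - s)) / (s - 1) ^ 2

namespace AbelB

open MeasureTheory Filter Topology Asymptotics Set

/-! ### logarithmic averages -/

/-- the logarithmically averaged sum -/
noncomputable def T (r : ℕ → ℝ) (x : ℝ) : ℝ := ∑ n ∈ Finset.Icc 1 ⌊x⌋₊, r n * Real.log (x / n)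

/-- truncated logarithm -/
noncomputable def lp (x : ℝ) : ℝ := max 0 (Real.log x)

theorem lp_nonneg (x : ℝ) : 0 ≤ lp x := le_max_left _ _

theorem lp_of_one_le {x : ℝ} (hx : 1 ≤ x) : lp x = Real.log x :=
  max_eq_right (Real.log_nonneg hx)

theorem lp_of_le_one {x : ℝ} (h0 : 0 ≤ x) (hx : x ≤ 1) : lp x = 0 :=
  max_eq_left (Real.log_nonpos h0 hx)

theorem T_eq (r : ℕ → ℝ) {x : ℝ} (hx : 0 ≤ x) {N : ℕ} (hN : x ≤ N) :
    T r x = ∑ n ∈ Finset.Icc 1 N, r n * lp (x / n) := by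
  unfold T
  have hsub : Finset.Icc 1 ⌊x⌋₊ ⊆ Finset.Icc 1 N :=
    Finset.Icc_subset_Icc le_rfl (Nat.floor_le_of_le hN)
  rw [← Finset.sum_subset hsub]
  · refine Finset.sum_congr rfl fun n hn => ?_
    simp only [Finset.mem_Icc] at hn
    have hn0 : (0 : ℝ) < n := by exact_mod_cast hn.1
    have hnx : (n : ℝ) ≤ x := (Nat.le_floor_iff hx).1 hn.2
    rw [lp_of_one_le ((one_le_div hn0).2 hnx)]
  · intro n hn hn'
    simp only [Finset.mem_Icc, not_and, not_le] at hn hn'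
    have hn0 : (0 : ℝ) < n := by exact_mod_cast hn.1
    have h1 : ⌊x⌋₊ < n := hn' hn.1
    have h2 : x < n := (Nat.floor_lt hx).1 h1
    rw [lp_of_le_one (by positivity) ((div_le_one hn0).2 h2.le), mul_zero]

theorem measurable_T (r : ℕ → ℝ) : Measurable (T r) := by
  have h : T r = fun x : ℝ => (∑ n ∈ Finset.Icc 1 ⌊x⌋₊, r n) * Real.log x -
      ∑ n ∈ Finset.Icc 1 ⌊x⌋₊, r n * Real.log n := by
    funext x
    unfold T
    rw [Finset.sum_mul, ← Finset.sum_sub_distrib]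
    refine Finset.sum_congr rfl fun n hn => ?_
    simp only [Finset.mem_Icc] at hn
    have hn0 : (0 : ℝ) < n := by exact_mod_cast hn.1
    by_cases hx : x = 0
    · subst hx
      simp at hn
      omega
    · rw [Real.log_div hx hn0.ne']
      ring
  rw [h]
  have h1 : Measurable (fun x : ℝ => ∑ n ∈ Finset.Icc 1 ⌊x⌋₊, r n) := by
    have h : Measurable (fun n : ℕ => ∑ k ∈ Finset.Icc 1 n, r k) := measurable_from_nat
    exact h.comp Nat.measurable_floor
  have h2 : Measurable (fun x : ℝ => ∑ n ∈ Finset.Icc 1 ⌊x⌋₊, r n * Real.log n) := by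
    have h : Measurable (fun n : ℕ => ∑ k ∈ Finset.Icc 1 n, r k * Real.log k) := measurable_from_nat
    exact h.comp Nat.measurable_floor
  exact (h1.mul Real.measurable_log).sub h2

/-! ### integrals with a logarithm -/

theorem tend_log {a Y : ℝ} (ha : 0 < a) (hY : 0 < Y) :
    Tendsto (fun x : ℝ => x ^ (-a) * Real.log (x / Y)) atTop (𝓝 0) := by
  have h1 : Tendsto (fun x : ℝ => Real.log x / x ^ a) atTop (𝓝 0) :=
    (isLittleO_log_rpow_atTop ha).tendsto_div_nhds_zero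
  have h2 : Tendsto (fun x : ℝ => x ^ (-a) * Real.log Y) atTop (𝓝 (0 * Real.log Y)) :=
    (tendsto_rpow_neg_atTop ha).mul_const _
  rw [zero_mul] at h2
  have h3 := h1.sub h2
  rw [sub_zero] at h3
  refine h3.congr' ?_
  filter_upwards [eventually_gt_atTop (0 : ℝ)] with x hx
  rw [Real.log_div hx.ne' hY.ne', Real.rpow_neg hx.le]
  ring

theorem real_deriv {a Y x : ℝ} (ha : 0 < a) (hY : 0 < Y) (hx : 0 < x) :
    HasDerivAt (fun x : ℝ => -(x ^ (-a) * (Real.log (x / Y) / a + 1 / a ^ 2)))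
      (Real.log (x / Y) * x ^ (-a - 1)) x := by
  have h1 : HasDerivAt (fun x : ℝ => x ^ (-a)) (-a * x ^ (-a - 1)) x :=
    Real.hasDerivAt_rpow_const (Or.inl hx.ne')
  have h2 : HasDerivAt (fun x : ℝ => Real.log (x / Y)) (1 / x) x := by
    have := ((hasDerivAt_id x).div_const Y).log (by simp; exact ⟨hx.ne', hY.ne'⟩)
    refine this.congr_deriv ?_
    simp
    field_simp
  have h3 := (h1.mul ((h2.div_const a).add_const (1 / a ^ 2))).neg
  refine h3.congr_deriv ?_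
  have e : x ^ (-a) = x * x ^ (-a - 1) := by
    rw [Real.rpow_sub hx, Real.rpow_one]
    field_simp
  rw [e]
  field_simp
  ring

theorem real_tendsto {a Y : ℝ} (ha : 0 < a) (hY : 0 < Y) :
    Tendsto (fun x : ℝ => -(x ^ (-a) * (Real.log (x / Y) / a + 1 / a ^ 2))) atTop (𝓝 0) := by
  have h1 := (tend_log ha hY).div_const a
  have h2 := (tendsto_rpow_neg_atTop ha).mul_const (1 / a ^ 2)
  have h3 := (h1.add h2).neg
  simp only [zero_div, zero_mul, add_zero, neg_zero] at h3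
  refine h3.congr fun x => ?_
  ring

theorem real_int {a Y : ℝ} (ha : 0 < a) (hY : 0 < Y) :
    IntegrableOn (fun x : ℝ => Real.log (x / Y) * x ^ (-a - 1)) (Ioi Y) := by
  refine integrableOn_Ioi_deriv_of_nonneg' (fun x hx => real_deriv ha hY (lt_of_lt_of_le hY hx))
    (fun x hx => ?_) (real_tendsto ha hY)
  have hx0 : 0 < x := hY.trans hx
  have : 0 ≤ Real.log (x / Y) := Real.log_nonneg ((one_le_div hY).2 (le_of_lt hx))
  positivity

theorem real_val {a Y : ℝ} (ha : 0 < a) (hY : 0 < Y) :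
    ∫ x in Ioi Y, Real.log (x / Y) * x ^ (-a - 1) = Y ^ (-a) / a ^ 2 := by
  rw [integral_Ioi_of_hasDerivAt_of_nonneg'
    (fun x hx => real_deriv ha hY (lt_of_lt_of_le hY hx)) (fun x hx => ?_) (real_tendsto ha hY)]
  · rw [div_self hY.ne', Real.log_one]
    ring
  · have hx0 : 0 < x := hY.trans hx
    have : 0 ≤ Real.log (x / Y) := Real.log_nonneg ((one_le_div hY).2 (le_of_lt hx))
    positivity

/-! ### the kernel -/

/-- the kernel -/
noncomputable def Ker (s : ℂ) (Y x : ℝ) : ℂ :=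
  (2 * s - s ^ 2 * (Real.log (x / Y) : ℂ)) * (x : ℂ) ^ (-s - 1)

/-- antiderivative of the kernel times `log (x / n)` -/
noncomputable def FF (s : ℂ) (Y n x : ℝ) : ℂ :=
  (x : ℂ) ^ (-s) * ((Real.log (n / Y) : ℂ) + s * (Real.log (x / Y) : ℂ) * (Real.log (x / n) : ℂ))

theorem deriv_clog {Y x : ℝ} (hY : 0 < Y) (hx : 0 < x) :
    HasDerivAt (fun x : ℝ => (Real.log (x / Y) : ℂ)) (1 / (x : ℂ)) x := by
  have := ((hasDerivAt_id x).div_const Y).log (by simp; exact ⟨hx.ne', hY.ne'⟩)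
  have h2 := this.ofReal_comp
  refine h2.congr_deriv ?_
  simp only [id]
  push_cast
  have : (Y : ℂ) ≠ 0 := by exact_mod_cast hY.ne'
  have : (x : ℂ) ≠ 0 := by exact_mod_cast hx.ne'
  field_simp

theorem deriv_cpow (s : ℂ) {x : ℝ} (hx : 0 < x) :
    HasDerivAt (fun x : ℝ => (x : ℂ) ^ (-s)) (-s * (x : ℂ) ^ (-s - 1)) x := by
  have h1 : HasDerivAt (fun w : ℂ => w ^ (-s)) (-s * (x : ℂ) ^ (-s - 1) * 1) (x : ℂ) :=
    (hasDerivAt_id (x : ℂ)).cpow_const (Or.inl (by simpa using hx))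
  rw [mul_one] at h1
  exact h1.comp_ofReal

theorem deriv_FF (s : ℂ) {Y n x : ℝ} (hY : 0 < Y) (hn : 0 < n) (hx : 0 < x) :
    HasDerivAt (fun x : ℝ => FF s Y n x) (Ker s Y x * (Real.log (x / n) : ℂ)) x := by
  have h1 := deriv_cpow s hx
  have h2 := deriv_clog hY hx
  have h3 := deriv_clog hn hx
  have h4 := h1.mul (((h2.const_mul s).mul h3).const_add (Real.log (n / Y) : ℂ))
  refine h4.congr_deriv ?_
  have hx0 : (x : ℂ) ≠ 0 := by exact_mod_cast hx.ne'
  have e : (x : ℂ) ^ (-s) = (x : ℂ) * (x : ℂ) ^ (-s - 1) := by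
    rw [Complex.cpow_sub _ _ hx0, Complex.cpow_one]
    field_simp
  have e2 : (Real.log (n / Y) : ℂ) = (Real.log (x / Y) : ℂ) - (Real.log (x / n) : ℂ) := by
    rw [← Complex.ofReal_sub]
    congr 1
    rw [Real.log_div hn.ne' hY.ne', Real.log_div hx.ne' hY.ne', Real.log_div hx.ne' hn.ne']
    ring
  unfold Ker
  simp only [Pi.mul_apply]
  rw [e, e2]
  field_simp
  ring

theorem continuousAt_Ker (s : ℂ) {Y x : ℝ} (hY : 0 < Y) (hx : 0 < x) :
    ContinuousAt (Ker s Y) x := by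
  unfold Ker
  have h2 := (deriv_clog hY hx).continuousAt
  have h1 : ContinuousAt (fun x : ℝ => (x : ℂ) ^ (-s - 1)) x :=
    Complex.continuousAt_ofReal_cpow_const _ _ (Or.inr hx.ne')
  exact (continuousAt_const.sub (continuousAt_const.mul h2)).mul h1

theorem integral_FF (s : ℂ) {Y n a b : ℝ} (hY : 0 < Y) (hn : 0 < n) (ha : 0 < a) (hab : a ≤ b) :
    ∫ x in a..b, Ker s Y x * (Real.log (x / n) : ℂ) = FF s Y n b - FF s Y n a := by
  refine intervalIntegral.integral_eq_sub_of_hasDerivAt (fun x hx => ?_) ?_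
  · rw [uIcc_of_le hab] at hx
    exact deriv_FF s hY hn (lt_of_lt_of_le ha hx.1)
  · refine ContinuousOn.intervalIntegrable fun x hx => ?_
    rw [uIcc_of_le hab] at hx
    have hx0 : 0 < x := lt_of_lt_of_le ha hx.1
    exact ((continuousAt_Ker s hY hx0).mul (deriv_clog hn hx0).continuousAt).continuousWithinAt

theorem integral_lp (s : ℂ) {Y n b : ℝ} (hY : 0 < Y) (hn : 0 < n) (hYb : Y ≤ b) (hnb : n ≤ b) :
    ∫ x in Y..b, Ker s Y x * (lp (x / n) : ℂ) =
      FF s Y n b - (n : ℂ) ^ (-s) * (lp (n / Y) : ℂ) + (Y : ℂ) ^ (-s) * (lp (Y / n) : ℂ) := by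
  rcases le_or_gt n Y with h | h
  · have e : ∫ x in Y..b, Ker s Y x * (lp (x / n) : ℂ) =
        ∫ x in Y..b, Ker s Y x * (Real.log (x / n) : ℂ) := by
      refine intervalIntegral.integral_congr fun x hx => ?_
      rw [uIcc_of_le hYb] at hx
      rw [lp_of_one_le ((one_le_div hn).2 (h.trans hx.1))]
    rw [e, integral_FF s hY hn hY hYb]
    have e1 : lp (n / Y) = 0 := lp_of_le_one (by positivity) ((div_le_one hY).2 h)
    have e2 : lp (Y / n) = Real.log (Y / n) := lp_of_one_le ((one_le_div hn).2 h)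
    have e3 : Real.log (n / Y) = -Real.log (Y / n) := by
      rw [Real.log_div hn.ne' hY.ne', Real.log_div hY.ne' hn.ne']; ring
    have e4 : FF s Y n Y = (Y : ℂ) ^ (-s) * (Real.log (n / Y) : ℂ) := by
      unfold FF
      rw [div_self hY.ne', Real.log_one]
      simp
    rw [e4, e1, e2, e3]
    push_cast
    ring
  · have hc : ContinuousOn (fun x : ℝ => Ker s Y x * (lp (x / n) : ℂ)) (Ioi 0) := by
      intro x hx
      have hx0 : 0 < x := hx
      refine ((continuousAt_Ker s hY hx0).mul ?_).continuousWithinAt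
      have h1 : ContinuousAt (fun x : ℝ => Real.log (x / n)) x := by
        refine ContinuousAt.log (continuousAt_id.div_const n) ?_
        positivity
      exact Complex.continuous_ofReal.continuousAt.comp (continuousAt_const.max h1)
    have i1 : IntervalIntegrable (fun x : ℝ => Ker s Y x * (lp (x / n) : ℂ)) volume Y n := by
      refine ContinuousOn.intervalIntegrable (hc.mono fun x hx => ?_)
      rw [uIcc_of_le h.le] at hx
      exact lt_of_lt_of_le hY hx.1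
    have i2 : IntervalIntegrable (fun x : ℝ => Ker s Y x * (lp (x / n) : ℂ)) volume n b := by
      refine ContinuousOn.intervalIntegrable (hc.mono fun x hx => ?_)
      rw [uIcc_of_le hnb] at hx
      exact lt_of_lt_of_le hn hx.1
    rw [← intervalIntegral.integral_add_adjacent_intervals i1 i2]
    have e0 : ∫ x in Y..n, Ker s Y x * (lp (x / n) : ℂ) = 0 := by
      have : ∫ x in Y..n, Ker s Y x * (lp (x / n) : ℂ) = ∫ x in Y..n, (0 : ℂ) := by
        refine intervalIntegral.integral_congr fun x hx => ?_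
        rw [uIcc_of_le h.le] at hx
        rw [lp_of_le_one (div_nonneg (hY.le.trans hx.1) hn.le) ((div_le_one hn).2 hx.2)]
        simp
      rw [this]
      simp
    have e : ∫ x in n..b, Ker s Y x * (lp (x / n) : ℂ) =
        ∫ x in n..b, Ker s Y x * (Real.log (x / n) : ℂ) := by
      refine intervalIntegral.integral_congr fun x hx => ?_
      rw [uIcc_of_le hnb] at hx
      rw [lp_of_one_le ((one_le_div hn).2 hx.1)]
    rw [e0, e, integral_FF s hY hn hn hnb]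
    have e1 : lp (Y / n) = 0 := lp_of_le_one (by positivity) ((div_le_one hn).2 h.le)
    have e2 : lp (n / Y) = Real.log (n / Y) := lp_of_one_le ((one_le_div hY).2 h.le)
    have e4 : FF s Y n n = (n : ℂ) ^ (-s) * (Real.log (n / Y) : ℂ) := by
      unfold FF
      rw [div_self hn.ne', Real.log_one]
      simp
    rw [e4, e1, e2]
    push_cast
    ring

/-- the finite identity -/
theorem integral_T (r : ℕ → ℝ) (s : ℂ) {Y : ℝ} (hY : 1 ≤ Y) {N : ℕ} (hN : Y ≤ N) :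
    ∫ x in Y..N, Ker s Y x * (T r x : ℂ) =
      (∑ n ∈ Finset.Icc 1 N, (r n : ℂ) * FF s Y n N) -
      (∑ n ∈ Finset.Icc 1 N, (r n : ℂ) * (lp (n / Y) : ℂ) * (n : ℂ) ^ (-s)) +
      (Y : ℂ) ^ (-s) * (T r Y : ℂ) := by
  have hY0 : 0 < Y := by linarith
  have e : ∫ x in Y..N, Ker s Y x * (T r x : ℂ) =
      ∫ x in Y..N, ∑ n ∈ Finset.Icc 1 N, (r n : ℂ) * (Ker s Y x * (lp (x / n) : ℂ)) := by
    refine intervalIntegral.integral_congr fun x hx => ?_
    rw [uIcc_of_le hN] at hx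
    rw [T_eq r (hY0.le.trans hx.1) hx.2]
    push_cast
    rw [Finset.mul_sum]
    refine Finset.sum_congr rfl fun n hn => ?_
    ring
  rw [e, intervalIntegral.integral_finsetSum]
  · rw [T_eq r hY0.le hN]
    push_cast
    rw [Finset.mul_sum, ← Finset.sum_sub_distrib, ← Finset.sum_add_distrib]
    refine Finset.sum_congr rfl fun n hn => ?_
    simp only [Finset.mem_Icc] at hn
    have hn0 : (0 : ℝ) < n := by exact_mod_cast hn.1
    rw [intervalIntegral.integral_const_mul,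
      integral_lp s hY0 hn0 hN (by exact_mod_cast hn.2)]
    push_cast
    ring
  · intro n hn
    simp only [Finset.mem_Icc] at hn
    have hn0 : (0 : ℝ) < n := by exact_mod_cast hn.1
    refine ContinuousOn.intervalIntegrable fun x hx => ?_
    rw [uIcc_of_le hN] at hx
    have hx0 : 0 < x := lt_of_lt_of_le hY0 hx.1
    refine (continuousAt_const.mul ((continuousAt_Ker s hY0 hx0).mul ?_)).continuousWithinAt
    have h1 : ContinuousAt (fun x : ℝ => Real.log (x / n)) x := by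
      refine ContinuousAt.log (continuousAt_id.div_const _) ?_
      positivity
    exact Complex.continuous_ofReal.continuousAt.comp (continuousAt_const.max h1)

theorem measurable_Ker (s : ℂ) (Y : ℝ) (hY : 0 < Y) :
    AEStronglyMeasurable (Ker s Y) (volume.restrict (Ioi Y)) := by
  refine ContinuousOn.aestronglyMeasurable (fun t ht => ?_) measurableSet_Ioi
  exact (continuousAt_Ker s hY (hY.trans ht)).continuousWithinAt

theorem norm_Ker_le (s : ℂ) {Y x : ℝ} (hY : 0 < Y) (hx : Y ≤ x) :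
    ‖Ker s Y x‖ ≤ (2 * ‖s‖ + ‖s‖ ^ 2 * Real.log (x / Y)) * x ^ (-s.re - 1) := by
  have hx0 : 0 < x := hY.trans_le hx
  have hL : 0 ≤ Real.log (x / Y) := Real.log_nonneg ((one_le_div hY).2 hx)
  unfold Ker
  rw [norm_mul, Complex.norm_cpow_eq_rpow_re_of_pos hx0]
  have e : (-s - 1).re = -s.re - 1 := by simp
  rw [e]
  have h1 : ‖2 * s - s ^ 2 * (Real.log (x / Y) : ℂ)‖ ≤ 2 * ‖s‖ + ‖s‖ ^ 2 * Real.log (x / Y) := by
    refine (norm_sub_le _ _).trans ?_
    rw [norm_mul, norm_mul, norm_pow, Complex.norm_real, Real.norm_eq_abs, abs_of_nonneg hL]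
    simp
  exact mul_le_mul_of_nonneg_right h1 (Real.rpow_nonneg hx0.le _)

theorem ker_int (s : ℂ) {Y C β : ℝ} (hY : 0 < Y) (hC : 0 ≤ C) (f : ℝ → ℂ) (hf : Measurable f)
    (hb : ∀ x ∈ Ioi Y, ‖f x‖ ≤ C * x ^ β) (hs : β < s.re) :
    IntegrableOn (fun x => Ker s Y x * f x) (Ioi Y) ∧
      ‖∫ x in Ioi Y, Ker s Y x * f x‖ ≤
        C * (2 * ‖s‖ / (s.re - β) + ‖s‖ ^ 2 / (s.re - β) ^ 2) * Y ^ (-(s.re - β)) := by
  have ha : 0 < s.re - β := by linarith
  have i1 : IntegrableOn (fun x : ℝ => x ^ (-(s.re - β) - 1)) (Ioi Y) :=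
    integrableOn_Ioi_rpow_of_lt (by linarith) hY
  have i2 := real_int ha hY
  have hdom : IntegrableOn (fun x : ℝ => C * (2 * ‖s‖ * x ^ (-(s.re - β) - 1) +
      ‖s‖ ^ 2 * (Real.log (x / Y) * x ^ (-(s.re - β) - 1)))) (Ioi Y) :=
    ((i1.const_mul _).add (i2.const_mul _)).const_mul C
  have hle : ∀ x ∈ Ioi Y, ‖Ker s Y x * f x‖ ≤ C * (2 * ‖s‖ * x ^ (-(s.re - β) - 1) +
      ‖s‖ ^ 2 * (Real.log (x / Y) * x ^ (-(s.re - β) - 1))) := by
    intro x hx
    have hx0 : 0 < x := hY.trans hx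
    have h1 := norm_Ker_le s hY (le_of_lt hx)
    have h2 := hb x hx
    have e : x ^ (-(s.re - β) - 1) = x ^ (-s.re - 1) * x ^ β := by
      rw [← Real.rpow_add hx0]
      congr 1
      ring
    rw [norm_mul, e]
    have hL : 0 ≤ Real.log (x / Y) := Real.log_nonneg ((one_le_div hY).2 (le_of_lt hx))
    have hp : 0 ≤ x ^ (-s.re - 1) := Real.rpow_nonneg hx0.le _
    calc ‖Ker s Y x‖ * ‖f x‖ ≤ ((2 * ‖s‖ + ‖s‖ ^ 2 * Real.log (x / Y)) * x ^ (-s.re - 1)) *
          (C * x ^ β) := by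
          apply mul_le_mul h1 h2 (norm_nonneg _)
          positivity
      _ = _ := by ring
  constructor
  · refine Integrable.mono' hdom ((measurable_Ker s Y hY).mul hf.aestronglyMeasurable) ?_
    rw [ae_restrict_iff' measurableSet_Ioi]
    exact Eventually.of_forall hle
  · calc ‖∫ x in Ioi Y, Ker s Y x * f x‖
        ≤ ∫ x in Ioi Y, C * (2 * ‖s‖ * x ^ (-(s.re - β) - 1) +
            ‖s‖ ^ 2 * (Real.log (x / Y) * x ^ (-(s.re - β) - 1))) := by
          refine norm_integral_le_of_norm_le hdom ?_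
          rw [ae_restrict_iff' measurableSet_Ioi]
          exact Eventually.of_forall hle
      _ = C * (2 * ‖s‖ / (s.re - β) + ‖s‖ ^ 2 / (s.re - β) ^ 2) * Y ^ (-(s.re - β)) := by
          rw [integral_const_mul, integral_add (i1.const_mul _) (i2.const_mul _),
            integral_const_mul, integral_const_mul, real_val ha hY,
            integral_Ioi_rpow_of_lt (by linarith) hY]
          have e : -(s.re - β) - 1 + 1 = -(s.re - β) := by ring
          rw [e]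
          field_simp

/-- the polar integral -/
theorem integral_polar (s : ℂ) {Y : ℝ} (hY : 0 < Y) (hs : 1 < s.re) :
    ∫ x in Ioi Y, Ker s Y x * (x : ℂ) = -((Y : ℂ) ^ (1 - s) * ((2 * s - s ^ 2) / (s - 1) ^ 2)) := by
  have hs1 : s - 1 ≠ 0 := by
    intro hc
    have : s = 1 := by linear_combination hc
    rw [this] at hs; simp at hs
  set p : ℂ := (2 * s - s ^ 2) / (s - 1) ^ 2 with hp
  set q : ℂ := s ^ 2 / (s - 1) with hq
  have hd : ∀ x ∈ Ici Y, HasDerivAt (fun x : ℝ => (x : ℂ) ^ (-(s - 1)) *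
      (p + q * (Real.log (x / Y) : ℂ))) (Ker s Y x * (x : ℂ)) x := by
    intro x hx
    have hx0 : 0 < x := hY.trans_le hx
    have hxc : (x : ℂ) ≠ 0 := by exact_mod_cast hx0.ne'
    have h1 := deriv_cpow (s - 1) hx0
    have h2 := ((deriv_clog hY hx0).const_mul q).const_add p
    refine (h1.mul h2).congr_deriv ?_
    have e1 : (x : ℂ) ^ (-(s - 1) - 1) = (x : ℂ) * (x : ℂ) ^ (-s - 1) := by
      rw [show (-(s - 1) - 1 : ℂ) = -s by ring, Complex.cpow_sub _ _ hxc, Complex.cpow_one]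
      field_simp
    have e2 : (x : ℂ) ^ (-(s - 1)) = (x : ℂ) * (x : ℂ) * (x : ℂ) ^ (-s - 1) := by
      rw [show (-(s - 1) : ℂ) = -s - 1 + 1 + 1 by ring, Complex.cpow_add _ _ hxc,
        Complex.cpow_add _ _ hxc, Complex.cpow_one]
      ring
    unfold Ker
    rw [e1, e2, hp, hq]
    field_simp
    ring
  have hint : IntegrableOn (fun x : ℝ => Ker s Y x * (x : ℂ)) (Ioi Y) := by
    refine (ker_int s (C := 1) (β := 1) hY zero_le_one (fun x : ℝ => (x : ℂ))
      Complex.measurable_ofReal (fun x hx => ?_) hs).1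
    have hx0 : 0 < x := hY.trans hx
    rw [Complex.norm_real, Real.norm_eq_abs, abs_of_pos hx0, Real.rpow_one, one_mul]
  have ha : 0 < s.re - 1 := by linarith
  have htend : Tendsto (fun x : ℝ => (x : ℂ) ^ (-(s - 1)) * (p + q * (Real.log (x / Y) : ℂ)))
      atTop (𝓝 0) := by
    rw [tendsto_zero_iff_norm_tendsto_zero]
    have h1 := ((tendsto_rpow_neg_atTop ha).mul_const ‖p‖).add ((tend_log ha hY).const_mul ‖q‖)
    simp only [zero_mul, mul_zero, add_zero] at h1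
    refine squeeze_zero' (Eventually.of_forall fun x => norm_nonneg _) ?_ h1
    filter_upwards [eventually_ge_atTop Y] with x hx
    have hx0 : 0 < x := hY.trans_le hx
    have hL : 0 ≤ Real.log (x / Y) := Real.log_nonneg ((one_le_div hY).2 hx)
    rw [norm_mul, Complex.norm_cpow_eq_rpow_re_of_pos hx0]
    have e : (-(s - 1)).re = -(s.re - 1) := by simp
    rw [e]
    have h3 : ‖p + q * (Real.log (x / Y) : ℂ)‖ ≤ ‖p‖ + ‖q‖ * Real.log (x / Y) := by
      refine (norm_add_le _ _).trans ?_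
      rw [norm_mul, Complex.norm_real, Real.norm_eq_abs, abs_of_nonneg hL]
    calc x ^ (-(s.re - 1)) * ‖p + q * (Real.log (x / Y) : ℂ)‖
        ≤ x ^ (-(s.re - 1)) * (‖p‖ + ‖q‖ * Real.log (x / Y)) :=
          mul_le_mul_of_nonneg_left h3 (Real.rpow_nonneg hx0.le _)
      _ = _ := by ring
  rw [integral_Ioi_of_hasDerivAt_of_tendsto' hd hint htend, div_self hY.ne', Real.log_one]
  rw [show (-(s - 1) : ℂ) = 1 - s by ring]
  simp

section hyp

variable {r : ℕ → ℝ} {κ B : ℝ}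

theorem T_le (hκ : 0 ≤ κ) (hB : 0 ≤ B)
    (h : ∀ x : ℝ, 1 ≤ x → |T r x - κ * x| ≤ B * Real.sqrt x) {x : ℝ} (hx : 1 ≤ x) :
    T r x ≤ (κ + B) * x := by
  have h1 := (abs_le.1 (h x hx)).2
  have h2 : Real.sqrt x ≤ x := by
    rw [Real.sqrt_le_left (by linarith)]
    nlinarith
  nlinarith [mul_le_mul_of_nonneg_left h2 hB]

theorem T_nonneg (hr : ∀ n, 0 ≤ r n) {x : ℝ} (hx : 0 ≤ x) : 0 ≤ T r x := by
  rw [T_eq r hx (Nat.le_ceil x)]
  exact Finset.sum_nonneg fun n _ => mul_nonneg (hr n) (lp_nonneg _)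

theorem S_le (hr : ∀ n, 0 ≤ r n) (hκ : 0 ≤ κ) (hB : 0 ≤ B)
    (h : ∀ x : ℝ, 1 ≤ x → |T r x - κ * x| ≤ B * Real.sqrt x) {N : ℕ} (hN : 1 ≤ N) :
    ∑ n ∈ Finset.Icc 1 N, r n ≤ (κ + B) * Real.exp 1 * N := by
  have hN' : (1 : ℝ) ≤ N := by exact_mod_cast hN
  have he : (1 : ℝ) ≤ Real.exp 1 := Real.one_le_exp zero_le_one
  have heN : (N : ℝ) ≤ Real.exp 1 * N := by nlinarith
  have h1 := T_le hκ hB h (x := Real.exp 1 * N) (hN'.trans heN)
  have h2 : ∑ n ∈ Finset.Icc 1 N, r n ≤ T r (Real.exp 1 * N) := by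
    rw [T_eq r (by positivity) (Nat.le_ceil _)]
    have hsub : Finset.Icc 1 N ⊆ Finset.Icc 1 ⌈Real.exp 1 * (N : ℝ)⌉₊ := by
      refine Finset.Icc_subset_Icc le_rfl ?_
      have : (N : ℝ) ≤ ⌈Real.exp 1 * (N : ℝ)⌉₊ := heN.trans (Nat.le_ceil _)
      exact_mod_cast this
    refine le_trans ?_ (Finset.sum_le_sum_of_subset_of_nonneg hsub
      fun n _ _ => mul_nonneg (hr n) (lp_nonneg _))
    refine Finset.sum_le_sum fun n hn => ?_
    simp only [Finset.mem_Icc] at hn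
    have hn0 : (0 : ℝ) < n := by exact_mod_cast hn.1
    have hnN : (n : ℝ) ≤ N := by exact_mod_cast hn.2
    have h3 : 1 ≤ lp (Real.exp 1 * N / n) := by
      refine le_trans ?_ (le_max_right _ _)
      rw [Real.le_log_iff_exp_le (by positivity), le_div_iff₀ hn0]
      exact mul_le_mul_of_nonneg_left hnN (Real.exp_pos 1).le
    nlinarith [hr n]
  calc _ ≤ _ := h2
    _ ≤ (κ + B) * (Real.exp 1 * N) := h1
    _ = _ := by ring

theorem boundary_tendsto (hr : ∀ n, 0 ≤ r n) (hκ : 0 ≤ κ) (hB : 0 ≤ B)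
    (h : ∀ x : ℝ, 1 ≤ x → |T r x - κ * x| ≤ B * Real.sqrt x) {Y : ℝ} (hY : 1 ≤ Y) (s : ℂ)
    (hs : 1 < s.re) :
    Tendsto (fun N : ℕ => ∑ n ∈ Finset.Icc 1 N, (r n : ℂ) * FF s Y n N) atTop (𝓝 0) := by
  have hY0 : 0 < Y := by linarith
  have ha : 0 < s.re - 1 := by linarith
  rw [tendsto_zero_iff_norm_tendsto_zero]
  have h1 : Tendsto (fun N : ℕ => ((κ + B) * Real.exp 1 + ‖s‖ * (κ + B)) *
      ((N : ℝ) ^ (-(s.re - 1)) * Real.log ((N : ℝ) / Y⁻¹))) atTop (𝓝 0) := by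
    have := ((tend_log ha (inv_pos.2 hY0)).comp tendsto_natCast_atTop_atTop).const_mul
      ((κ + B) * Real.exp 1 + ‖s‖ * (κ + B))
    simpa using this
  refine squeeze_zero' (Eventually.of_forall fun x => norm_nonneg _) ?_ h1
  filter_upwards [eventually_ge_atTop 1, eventually_ge_atTop ⌈Y⌉₊] with N hN hNY
  have hN' : (1 : ℝ) ≤ N := by exact_mod_cast hN
  have hN0 : (0 : ℝ) < N := by linarith
  have hYN : Y ≤ N := (Nat.le_ceil Y).trans (by exact_mod_cast hNY)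
  have hlN : 0 ≤ Real.log N := Real.log_nonneg hN'
  have hlY : 0 ≤ Real.log Y := Real.log_nonneg hY
  have hlog : Real.log ((N : ℝ) / Y⁻¹) = Real.log N + Real.log Y := by
    rw [div_inv_eq_mul, Real.log_mul hN0.ne' hY0.ne']
  have hp : 0 ≤ (N : ℝ) ^ (-s.re) := Real.rpow_nonneg hN0.le _
  have hterm : ∀ n ∈ Finset.Icc 1 N, ‖(r n : ℂ) * FF s Y n N‖ ≤
      (N : ℝ) ^ (-s.re) * (Real.log N + Real.log Y) * (r n + ‖s‖ * (r n * lp (N / n))) := by
    intro n hn
    simp only [Finset.mem_Icc] at hn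
    have hn1 : (1 : ℝ) ≤ n := by exact_mod_cast hn.1
    have hn0 : (0 : ℝ) < n := by linarith
    have hnN : (n : ℝ) ≤ N := by exact_mod_cast hn.2
    have hln : 0 ≤ Real.log n := Real.log_nonneg hn1
    have hlnN : Real.log n ≤ Real.log N := Real.log_le_log hn0 hnN
    have e1 : |Real.log ((n : ℝ) / Y)| ≤ Real.log N + Real.log Y := by
      rw [Real.log_div hn0.ne' hY0.ne', abs_le]
      constructor <;> linarith
    have e2 : |Real.log ((N : ℝ) / Y)| ≤ Real.log N + Real.log Y := by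
      rw [Real.log_div hN0.ne' hY0.ne', abs_le]
      constructor <;> linarith
    have e3 : |Real.log ((N : ℝ) / n)| = lp (N / n) := by
      rw [lp_of_one_le ((one_le_div hn0).2 hnN), abs_of_nonneg]
      exact Real.log_nonneg ((one_le_div hn0).2 hnN)
    unfold FF
    rw [norm_mul, norm_mul, Complex.norm_real, Real.norm_eq_abs, abs_of_nonneg (hr n)]
    have e4 : ‖(((N : ℝ) : ℂ)) ^ (-s)‖ = (N : ℝ) ^ (-s.re) := by
      rw [Complex.norm_cpow_eq_rpow_re_of_pos hN0]; simp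
    rw [e4]
    have e5 : ‖(Real.log ((n : ℝ) / Y) : ℂ) + s * (Real.log ((N : ℝ) / Y) : ℂ) *
        (Real.log ((N : ℝ) / n) : ℂ)‖ ≤ (Real.log N + Real.log Y) +
          ‖s‖ * (Real.log N + Real.log Y) * lp (N / n) := by
      refine (norm_add_le _ _).trans ?_
      rw [norm_mul, norm_mul, Complex.norm_real, Complex.norm_real, Complex.norm_real,
        Real.norm_eq_abs, Real.norm_eq_abs, Real.norm_eq_abs, e3]
      have := lp_nonneg ((N : ℝ) / n)
      gcongr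
    calc r n * ((N : ℝ) ^ (-s.re) * ‖(Real.log ((n : ℝ) / Y) : ℂ) + s *
          (Real.log ((N : ℝ) / Y) : ℂ) * (Real.log ((N : ℝ) / n) : ℂ)‖)
        ≤ r n * ((N : ℝ) ^ (-s.re) * ((Real.log N + Real.log Y) +
          ‖s‖ * (Real.log N + Real.log Y) * lp (N / n))) := by
          have := hr n
          gcongr
      _ = _ := by ring
  calc ‖∑ n ∈ Finset.Icc 1 N, (r n : ℂ) * FF s Y n N‖
      ≤ ∑ n ∈ Finset.Icc 1 N, (N : ℝ) ^ (-s.re) * (Real.log N + Real.log Y) *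
          (r n + ‖s‖ * (r n * lp (N / n))) := norm_sum_le_of_le _ hterm
    _ = (N : ℝ) ^ (-s.re) * (Real.log N + Real.log Y) *
          ((∑ n ∈ Finset.Icc 1 N, r n) + ‖s‖ * T r N) := by
        rw [← Finset.mul_sum, Finset.sum_add_distrib, ← Finset.mul_sum, T_eq r hN0.le le_rfl]
    _ ≤ (N : ℝ) ^ (-s.re) * (Real.log N + Real.log Y) *
          ((κ + B) * Real.exp 1 * N + ‖s‖ * ((κ + B) * N)) := by
        have h2 := S_le hr hκ hB h hN
        have h3 := T_le hκ hB h hN'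
        have : 0 ≤ Real.log N + Real.log Y := by linarith
        gcongr
    _ = ((κ + B) * Real.exp 1 + ‖s‖ * (κ + B)) *
      ((N : ℝ) ^ (-(s.re - 1)) * Real.log ((N : ℝ) / Y⁻¹)) := by
        rw [hlog, show -(s.re - 1) = -s.re + 1 by ring, Real.rpow_add hN0, Real.rpow_one]
        ring

/-- coefficients with the truncated logarithm -/
noncomputable def wc (r : ℕ → ℝ) (Y : ℝ) (n : ℕ) : ℝ := r n * lp (n / Y)

theorem wc_nonneg (hr : ∀ n, 0 ≤ r n) (Y : ℝ) (n : ℕ) : 0 ≤ wc r Y n :=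
  mul_nonneg (hr n) (lp_nonneg _)

theorem summable_r (hr : ∀ n, 0 ≤ r n) (hκ : 0 ≤ κ) (hB : 0 ≤ B)
    (h : ∀ x : ℝ, 1 ≤ x → |T r x - κ * x| ≤ B * Real.sqrt x) (s : ℂ) (hs : 1 < s.re) :
    LSeriesSummable (fun n => (r n : ℂ)) s := by
  refine LSeriesSummable_of_sum_norm_bigO_and_nonneg (r := 1) ?_ hr zero_le_one hs
  refine IsBigO.of_bound ((κ + B) * Real.exp 1) ?_
  filter_upwards [eventually_ge_atTop 1] with n hn
  rw [Real.rpow_one, Real.norm_eq_abs, Real.norm_eq_abs,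
    abs_of_nonneg (by positivity : (0:ℝ) ≤ (n:ℝ)), abs_of_nonneg (Finset.sum_nonneg fun k _ => hr k)]
  exact S_le hr hκ hB h hn

theorem summable_wc (hr : ∀ n, 0 ≤ r n) (hκ : 0 ≤ κ) (hB : 0 ≤ B)
    (h : ∀ x : ℝ, 1 ≤ x → |T r x - κ * x| ≤ B * Real.sqrt x) {Y : ℝ} (hY : 1 ≤ Y) (s : ℂ)
    (hs : 1 < s.re) :
    LSeriesSummable (fun n => (wc r Y n : ℂ)) s := by
  have hY0 : 0 < Y := by linarith
  have hε : 0 < (s.re - 1) / 2 := by linarith
  refine LSeriesSummable_of_sum_norm_bigO_and_nonneg (r := 1 + (s.re - 1) / 2) ?_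
    (wc_nonneg hr Y) (by linarith) (by linarith)
  refine IsBigO.of_bound ((κ + B) * Real.exp 1 * (1 / ((s.re - 1) / 2))) ?_
  filter_upwards [eventually_ge_atTop 1] with N hN
  have hN' : (1 : ℝ) ≤ N := by exact_mod_cast hN
  have hN0 : (0 : ℝ) < N := by linarith
  have hlN : 0 ≤ Real.log N := Real.log_nonneg hN'
  rw [Real.norm_eq_abs, Real.norm_eq_abs, abs_of_nonneg (Finset.sum_nonneg fun k _ =>
    wc_nonneg hr Y k), abs_of_nonneg (Real.rpow_nonneg hN0.le _)]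
  have h1 : ∀ n ∈ Finset.Icc 1 N, wc r Y n ≤ r n * Real.log N := by
    intro n hn
    simp only [Finset.mem_Icc] at hn
    have hn1 : (1 : ℝ) ≤ n := by exact_mod_cast hn.1
    have hn0 : (0 : ℝ) < n := by linarith
    have hnN : (n : ℝ) ≤ N := by exact_mod_cast hn.2
    unfold wc
    refine mul_le_mul_of_nonneg_left ?_ (hr n)
    unfold lp
    refine max_le hlN ?_
    rw [Real.log_div hn0.ne' hY0.ne']
    have := Real.log_le_log hn0 hnN
    have := Real.log_nonneg hY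
    linarith
  have h2 : Real.log N ≤ (N : ℝ) ^ ((s.re - 1) / 2) / ((s.re - 1) / 2) :=
    Real.log_le_rpow_div hN0.le hε
  calc ∑ k ∈ Finset.Icc 1 N, wc r Y k ≤ ∑ k ∈ Finset.Icc 1 N, r k * Real.log N :=
        Finset.sum_le_sum h1
    _ = (∑ k ∈ Finset.Icc 1 N, r k) * Real.log N := by rw [Finset.sum_mul]
    _ ≤ ((κ + B) * Real.exp 1 * N) * ((N : ℝ) ^ ((s.re - 1) / 2) / ((s.re - 1) / 2)) := by
        apply mul_le_mul (S_le hr hκ hB h hN) h2 hlN
        positivity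
    _ = _ := by
        rw [Real.rpow_add hN0, Real.rpow_one]
        ring

theorem LSeries_wc (hr : ∀ n, 0 ≤ r n) (hκ : 0 ≤ κ) (hB : 0 ≤ B)
    (h : ∀ x : ℝ, 1 ≤ x → |T r x - κ * x| ≤ B * Real.sqrt x) {Y : ℝ} (hY : 1 ≤ Y) (s : ℂ)
    (hs : 1 < s.re) :
    LSeries (fun n => (wc r Y n : ℂ)) s =
      (Y : ℂ) ^ (-s) * (T r Y : ℂ) - ∫ x in Ioi Y, Ker s Y x * (T r x : ℂ) := by
  have hY0 : 0 < Y := by linarith
  have hint : IntegrableOn (fun x => Ker s Y x * (T r x : ℂ)) (Ioi Y) := by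
    refine (ker_int s (C := κ + B) (β := 1) hY0 (by positivity) (fun x : ℝ => (T r x : ℂ))
      (Complex.measurable_ofReal.comp (measurable_T r)) (fun x hx => ?_) hs).1
    have hx1 : 1 ≤ x := hY.trans (le_of_lt hx)
    rw [Complex.norm_real, Real.norm_eq_abs, abs_of_nonneg (T_nonneg hr (by linarith)),
      Real.rpow_one]
    exact T_le hκ hB h hx1
  have l1 : Tendsto (fun N : ℕ => ∫ x in Y..(N : ℝ), Ker s Y x * (T r x : ℂ)) atTop
      (𝓝 (∫ x in Ioi Y, Ker s Y x * (T r x : ℂ))) :=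
    intervalIntegral_tendsto_integral_Ioi Y hint tendsto_natCast_atTop_atTop
  have l2 := boundary_tendsto hr hκ hB h hY s hs
  have l3 : Tendsto (fun N : ℕ => ∑ n ∈ Finset.Icc 1 N,
      (r n : ℂ) * (lp (n / Y) : ℂ) * (n : ℂ) ^ (-s)) atTop
      (𝓝 (LSeries (fun n => (wc r Y n : ℂ)) s)) := by
    have h1 := (summable_wc hr hκ hB h hY s hs).hasSum.tendsto_sum_nat
    have h2 := h1.comp (tendsto_add_atTop_nat 1)
    refine h2.congr fun N => ?_
    simp only [Function.comp]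
    rw [Finset.sum_range_succ', LSeries.term_zero, add_zero]
    have e : Finset.Icc 1 N = Finset.Ico 1 (N + 1) := by
      ext n
      simp only [Finset.mem_Icc, Finset.mem_Ico]
      omega
    rw [e, Finset.sum_Ico_eq_sum_range, Nat.add_sub_cancel]
    refine Finset.sum_congr rfl fun n _ => ?_
    rw [LSeries.term_of_ne_zero (Nat.succ_ne_zero n), show 1 + n = n + 1 by omega, Complex.cpow_neg,
      div_eq_mul_inv]
    unfold wc
    push_cast
    ring
  have l4 : Tendsto (fun N : ℕ => (∑ n ∈ Finset.Icc 1 N, (r n : ℂ) * FF s Y n N) -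
      (∑ n ∈ Finset.Icc 1 N, (r n : ℂ) * (lp (n / Y) : ℂ) * (n : ℂ) ^ (-s)) +
      (Y : ℂ) ^ (-s) * (T r Y : ℂ)) atTop
      (𝓝 (0 - LSeries (fun n => (wc r Y n : ℂ)) s + (Y : ℂ) ^ (-s) * (T r Y : ℂ))) :=
    (l2.sub l3).add_const _
  have l5 : Tendsto (fun N : ℕ => ∫ x in Y..(N : ℝ), Ker s Y x * (T r x : ℂ)) atTop
      (𝓝 (0 - LSeries (fun n => (wc r Y n : ℂ)) s + (Y : ℂ) ^ (-s) * (T r Y : ℂ))) := by
    refine l4.congr' ?_
    filter_upwards [eventually_ge_atTop ⌈Y⌉₊] with N hN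
    have hYN : Y ≤ N := (Nat.le_ceil Y).trans (by exact_mod_cast hN)
    exact (integral_T r s hY hYN).symm
  have := tendsto_nhds_unique l1 l5
  rw [this]
  ring

/-! ### the error term -/

/-- the error term cut off at `Z` -/
noncomputable def g (r : ℕ → ℝ) (κ Z : ℝ) : ℝ → ℂ :=
  (Ioi Z).indicator (fun x => ((T r x - κ * x : ℝ) : ℂ))

theorem measurable_g (r : ℕ → ℝ) (κ Z : ℝ) : Measurable (g r κ Z) := by
  refine Measurable.indicator ?_ measurableSet_Ioi
  exact Complex.measurable_ofReal.comp ((measurable_T r).sub (measurable_const.mul measurable_id))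

theorem norm_g_le (hB : 0 ≤ B) (h : ∀ x : ℝ, 1 ≤ x → |T r x - κ * x| ≤ B * Real.sqrt x) {Z : ℝ}
    (hZ : 1 ≤ Z) (x : ℝ) : ‖g r κ Z x‖ ≤ B * Real.sqrt x := by
  unfold g
  by_cases hx : x ∈ Ioi Z
  · rw [Set.indicator_of_mem hx, Complex.norm_real, Real.norm_eq_abs]
    exact h x (hZ.trans (le_of_lt hx))
  · rw [Set.indicator_of_notMem hx, norm_zero]
    positivity

theorem mellin_facts (hB : 0 ≤ B) (h : ∀ x : ℝ, 1 ≤ x → |T r x - κ * x| ≤ B * Real.sqrt x) {Z : ℝ}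
    (hZ : 1 ≤ Z) (s : ℂ) (hs : s.re < -(1 / 2)) :
    MellinConvergent (fun t => Real.log t • g r κ Z t) s ∧
      HasDerivAt (mellin (g r κ Z)) (mellin (fun t => Real.log t • g r κ Z t) s) s := by
  refine mellin_hasDerivAt_of_isBigO_rpow (a := -(1 / 2)) (b := s.re - 1) ?_ ?_ hs ?_
    (by linarith)
  · have h1 : LocallyIntegrable (fun x : ℝ => B * Real.sqrt x) :=
      (continuous_const.mul Real.continuous_sqrt).locallyIntegrable
    refine (h1.mono (measurable_g r κ Z).aestronglyMeasurable ?_).locallyIntegrableOn _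
    refine Eventually.of_forall fun x => ?_
    exact (norm_g_le hB h hZ x).trans (le_abs_self _)
  · refine IsBigO.of_bound B ?_
    filter_upwards [eventually_ge_atTop (0 : ℝ)] with x hx
    rw [neg_neg, ← Real.sqrt_eq_rpow, Real.norm_eq_abs, abs_of_nonneg (Real.sqrt_nonneg x)]
    exact norm_g_le hB h hZ x
  · refine IsBigO.of_bound 0 ?_
    have : Set.Iio (1 : ℝ) ∈ 𝓝[>] (0 : ℝ) := mem_nhdsWithin_of_mem_nhds (Iio_mem_nhds one_pos)
    filter_upwards [this] with x hx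
    have hx' : x ∉ Ioi Z := by
      simp only [Set.mem_Ioi, not_lt]
      exact (le_of_lt hx).trans hZ
    unfold g
    rw [Set.indicator_of_notMem hx']
    simp

/-- the analytic error function -/
noncomputable def tau (r : ℕ → ℝ) (κ Y : ℝ) (s : ℂ) : ℂ :=
  (Y : ℂ) ^ (-s) * ((T r Y - κ * Y : ℝ) : ℂ) -
    ∫ x in Ioi Y, Ker s Y x * ((T r x - κ * x : ℝ) : ℂ)

theorem delta_int (hB : 0 ≤ B) (h : ∀ x : ℝ, 1 ≤ x → |T r x - κ * x| ≤ B * Real.sqrt x) {Y : ℝ}
    (hY : 1 ≤ Y) (s : ℂ) (hs : 1 / 2 < s.re) :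
    IntegrableOn (fun x => Ker s Y x * ((T r x - κ * x : ℝ) : ℂ)) (Ioi Y) ∧
      ‖∫ x in Ioi Y, Ker s Y x * ((T r x - κ * x : ℝ) : ℂ)‖ ≤
        B * (2 * ‖s‖ / (s.re - 1 / 2) + ‖s‖ ^ 2 / (s.re - 1 / 2) ^ 2) *
          Y ^ (-(s.re - 1 / 2)) := by
  refine ker_int s (by linarith) hB (fun x : ℝ => ((T r x - κ * x : ℝ) : ℂ))
    (Complex.measurable_ofReal.comp ((measurable_T r).sub (measurable_const.mul measurable_id)))
    (fun x hx => ?_) hs
  have hx1 : 1 ≤ x := hY.trans (le_of_lt hx)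
  rw [Complex.norm_real, Real.norm_eq_abs, ← Real.sqrt_eq_rpow]
  exact h x hx1

theorem norm_tau_le (hB : 0 ≤ B) (h : ∀ x : ℝ, 1 ≤ x → |T r x - κ * x| ≤ B * Real.sqrt x) {Y : ℝ}
    (hY : 1 ≤ Y) (s : ℂ) (hs : 1 / 2 < s.re) :
    ‖tau r κ Y s‖ ≤ B * (1 + ‖s‖ / (s.re - 1 / 2)) ^ 2 * Y ^ (1 / 2 - s.re) := by
  have hY0 : 0 < Y := by linarith
  have hd : 0 < s.re - 1 / 2 := by linarith
  have h1 := (delta_int hB h hY s hs).2
  have h2 := h Y hY
  have e : Y ^ (1 / 2 - s.re) = Real.sqrt Y * Y ^ (-s).re := by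
    rw [Real.sqrt_eq_rpow, ← Real.rpow_add hY0]
    congr 1
  have e2 : -(s.re - 1 / 2) = 1 / 2 - s.re := by ring
  rw [e2] at h1
  unfold tau
  refine (norm_sub_le _ _).trans ?_
  rw [norm_mul, Complex.norm_cpow_eq_rpow_re_of_pos hY0, Complex.norm_real, Real.norm_eq_abs]
  have hp : 0 ≤ Y ^ (-s).re := Real.rpow_nonneg hY0.le _
  calc Y ^ (-s).re * |T r Y - κ * Y| +
        ‖∫ x in Ioi Y, Ker s Y x * ((T r x - κ * x : ℝ) : ℂ)‖
      ≤ Y ^ (-s).re * (B * Real.sqrt Y) +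
        B * (2 * ‖s‖ / (s.re - 1 / 2) + ‖s‖ ^ 2 / (s.re - 1 / 2) ^ 2) * Y ^ (1 / 2 - s.re) := by
        gcongr
    _ = B * (1 + ‖s‖ / (s.re - 1 / 2)) ^ 2 * Y ^ (1 / 2 - s.re) := by
        rw [e]
        have key : ∀ d p q : ℝ, 0 < d → p * (B * q) +
            B * (2 * ‖s‖ / d + ‖s‖ ^ 2 / d ^ 2) * (q * p) = B * (1 + ‖s‖ / d) ^ 2 * (q * p) := by
          intro d p q hd
          field_simp
          ring
        exact key _ _ _ hd

theorem tau_eq (hB : 0 ≤ B) (h : ∀ x : ℝ, 1 ≤ x → |T r x - κ * x| ≤ B * Real.sqrt x) {Y : ℝ}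
    (hY : 1 ≤ Y) (s : ℂ) (hs : 1 / 2 < s.re) :
    tau r κ Y s = (Y : ℂ) ^ (-s) * ((T r Y - κ * Y : ℝ) : ℂ) -
      ((2 * s + s ^ 2 * (Real.log Y : ℂ)) * mellin (g r κ Y) (-s) -
        s ^ 2 * deriv (mellin (g r κ Y)) (-s)) := by
  have hY0 : 0 < Y := by linarith
  have hs' : (-s).re < -(1 / 2) := by simp only [Complex.neg_re]; linarith
  obtain ⟨c1, c2⟩ := mellin_facts hB h hY (-s) hs'
  have c3 : MellinConvergent (g r κ Y) (-s) := by
    refine mellinConvergent_of_isBigO_rpow (a := -(1 / 2)) (b := (-s).re - 1) ?_ ?_ hs' ?_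
      (by linarith)
    · have h1 : LocallyIntegrable (fun x : ℝ => B * Real.sqrt x) :=
        (continuous_const.mul Real.continuous_sqrt).locallyIntegrable
      refine (h1.mono (measurable_g r κ Y).aestronglyMeasurable ?_).locallyIntegrableOn _
      refine Eventually.of_forall fun x => ?_
      exact (norm_g_le hB h hY x).trans (le_abs_self _)
    · refine IsBigO.of_bound B ?_
      filter_upwards [eventually_ge_atTop (0 : ℝ)] with x hx
      rw [neg_neg, ← Real.sqrt_eq_rpow, Real.norm_eq_abs, abs_of_nonneg (Real.sqrt_nonneg x)]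
      exact norm_g_le hB h hY x
    · refine IsBigO.of_bound 0 ?_
      have : Set.Iio (1 : ℝ) ∈ 𝓝[>] (0 : ℝ) := mem_nhdsWithin_of_mem_nhds (Iio_mem_nhds one_pos)
      filter_upwards [this] with x hx
      have hx' : x ∉ Ioi Y := by
        simp only [Set.mem_Ioi, not_lt]
        exact (le_of_lt hx).trans hY
      unfold g
      rw [Set.indicator_of_notMem hx']
      simp
  unfold tau
  congr 1
  rw [c2.deriv]
  unfold mellin
  rw [← integral_const_mul, ← integral_const_mul, ← integral_sub]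
  · have e1 : ∀ x ∈ Ioi (0 : ℝ),
        (2 * s + s ^ 2 * (Real.log Y : ℂ)) * ((x : ℂ) ^ (-s - 1) • g r κ Y x) -
          s ^ 2 * ((x : ℂ) ^ (-s - 1) • (Real.log x • g r κ Y x)) =
        (Ioi Y).indicator (fun x : ℝ => Ker s Y x * ((T r x - κ * x : ℝ) : ℂ)) x := by
      intro x hx
      have hx0 : 0 < x := hx
      by_cases hxY : x ∈ Ioi Y
      · unfold g Ker
        rw [Set.indicator_of_mem hxY, Set.indicator_of_mem hxY, Real.log_div hx0.ne' hY0.ne']
        simp only [smul_eq_mul, Complex.real_smul]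
        push_cast
        ring
      · unfold g
        rw [Set.indicator_of_notMem hxY, Set.indicator_of_notMem hxY]
        simp
    rw [setIntegral_congr_fun measurableSet_Ioi e1, setIntegral_indicator measurableSet_Ioi]
    congr 2
    exact (Set.inter_eq_right.mpr (Set.Ioi_subset_Ioi hY0.le)).symm
  · exact Integrable.const_mul c3 _
  · exact Integrable.const_mul c1 _

theorem analytic_tau (hB : 0 ≤ B) (h : ∀ x : ℝ, 1 ≤ x → |T r x - κ * x| ≤ B * Real.sqrt x) {Y : ℝ}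
    (hY : 1 ≤ Y) : AnalyticOnNhd ℂ (tau r κ Y) {s | 1 / 2 < s.re} := by
  have hY0 : 0 < Y := by linarith
  have hYc : (Y : ℂ) ≠ 0 := by exact_mod_cast hY0.ne'
  have hopen : IsOpen {s : ℂ | 1 / 2 < s.re} := isOpen_lt continuous_const Complex.continuous_re
  have hopen' : IsOpen {s : ℂ | s.re < -(1 / 2)} := isOpen_lt Complex.continuous_re continuous_const
  have hM : AnalyticOnNhd ℂ (mellin (g r κ Y)) {s : ℂ | s.re < -(1 / 2)} :=
    DifferentiableOn.analyticOnNhd (fun s hs =>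
      (mellin_facts hB h hY s hs).2.differentiableAt.differentiableWithinAt) hopen'
  have hM' := hM.deriv
  refine DifferentiableOn.analyticOnNhd ?_ hopen
  refine DifferentiableOn.congr (f := fun s : ℂ => (Y : ℂ) ^ (-s) * ((T r Y - κ * Y : ℝ) : ℂ) -
      ((2 * s + s ^ 2 * (Real.log Y : ℂ)) * mellin (g r κ Y) (-s) -
        s ^ 2 * deriv (mellin (g r κ Y)) (-s))) ?_ (fun s hs => tau_eq hB h hY s hs)
  intro s hs
  have hs' : -s ∈ {s : ℂ | s.re < -(1 / 2)} := by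
    have : (1 : ℝ) / 2 < s.re := hs
    simp only [Set.mem_setOf_eq, Complex.neg_re]
    linarith
  have h1 : DifferentiableAt ℂ (fun s : ℂ => mellin (g r κ Y) (-s)) s :=
    (hM _ hs').differentiableAt.comp s differentiableAt_id.neg
  have h2 : DifferentiableAt ℂ (fun s : ℂ => deriv (mellin (g r κ Y)) (-s)) s :=
    (hM' _ hs').differentiableAt.comp s differentiableAt_id.neg
  have h3 : DifferentiableAt ℂ (fun s : ℂ => (Y : ℂ) ^ (-s)) s :=
    (differentiableAt_id.neg).const_cpow (Or.inl hYc)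
  have h4 : DifferentiableAt ℂ (fun s : ℂ => (2 * s + s ^ 2 * (Real.log Y : ℂ))) s := by fun_prop
  have h5 : DifferentiableAt ℂ (fun s : ℂ => s ^ 2) s := by fun_prop
  exact ((h3.mul_const _).sub ((h4.mul h1).sub (h5.mul h2))).differentiableWithinAt

theorem LSeries_wc' (hr : ∀ n, 0 ≤ r n) (hκ : 0 ≤ κ) (hB : 0 ≤ B)
    (h : ∀ x : ℝ, 1 ≤ x → |T r x - κ * x| ≤ B * Real.sqrt x) {Y : ℝ} (hY : 1 ≤ Y) (s : ℂ)
    (hs : 1 < s.re) :
    LSeries (fun n => (wc r Y n : ℂ)) s =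
      κ * ((Y : ℂ) ^ (1 - s) / (s - 1) ^ 2) + tau r κ Y s := by
  have hY0 : 0 < Y := by linarith
  have hYc : (Y : ℂ) ≠ 0 := by exact_mod_cast hY0.ne'
  have hs1 : s - 1 ≠ 0 := by
    intro hc
    have : s = 1 := by linear_combination hc
    rw [this] at hs; simp at hs
  rw [LSeries_wc hr hκ hB h hY s hs]
  have i1 := (delta_int hB h hY s (by linarith)).1
  have i2 : IntegrableOn (fun x : ℝ => Ker s Y x * (x : ℂ)) (Ioi Y) := by
    refine (ker_int s (C := 1) (β := 1) hY0 zero_le_one (fun x : ℝ => (x : ℂ))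
      Complex.measurable_ofReal (fun x hx => ?_) hs).1
    have hx0 : 0 < x := hY0.trans hx
    rw [Complex.norm_real, Real.norm_eq_abs, abs_of_pos hx0, Real.rpow_one, one_mul]
  have e1 : ∫ x in Ioi Y, Ker s Y x * (T r x : ℂ) =
      κ * (∫ x in Ioi Y, Ker s Y x * (x : ℂ)) +
        ∫ x in Ioi Y, Ker s Y x * ((T r x - κ * x : ℝ) : ℂ) := by
    rw [← integral_const_mul, ← integral_add (i2.const_mul _) i1]
    refine integral_congr_ae (Eventually.of_forall fun x => ?_)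
    simp only
    push_cast
    ring
  rw [e1, integral_polar s hY0 hs]
  unfold tau
  have e6 : (Y : ℂ) ^ (1 - s) = (Y : ℂ) * (Y : ℂ) ^ (-s) := by
    rw [Complex.cpow_sub _ _ hYc, Complex.cpow_one, Complex.cpow_neg, div_eq_mul_inv]
  rw [e6]
  push_cast
  field_simp
  ring

theorem V_eq {Z x : ℝ} (hZ : 0 < Z) (hx : 0 < x) :
    V Z x + (lp (x / Z) - lp (x / (Real.exp 1 * Z))) = 1 := by
  have e : Real.log (x / (Real.exp 1 * Z)) = Real.log (x / Z) - 1 := by
    rw [Real.log_div hx.ne' (by positivity), Real.log_mul (Real.exp_pos 1).ne' hZ.ne',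
      Real.log_exp, Real.log_div hx.ne' hZ.ne']
    ring
  unfold V lp
  rw [e]
  set l := Real.log (x / Z)
  rcases le_total l 0 with h1 | h1
  · rw [max_eq_left h1, max_eq_left (by linarith : l - 1 ≤ 0), max_eq_right (by linarith),
      min_eq_left (by linarith)]
    ring
  · rcases le_total l 1 with h2 | h2
    · rw [max_eq_right h1, max_eq_left (by linarith : l - 1 ≤ 0), max_eq_right (by linarith),
        min_eq_right (by linarith)]
      ring
    · rw [max_eq_right h1, max_eq_right (by linarith : 0 ≤ l - 1), max_eq_left (by linarith),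
        min_eq_right (by norm_num)]
      ring

theorem V_zero {Z x : ℝ} (hZ : 0 < Z) (hx : Real.exp 1 * Z ≤ x) : V Z x = 0 := by
  have hx0 : 0 < x := lt_of_lt_of_le (by positivity) hx
  have : 1 ≤ Real.log (x / Z) := by
    rw [Real.le_log_iff_exp_le (by positivity), le_div_iff₀ hZ]
    exact hx
  unfold V
  rw [max_eq_left (by linarith), min_eq_right (by norm_num)]

end hyp

end AbelB

open AbelB in
theorem abel_tail_log (r : ℕ → ℝ) (hr : ∀ n, 0 ≤ r n) (κ B Z : ℝ) (hκ : 0 ≤ κ) (hB : 0 ≤ B)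
    (hZ : 1 ≤ Z)
    (h : ∀ x : ℝ, 1 ≤ x →
      |(∑ n ∈ Finset.Icc 1 ⌊x⌋₊, r n * Real.log (x / n)) - κ * x| ≤ B * Real.sqrt x) :
    ∃ tail : ℂ → ℂ, AnalyticOnNhd ℂ tail {s | 1 / 2 < s.re} ∧
      (∀ s : ℂ, 1 / 2 < s.re →
        ‖tail s‖ ≤ 2 * B * (1 + ‖s‖ / (s.re - 1 / 2)) ^ 2 * Z ^ (1 / 2 - s.re)) ∧
      ∀ s : ℂ, 1 < s.re → LSeriesSummable (fun n => (r n : ℂ)) s ∧
        LSeries (fun n => (r n : ℂ)) s =
          (∑ n ∈ Finset.Icc 1 ⌊Real.exp 1 * Z⌋₊, (V Z n : ℂ) * ((r n : ℂ) * (n : ℂ) ^ (-s)))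
            + κ * polar Z s + tail s := by
  have h' : ∀ x : ℝ, 1 ≤ x → |T r x - κ * x| ≤ B * Real.sqrt x := h
  have hZ0 : (0 : ℝ) < Z := by linarith
  have he : (1 : ℝ) ≤ Real.exp 1 := Real.one_le_exp zero_le_one
  have heZ : Z ≤ Real.exp 1 * Z := by nlinarith
  have heZ1 : 1 ≤ Real.exp 1 * Z := hZ.trans heZ
  refine ⟨fun s => tau r κ Z s - tau r κ (Real.exp 1 * Z) s,
    (analytic_tau hB h' hZ).sub (analytic_tau hB h' heZ1), ?_, ?_⟩
  · intro s hs
    have h1 := norm_tau_le hB h' hZ s hs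
    have h2 := norm_tau_le hB h' heZ1 s hs
    have hd : 0 < s.re - 1 / 2 := by linarith
    have h3 : (Real.exp 1 * Z) ^ (1 / 2 - s.re) ≤ Z ^ (1 / 2 - s.re) :=
      Real.rpow_le_rpow_of_nonpos hZ0 heZ (by linarith)
    have h4 : 0 ≤ B * (1 + ‖s‖ / (s.re - 1 / 2)) ^ 2 := by positivity
    calc ‖tau r κ Z s - tau r κ (Real.exp 1 * Z) s‖
        ≤ ‖tau r κ Z s‖ + ‖tau r κ (Real.exp 1 * Z) s‖ := norm_sub_le _ _
      _ ≤ B * (1 + ‖s‖ / (s.re - 1 / 2)) ^ 2 * Z ^ (1 / 2 - s.re) +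
          B * (1 + ‖s‖ / (s.re - 1 / 2)) ^ 2 * (Real.exp 1 * Z) ^ (1 / 2 - s.re) := add_le_add h1 h2
      _ ≤ B * (1 + ‖s‖ / (s.re - 1 / 2)) ^ 2 * Z ^ (1 / 2 - s.re) +
          B * (1 + ‖s‖ / (s.re - 1 / 2)) ^ 2 * Z ^ (1 / 2 - s.re) := by
          gcongr
      _ = _ := by ring
  · intro s hs
    have hsum := summable_r hr hκ hB h' s hs
    refine ⟨hsum, ?_⟩
    have hs1 := summable_wc hr hκ hB h' hZ s hs
    have hs2 := summable_wc hr hκ hB h' heZ1 s hs
    have hterm : ∀ n, LSeries.term (fun n => (r n : ℂ)) s n =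
        (if n ∈ Finset.Icc 1 ⌊Real.exp 1 * Z⌋₊ then
          (V Z n : ℂ) * ((r n : ℂ) * (n : ℂ) ^ (-s)) else 0) +
          (LSeries.term (fun n => (wc r Z n : ℂ)) s n -
            LSeries.term (fun n => (wc r (Real.exp 1 * Z) n : ℂ)) s n) := by
      intro n
      rcases Nat.eq_zero_or_pos n with hn | hn
      · subst hn; simp
      · have hn0 : (0 : ℝ) < n := by exact_mod_cast hn
        rw [LSeries.term_of_ne_zero hn.ne', LSeries.term_of_ne_zero hn.ne',
          LSeries.term_of_ne_zero hn.ne']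
        have hV : (V Z n : ℂ) + ((lp (n / Z) : ℂ) - (lp (n / (Real.exp 1 * Z)) : ℂ)) = 1 := by
          have := V_eq hZ0 hn0
          exact_mod_cast this
        have h5 : (if n ∈ Finset.Icc 1 ⌊Real.exp 1 * Z⌋₊ then
            (V Z n : ℂ) * ((r n : ℂ) * (n : ℂ) ^ (-s)) else 0) =
            (V Z n : ℂ) * ((r n : ℂ) * (n : ℂ) ^ (-s)) := by
          by_cases hnZ : n ≤ ⌊Real.exp 1 * Z⌋₊
          · rw [if_pos (by simp only [Finset.mem_Icc]; omega)]
          · rw [if_neg (by simp only [Finset.mem_Icc]; omega)]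
            have : V Z n = 0 := V_zero hZ0 ((Nat.lt_of_floor_lt (not_le.1 hnZ)).le)
            rw [this]
            simp
        rw [h5]
        unfold wc
        rw [Complex.cpow_neg]
        push_cast
        simp only [div_eq_mul_inv] at hV ⊢
        linear_combination (-(r n : ℂ) * ((n : ℂ) ^ s)⁻¹) * hV
    have hL : LSeries (fun n => (r n : ℂ)) s =
        (∑ n ∈ Finset.Icc 1 ⌊Real.exp 1 * Z⌋₊, (V Z n : ℂ) * ((r n : ℂ) * (n : ℂ) ^ (-s))) +
          (LSeries (fun n => (wc r Z n : ℂ)) s -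
            LSeries (fun n => (wc r (Real.exp 1 * Z) n : ℂ)) s) := by
      unfold LSeries
      have hf : HasSum (fun n => if n ∈ Finset.Icc 1 ⌊Real.exp 1 * Z⌋₊ then
          (V Z n : ℂ) * ((r n : ℂ) * (n : ℂ) ^ (-s)) else 0)
          (∑ n ∈ Finset.Icc 1 ⌊Real.exp 1 * Z⌋₊,
            (V Z n : ℂ) * ((r n : ℂ) * (n : ℂ) ^ (-s))) := by
        have h3 : HasSum (fun n => if n ∈ Finset.Icc 1 ⌊Real.exp 1 * Z⌋₊ then
            (V Z n : ℂ) * ((r n : ℂ) * (n : ℂ) ^ (-s)) else 0)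
            (∑ n ∈ Finset.Icc 1 ⌊Real.exp 1 * Z⌋₊,
              if n ∈ Finset.Icc 1 ⌊Real.exp 1 * Z⌋₊ then
                (V Z n : ℂ) * ((r n : ℂ) * (n : ℂ) ^ (-s)) else 0) :=
          hasSum_sum_of_ne_finset_zero (fun b hb => if_neg hb)
        rwa [Finset.sum_congr rfl fun n hn => if_pos hn] at h3
      exact (tsum_congr hterm).trans (hf.add (hs1.hasSum.sub hs2.hasSum)).tsum_eq
    rw [hL, LSeries_wc' hr hκ hB h' hZ s hs, LSeries_wc' hr hκ hB h' heZ1 s hs]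
    unfold polar
    ring

end Pool.Hhelper85.RQ
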