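import Mathlib

/-!
# Real quadratic fields: scaled box norms, smooth cut-off
-/

open scoped NumberField nonZeroDivisors

namespace Pool.Hhelper85.RQ

/-- The scaled box norm of an element of a real quadratic field with real embeddings
`φ₁, φ₂`. -/
noncomputable def bn {K : Type} [Field K] (φ₁ φ₂ : K →+* ℝ) (u : ℝ) (x : K) : ℝ :=
  max (Real.exp (-u) * |φ₁ x|) (Real.exp u * |φ₂ x|)

/-- The smooth cut-off: `1` for `x ≤ Z`, `1 - log (x / Z)` for `Z ≤ x ≤ e Z`, `0` beyond. -/
noncomputable def V (Z x : ℝ) : ℝ := min 1 (max 0 (1 - Real.log (x / Z)))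

end Pool.Hhelper85.RQ
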