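import Pool.Agent.Hhelper85.RQ.NormCount

/-!
# Counting the elements of an ideal of a real quadratic field in a box

PAPER PROOF. `J` is a free ℤ-module of rank 2 (`Ideal.selfBasis`/`Submodule`). The minimum of
`bn φ₁ φ₂ u` over `J \ {0}` exists (finitely many elements of `J`, even of `𝓞 K`, with both
`|φ₁|`, `|φ₂|` bounded: a lattice/`Embeddings.finite_of_norm_le`, or the characteristic polynomial
`x² - (φ₁ α + φ₂ α) x + φ₁ α φ₂ α` has bounded integer coefficients); let `v` attain it. `v` is primitive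
in `J` (`v = k v'` gives `bn v' = bn v / |k|`), so it extends to a basis `(v, w)` of `J`: write
`v = p e₁ + q e₂`, `gcd (p, q) = 1`, Bezout, exactly as in step (1) of
`Pool/Agent/Hhelper85/CZ/Param.lean` (you may import it and copy the argument). Let
`F (x, y) = max (e^(-u) |x φ₁ v + y φ₁ w|) (e^u |x φ₂ v + y φ₂ w|)`: it satisfies the hypotheses of
`norm_count` with `F (1, 0) = bn v`, and `{F ≤ 1}` is the preimage of the square `[-1,1]²` under
the linear map with determinant `φ₁ v φ₂ w - φ₂ v φ₁ w =: δ` (the factors `e^(-u)`, `e^u` have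
product 1), so its volume is `4 / |δ|` (`MeasureTheory.Measure.addHaar_preimage_linearMap`), and
`δ² = discriminant of the basis (v, w) = absNorm J ^ 2 * discr K`
(discriminant of a ℤ-basis of an ideal: index squared times `discr K`; via
`Algebra.discr_of_matrix_vecMul`/`discr_eq_det_embeddingsMatrixReindex_pow_two`,
`Ideal.natAbs_det_equiv`/`Ideal.natAbs_det_basis_change` gives `|det| = absNorm J` for the matrix of
`(v, w)` in a basis of `𝓞 K`; or by hand: `(v, w) = (e₁, e₂) M`, `δ = det M * (φ₁ e₁ φ₂ e₂ - ...)`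
and `(φ₁ e₁ φ₂ e₂ - φ₂ e₁ φ₁ e₂)² = discr K` from the trace matrix).
Put `ℓ = bn v / √(absNorm J)`, `r = √(x * absNorm J)`: main term `4 r²/|δ| = 4 x / √|discr K|`, error
`C r / bn v = C √x / ℓ`. Finally `ℓ² ≤ C' √|discr K|`: for `r < bn v` the count is `0`, so
`4 r² / |δ| ≤ C r / bn v`, let `r → bn v`: `4 (bn v)² ≤ C |δ| = C absNorm J √|discr K|`.
Note `|discr K|`: with two real embeddings `discr K = δ₀² > 0`.
-/

open scoped NumberField nonZeroDivisors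
open MeasureTheory

namespace Pool.Hhelper85.RQ

/-- the box norm of a linear map of the plane -/
noncomputable def FF (a b c d : ℝ) (p : ℝ × ℝ) : ℝ :=
  max |a * p.1 + b * p.2| |c * p.1 + d * p.2|

theorem FF_nonneg (a b c d : ℝ) (p : ℝ × ℝ) : 0 ≤ FF a b c d p :=
  le_max_of_le_left (abs_nonneg _)

theorem FF_smul (a b c d : ℝ) (t : ℝ) (p : ℝ × ℝ) : FF a b c d (t • p) = |t| * FF a b c d p := by
  unfold FF
  rw [mul_max_of_nonneg _ _ (abs_nonneg t), ← abs_mul, ← abs_mul]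
  simp only [Prod.smul_fst, Prod.smul_snd, smul_eq_mul]
  congr 2 <;> ring_nf

theorem FF_add (a b c d : ℝ) (p q : ℝ × ℝ) :
    FF a b c d (p + q) ≤ FF a b c d p + FF a b c d q := by
  unfold FF
  simp only [Prod.fst_add, Prod.snd_add]
  apply max_le
  · calc |a * (p.1 + q.1) + b * (p.2 + q.2)| = |(a * p.1 + b * p.2) + (a * q.1 + b * q.2)| := by
          congr 1; ring
      _ ≤ |a * p.1 + b * p.2| + |a * q.1 + b * q.2| := abs_add_le _ _
      _ ≤ _ := add_le_add (le_max_left _ _) (le_max_left _ _)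
  · calc |c * (p.1 + q.1) + d * (p.2 + q.2)| = |(c * p.1 + d * p.2) + (c * q.1 + d * q.2)| := by
          congr 1; ring
      _ ≤ |c * p.1 + d * p.2| + |c * q.1 + d * q.2| := abs_add_le _ _
      _ ≤ _ := add_le_add (le_max_right _ _) (le_max_right _ _)

/-- Cramer's rule: coordinates are bounded by the box norm. -/
theorem FF_bound {a b c d : ℝ} (hδ : a * d - b * c ≠ 0) (p : ℝ × ℝ) :
    |p.1| ≤ (|b| + |d|) / |a * d - b * c| * FF a b c d p ∧
      |p.2| ≤ (|a| + |c|) / |a * d - b * c| * FF a b c d p := by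
  have hδ' : 0 < |a * d - b * c| := abs_pos.mpr hδ
  set u := a * p.1 + b * p.2 with hu
  set v := c * p.1 + d * p.2 with hv
  have h1 : (a * d - b * c) * p.1 = d * u - b * v := by rw [hu, hv]; ring
  have h2 : (a * d - b * c) * p.2 = a * v - c * u := by rw [hu, hv]; ring
  have hF : FF a b c d p = max |u| |v| := rfl
  have hu' : |u| ≤ FF a b c d p := hF ▸ le_max_left _ _
  have hv' : |v| ≤ FF a b c d p := hF ▸ le_max_right _ _
  constructor
  · rw [div_mul_eq_mul_div, le_div_iff₀ hδ', mul_comm, ← abs_mul, h1]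
    calc |d * u - b * v| ≤ |d * u| + |b * v| := abs_sub _ _
      _ = |d| * |u| + |b| * |v| := by rw [abs_mul, abs_mul]
      _ ≤ |d| * FF a b c d p + |b| * FF a b c d p := by gcongr
      _ = _ := by ring
  · rw [div_mul_eq_mul_div, le_div_iff₀ hδ', mul_comm, ← abs_mul, h2]
    calc |a * v - c * u| ≤ |a * v| + |c * u| := abs_sub _ _
      _ = |a| * |v| + |c| * |u| := by rw [abs_mul, abs_mul]
      _ ≤ |a| * FF a b c d p + |c| * FF a b c d p := by gcongr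
      _ = _ := by ring

theorem FF_finite {a b c d : ℝ} (hδ : a * d - b * c ≠ 0) (B : ℝ) :
    {p : ℤ × ℤ | FF a b c d ((p.1 : ℝ), (p.2 : ℝ)) ≤ B}.Finite := by
  set M₁ := (|b| + |d|) / |a * d - b * c| * B with hM₁
  set M₂ := (|a| + |c|) / |a * d - b * c| * B with hM₂
  refine ((Set.finite_Icc (-⌈M₁⌉) ⌈M₁⌉).prod (Set.finite_Icc (-⌈M₂⌉) ⌈M₂⌉)).subset ?_
  intro p hp
  have hp' : FF a b c d ((p.1 : ℝ), (p.2 : ℝ)) ≤ B := hp
  obtain ⟨h1, h2⟩ := FF_bound hδ ((p.1 : ℝ), (p.2 : ℝ))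
  have h1' : |(p.1 : ℝ)| ≤ M₁ := h1.trans (mul_le_mul_of_nonneg_left hp' (by positivity))
  have h2' : |(p.2 : ℝ)| ≤ M₂ := h2.trans (mul_le_mul_of_nonneg_left hp' (by positivity))
  rw [abs_le] at h1' h2'
  have c1 := Int.le_ceil M₁
  have c2 := Int.le_ceil M₂
  refine ⟨⟨?_, ?_⟩, ⟨?_, ?_⟩⟩
  · have : (-(⌈M₁⌉ : ℝ)) ≤ p.1 := by linarith [h1'.1]
    exact_mod_cast this
  · have : (p.1 : ℝ) ≤ ⌈M₁⌉ := by linarith [h1'.2]
    exact_mod_cast this
  · have : (-(⌈M₂⌉ : ℝ)) ≤ p.2 := by linarith [h2'.1]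
    exact_mod_cast this
  · have : (p.2 : ℝ) ≤ ⌈M₂⌉ := by linarith [h2'.2]
    exact_mod_cast this

theorem FF_pos {a b c d : ℝ} (hδ : a * d - b * c ≠ 0) {p : ℤ × ℤ} (hp : p ≠ (0, 0)) :
    0 < FF a b c d ((p.1 : ℝ), (p.2 : ℝ)) := by
  rcases (FF_nonneg a b c d ((p.1 : ℝ), (p.2 : ℝ))).lt_or_eq with h | h
  · exact h
  · exfalso
    obtain ⟨h1, h2⟩ := FF_bound hδ ((p.1 : ℝ), (p.2 : ℝ))
    rw [← h, mul_zero] at h1 h2
    apply hp
    ext
    · have : (p.1 : ℝ) = 0 := abs_nonpos_iff.mp h1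
      exact_mod_cast this
    · have : (p.2 : ℝ) = 0 := abs_nonpos_iff.mp h2
      exact_mod_cast this

theorem FF_volume {a b c d : ℝ} (hδ : a * d - b * c ≠ 0) :
    (volume {p : ℝ × ℝ | FF a b c d p ≤ 1}).toReal = 4 / |a * d - b * c| := by
  set f : ℝ × ℝ →ₗ[ℝ] ℝ × ℝ :=
    Matrix.toLin (Module.Basis.finTwoProd ℝ) (Module.Basis.finTwoProd ℝ) !![a, b; c, d] with hf
  have hdet : LinearMap.det f = a * d - b * c := by
    rw [hf, LinearMap.det_toLin, Matrix.det_fin_two_of]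
  have hset : {p : ℝ × ℝ | FF a b c d p ≤ 1} = f ⁻¹' (Set.Icc (-1) 1 ×ˢ Set.Icc (-1) 1) := by
    ext p
    simp only [Set.mem_ofPred_eq, Set.mem_preimage, hf, Matrix.toLin_finTwoProd_apply, FF, max_le_iff,
      abs_le, Set.mem_prod, Set.mem_Icc]
  rw [hset, Measure.addHaar_preimage_linearMap volume (by rw [hdet]; exact hδ), hdet,
    Measure.volume_eq_prod, Measure.prod_prod, Real.volume_Icc, ENNReal.toReal_mul,
    ENNReal.toReal_ofReal (abs_nonneg _), ENNReal.toReal_mul, ENNReal.toReal_ofReal (by norm_num),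
    abs_inv]
  field_simp
  norm_num

theorem FF_count : ∃ C : ℝ, 0 < C ∧ ∀ a b c d : ℝ, a * d - b * c ≠ 0 →
    ∃ ℓ : ℝ, 0 < ℓ ∧ ℓ ^ 2 ≤ C * |a * d - b * c| ∧
      (∃ p : ℤ × ℤ, p ≠ (0, 0) ∧ FF a b c d ((p.1 : ℝ), (p.2 : ℝ)) = ℓ) ∧
      ∀ r : ℝ, 0 ≤ r →
        {p : ℤ × ℤ | p ≠ (0, 0) ∧ FF a b c d ((p.1 : ℝ), (p.2 : ℝ)) ≤ r}.Finite ∧
        |(({p : ℤ × ℤ | p ≠ (0, 0) ∧ FF a b c d ((p.1 : ℝ), (p.2 : ℝ)) ≤ r}.ncard : ℕ) : ℝ) -
          (4 * r ^ 2 / |a * d - b * c|)| ≤ C * r / ℓ := by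
  obtain ⟨C, hC, hcount⟩ := norm_count
  refine ⟨C, hC, fun a b c d hδ => ?_⟩
  have hδ' : 0 < |a * d - b * c| := abs_pos.mpr hδ
  -- the minimal vector
  obtain ⟨v, ⟨hv0, hvB⟩, hvmin⟩ := Set.exists_min_image
    {p : ℤ × ℤ | p ≠ (0, 0) ∧ FF a b c d ((p.1 : ℝ), (p.2 : ℝ)) ≤ FF a b c d (((1 : ℤ) : ℝ), ((0 : ℤ) : ℝ))}
    (fun p => FF a b c d ((p.1 : ℝ), (p.2 : ℝ)))
    ((FF_finite hδ _).subset fun p hp => hp.2) ⟨(1, 0), by simp, le_rfl⟩
  have hmin : ∀ p : ℤ × ℤ, p ≠ (0, 0) →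
      FF a b c d ((v.1 : ℝ), (v.2 : ℝ)) ≤ FF a b c d ((p.1 : ℝ), (p.2 : ℝ)) := by
    intro p hp
    by_cases h : FF a b c d ((p.1 : ℝ), (p.2 : ℝ)) ≤ FF a b c d (((1 : ℤ) : ℝ), ((0 : ℤ) : ℝ))
    · exact hvmin p ⟨hp, h⟩
    · exact hvB.trans (not_le.mp h).le
  obtain ⟨p, q⟩ := v
  simp only at hv0 hvB hvmin hmin
  set ℓ := FF a b c d ((p : ℝ), (q : ℝ)) with hℓ
  have hℓ0 : 0 < ℓ := FF_pos hδ hv0
  -- primitive
  have hgcd : Int.gcd p q = 1 := by
    obtain ⟨p', hp'⟩ := Int.gcd_dvd_left p q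
    obtain ⟨q', hq'⟩ := Int.gcd_dvd_right p q
    set g := Int.gcd p q with hg
    have hne : (p', q') ≠ ((0 : ℤ), (0 : ℤ)) := by
      intro h
      apply hv0
      rw [Prod.mk.injEq] at h ⊢
      rw [hp', hq', h.1, h.2]
      simp
    have h1 := hmin (p', q') hne
    have h2 : ℓ = (g : ℝ) * FF a b c d ((p' : ℝ), (q' : ℝ)) := by
      have := FF_smul a b c d (g : ℝ) ((p' : ℝ), (q' : ℝ))
      rw [abs_of_nonneg (by positivity : (0 : ℝ) ≤ g)] at this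
      rw [← this, hℓ]
      congr 1
      ext
      · simp only [Prod.smul_mk, smul_eq_mul]; exact_mod_cast hp'
      · simp only [Prod.smul_mk, smul_eq_mul]; exact_mod_cast hq'
    have h3 : 0 < FF a b c d ((p' : ℝ), (q' : ℝ)) := FF_pos hδ hne
    have h4 : (g : ℝ) ≤ 1 := by
      simp only at h1
      rw [h2] at h1
      by_contra h5
      push Not at h5
      nlinarith
    have h5 : g ≤ 1 := by exact_mod_cast h4
    have h6 : g ≠ 0 := by
      intro h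
      rw [h] at h2
      simp at h2
      linarith
    omega
  obtain ⟨s, t, hst⟩ : ∃ s t : ℤ, p * s - q * t = 1 := by
    refine ⟨Int.gcdA p q, -Int.gcdB p q, ?_⟩
    have := Int.gcd_eq_gcd_ab p q
    rw [hgcd] at this
    push_cast at this
    linarith
  -- the norm in the basis `(p, q), (t, s)`
  set a' := a * p + b * q with ha'
  set b' := a * t + b * s with hb'
  set c' := c * p + d * q with hc'
  set d' := c * t + d * s with hd'
  have hstR : (p : ℝ) * s - q * t = 1 := by exact_mod_cast hst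
  have hdet' : a' * d' - b' * c' = a * d - b * c := by
    have : a' * d' - b' * c' = (a * d - b * c) * ((p : ℝ) * s - q * t) := by
      rw [ha', hb', hc', hd']; ring
    rw [this, hstR, mul_one]
  have hFF : ∀ x y : ℝ, FF a' b' c' d' (x, y) = FF a b c d (p * x + t * y, q * x + s * y) := by
    intro x y
    unfold FF
    simp only [ha', hb', hc', hd']
    congr 2 <;> ring
  have hFF0 : FF a' b' c' d' (1, 0) = ℓ := by
    rw [hFF, hℓ]
    simp
  have hequiv : ∀ m n : ℤ, (m, n) ≠ (0, 0) → (p * m + t * n, q * m + s * n) ≠ ((0 : ℤ), (0 : ℤ)) := by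
    intro m n hmn h
    apply hmn
    rw [Prod.mk.injEq] at h ⊢
    constructor
    · have : (p * s - q * t) * m = s * (p * m + t * n) - t * (q * m + s * n) := by ring
      rw [hst, h.1, h.2] at this
      simpa using this
    · have : (p * s - q * t) * n = p * (q * m + s * n) - q * (p * m + t * n) := by ring
      rw [hst, h.1, h.2] at this
      simpa using this
  have hcast : ∀ m n : ℤ, FF a' b' c' d' ((m : ℝ), (n : ℝ)) =
      FF a b c d (((p * m + t * n : ℤ) : ℝ), ((q * m + s * n : ℤ) : ℝ)) := by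
    intro m n
    rw [hFF]
    push_cast
    rfl
  have hmain := hcount (FF a' b' c' d') (FF_nonneg _ _ _ _) (FF_smul _ _ _ _) (FF_add _ _ _ _)
    (by rw [hFF0]; exact hℓ0) (by
      intro m n hmn
      rw [hFF0, hcast]
      exact hmin _ (hequiv m n hmn))
  rw [hFF0, FF_volume (by rw [hdet']; exact hδ), hdet'] at hmain
  -- transport
  have hset : ∀ r : ℝ, {z : ℤ × ℤ | z ≠ (0, 0) ∧ FF a b c d ((z.1 : ℝ), (z.2 : ℝ)) ≤ r} =
      (fun z : ℤ × ℤ => (p * z.1 + t * z.2, q * z.1 + s * z.2)) ''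
        {z : ℤ × ℤ | z ≠ (0, 0) ∧ FF a' b' c' d' ((z.1 : ℝ), (z.2 : ℝ)) ≤ r} := by
    intro r
    ext z
    constructor
    · rintro ⟨hz0, hz⟩
      have e1 : p * (s * z.1 - t * z.2) + t * (p * z.2 - q * z.1) = z.1 := by
        linear_combination z.1 * hst
      have e2 : q * (s * z.1 - t * z.2) + s * (p * z.2 - q * z.1) = z.2 := by
        linear_combination z.2 * hst
      refine ⟨(s * z.1 - t * z.2, p * z.2 - q * z.1), ⟨?_, ?_⟩, ?_⟩
      · intro h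
        rw [Prod.mk.injEq] at h
        rw [h.1, h.2] at e1 e2
        apply hz0
        ext
        · rw [← e1]; simp
        · rw [← e2]; simp
      · simp only
        rw [hcast, e1, e2]
        exact hz
      · simp only
        rw [e1, e2]
    · rintro ⟨⟨m, n⟩, ⟨hz0, hz⟩, rfl⟩
      simp only at hz ⊢
      refine ⟨hequiv m n hz0, ?_⟩
      rw [hcast] at hz
      exact hz
  have hinj : Function.Injective (fun z : ℤ × ℤ => (p * z.1 + t * z.2, q * z.1 + s * z.2)) := by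
    rintro ⟨m, n⟩ ⟨m', n'⟩ h
    simp only [Prod.mk.injEq] at h ⊢
    have h1 : ¬ ((m - m', n - n') ≠ ((0 : ℤ), (0 : ℤ))) := by
      intro h2
      apply hequiv _ _ h2
      rw [Prod.mk.injEq]
      constructor
      · linarith [h.1]
      · linarith [h.2]
    rw [not_not, Prod.mk.injEq] at h1
    constructor <;> linarith [h1.1, h1.2]
  have hfin : ∀ r : ℝ, 0 ≤ r →
        {p : ℤ × ℤ | p ≠ (0, 0) ∧ FF a b c d ((p.1 : ℝ), (p.2 : ℝ)) ≤ r}.Finite ∧
        |(({p : ℤ × ℤ | p ≠ (0, 0) ∧ FF a b c d ((p.1 : ℝ), (p.2 : ℝ)) ≤ r}.ncard : ℕ) : ℝ) -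
          (4 * r ^ 2 / |a * d - b * c|)| ≤ C * r / ℓ := by
    intro r hr
    obtain ⟨h1, h2⟩ := hmain r hr
    rw [hset r]
    refine ⟨h1.image _, ?_⟩
    rw [Set.ncard_image_of_injective _ hinj]
    have : 4 * r ^ 2 / |a * d - b * c| = 4 / |a * d - b * c| * r ^ 2 := by ring
    rw [this]
    exact h2
  refine ⟨ℓ, hℓ0, ?_, ⟨(p, q), hv0, rfl⟩, hfin⟩
  obtain ⟨-, h2⟩ := hfin (ℓ / 2) (by positivity)
  have h3 : {p : ℤ × ℤ | p ≠ (0, 0) ∧ FF a b c d ((p.1 : ℝ), (p.2 : ℝ)) ≤ ℓ / 2} = ∅ := by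
    ext z
    simp only [Set.mem_ofPred_eq, Set.mem_empty_iff_false, iff_false, not_and, not_le]
    intro hz
    have := hmin z hz
    linarith
  rw [h3, Set.ncard_empty, Nat.cast_zero, zero_sub, abs_neg, abs_of_nonneg (by positivity)] at h2
  have h4 : 4 * (ℓ / 2) ^ 2 / |a * d - b * c| = ℓ ^ 2 / |a * d - b * c| := by ring
  have h5 : C * (ℓ / 2) / ℓ = C / 2 := by field_simp
  rw [h4, h5, div_le_iff₀ hδ'] at h2
  nlinarith

theorem disc_embed (K : Type) [Field K] [NumberField K] (h2 : Module.finrank ℚ K = 2)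
    (φ₁ φ₂ : K →+* ℝ) (h : φ₁ ≠ φ₂) (B : Module.Basis (Fin 2) ℤ (𝓞 K)) :
    (φ₁ (B 0 : K) * φ₂ (B 1 : K) - φ₁ (B 1 : K) * φ₂ (B 0 : K)) ^ 2 =
      (NumberField.discr K : ℝ) := by
  classical
  set f : Fin 2 → (K →ₐ[ℚ] ℂ) := ![RingHom.toRatAlgHom (Complex.ofRealHom.comp φ₁),
    RingHom.toRatAlgHom (Complex.ofRealHom.comp φ₂)] with hf
  have hf0 : ∀ x : K, f 0 x = ((φ₁ x : ℝ) : ℂ) := fun x => rfl
  have hf1 : ∀ x : K, f 1 x = ((φ₂ x : ℝ) : ℂ) := fun x => rfl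
  have hne : f 0 ≠ f 1 := by
    intro h'
    apply h
    ext x
    have := DFunLike.congr_fun h' x
    rw [hf0, hf1] at this
    exact Complex.ofReal_injective this
  have hinj : Function.Injective f := by
    intro i j hij
    fin_cases i <;> fin_cases j
    · rfl
    · exact absurd hij hne
    · exact absurd hij.symm hne
    · rfl
  have hbij : Function.Bijective f := by
    rw [Fintype.bijective_iff_injective_and_card]
    exact ⟨hinj, by rw [Fintype.card_fin, AlgHom.card, h2]⟩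
  set e : Fin 2 ≃ (K →ₐ[ℚ] ℂ) := Equiv.ofBijective f hbij with he
  have h3 := Algebra.discr_eq_det_embeddingsMatrixReindex_pow_two ℚ ℂ
    (fun i => ((B i : 𝓞 K) : K)) e
  have h4 : Algebra.discr ℚ (fun i => ((B i : 𝓞 K) : K)) = (NumberField.discr K : ℚ) := by
    have h5 := Algebra.discr_localizationLocalization ℤ (Rₘ := ℚ) ℤ⁰ K B
    have h6 : ⇑(Module.Basis.localizationLocalization ℚ ℤ⁰ K B) = fun i => ((B i : 𝓞 K) : K) := by
      funext i
      rw [Module.Basis.localizationLocalization_apply]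
    rw [h6, NumberField.discr_eq_discr] at h5
    rw [h5]
    rfl
  rw [h4] at h3
  have h7 : (Algebra.embeddingsMatrixReindex ℚ ℂ (fun i => ((B i : 𝓞 K) : K)) e).det =
      ((φ₁ (B 0 : K) * φ₂ (B 1 : K) - φ₁ (B 1 : K) * φ₂ (B 0 : K) : ℝ) : ℂ) := by
    rw [Matrix.det_fin_two]
    simp only [Algebra.embeddingsMatrixReindex, Matrix.reindex_apply, Matrix.submatrix_apply,
      Algebra.embeddingsMatrix_apply, Equiv.symm_symm, Equiv.refl_symm, Equiv.refl_apply, he,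
      Equiv.ofBijective_apply, hf0, hf1]
    push_cast
    ring
  rw [h7] at h3
  have h8 : ((NumberField.discr K : ℝ) : ℂ) =
      (((φ₁ (B 0 : K) * φ₂ (B 1 : K) - φ₁ (B 1 : K) * φ₂ (B 0 : K)) ^ 2 : ℝ) : ℂ) := by
    rw [Complex.ofReal_pow, ← h3]
    simp
  exact (Complex.ofReal_injective h8).symm

theorem ideal_embed (K : Type) [Field K] [NumberField K] (h2 : Module.finrank ℚ K = 2)
    (φ₁ φ₂ : K →+* ℝ) (h : φ₁ ≠ φ₂) (J : Ideal (𝓞 K)) (hJ : J ≠ ⊥) :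
    ∃ e₀ e₁ : 𝓞 K, e₀ ∈ J ∧ e₁ ∈ J ∧ (∀ x ∈ J, ∃ m n : ℤ, x = m * e₀ + n * e₁) ∧
      |φ₁ (e₀ : K) * φ₂ (e₁ : K) - φ₁ (e₁ : K) * φ₂ (e₀ : K)| =
        (Ideal.absNorm J : ℝ) * Real.sqrt |(NumberField.discr K : ℝ)| := by
  classical
  have hr : Module.finrank ℤ (𝓞 K) = 2 := by rw [NumberField.RingOfIntegers.rank, h2]
  let B : Module.Basis (Fin 2) ℤ (𝓞 K) := Module.finBasisOfFinrankEq ℤ (𝓞 K) hr
  let b := Ideal.selfBasis B J hJ
  have hd := disc_embed K h2 φ₁ φ₂ h B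
  have hdet := Ideal.natAbs_det_basis_change B J b
  have hB : ∀ x : 𝓞 K, ∀ φ : K →+* ℝ, φ (x : K) =
      (B.repr x 0 : ℝ) * φ (B 0 : K) + (B.repr x 1 : ℝ) * φ (B 1 : K) := by
    intro x φ
    have h1 : x = (B.repr x 0 : 𝓞 K) * B 0 + (B.repr x 1 : 𝓞 K) * B 1 := by
      have := B.sum_repr x
      rw [Fin.sum_univ_two] at this
      rw [← zsmul_eq_mul, ← zsmul_eq_mul]
      exact this.symm
    set ψ : 𝓞 K →+* ℝ := φ.comp (algebraMap (𝓞 K) K) with hψ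
    change ψ x = (B.repr x 0 : ℝ) * ψ (B 0) + (B.repr x 1 : ℝ) * ψ (B 1)
    conv_lhs => rw [h1]
    rw [map_add, map_mul, map_mul, map_intCast, map_intCast]
  refine ⟨b 0, b 1, (b 0).2, (b 1).2, ?_, ?_⟩
  · intro x hx
    refine ⟨b.repr ⟨x, hx⟩ 0, b.repr ⟨x, hx⟩ 1, ?_⟩
    have := b.sum_repr ⟨x, hx⟩
    rw [Fin.sum_univ_two] at this
    have h1 := congrArg (Subtype.val) this
    rw [← zsmul_eq_mul, ← zsmul_eq_mul]
    exact h1.symm
  · have h1 : φ₁ ((b 0 : 𝓞 K) : K) * φ₂ ((b 1 : 𝓞 K) : K) - φ₁ ((b 1 : 𝓞 K) : K) * φ₂ ((b 0 : 𝓞 K) : K) =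
        ((B.det (Subtype.val ∘ ⇑b) : ℤ) : ℝ) *
          (φ₁ (B 0 : K) * φ₂ (B 1 : K) - φ₁ (B 1 : K) * φ₂ (B 0 : K)) := by
      rw [hB (b 0), hB (b 1), hB (b 1) φ₁, hB (b 0) φ₂, Module.Basis.det_apply, Matrix.det_fin_two]
      simp only [Module.Basis.toMatrix_apply, Function.comp]
      push_cast
      ring
    rw [h1, abs_mul]
    congr 1
    · rw [← hdet, Nat.cast_natAbs, Int.cast_abs]
    · rw [← hd, abs_of_nonneg (sq_nonneg (φ₁ (B 0 : K) * φ₂ (B 1 : K) - φ₁ (B 1 : K) * φ₂ (B 0 : K))),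
        Real.sqrt_sq_eq_abs]

theorem ideal_box_count : ∃ C : ℝ, 0 < C ∧
    ∀ (K : Type) [Field K] [NumberField K], Module.finrank ℚ K = 2 →
    ∀ φ₁ φ₂ : K →+* ℝ, φ₁ ≠ φ₂ → ∀ J : Ideal (𝓞 K), J ≠ ⊥ → ∀ u : ℝ,
      ∃ ℓ : ℝ, 0 < ℓ ∧ ℓ ^ 2 ≤ C * Real.sqrt |(NumberField.discr K : ℝ)| ∧
        (∃ α : 𝓞 K, α ∈ J ∧ α ≠ 0 ∧
          bn φ₁ φ₂ u (α : K) ^ 2 = ℓ ^ 2 * (Ideal.absNorm J : ℝ)) ∧
        ∀ x : ℝ, 0 ≤ x →
          {α : 𝓞 K | α ∈ J ∧ α ≠ 0 ∧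
            bn φ₁ φ₂ u (α : K) ^ 2 ≤ x * (Ideal.absNorm J : ℝ)}.Finite ∧
          |(({α : 𝓞 K | α ∈ J ∧ α ≠ 0 ∧
              bn φ₁ φ₂ u (α : K) ^ 2 ≤ x * (Ideal.absNorm J : ℝ)}.ncard : ℕ) : ℝ) -
            4 * x / (Real.sqrt |(NumberField.discr K : ℝ)|)| ≤ C * Real.sqrt x / ℓ := by
  obtain ⟨C, hC, hcount⟩ := FF_count
  refine ⟨C, hC, fun K _ _ h2 φ₁ φ₂ hφ J hJ u => ?_⟩
  obtain ⟨e₀, e₁, he₀, he₁, hspan, hdet⟩ := ideal_embed K h2 φ₁ φ₂ hφ J hJ
  set N : ℝ := (Ideal.absNorm J : ℝ) with hN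
  set D : ℝ := Real.sqrt |(NumberField.discr K : ℝ)| with hD
  have hN0 : 0 < N := by
    have h1 : Ideal.absNorm J ≠ 0 := fun h => hJ (Ideal.absNorm_eq_zero_iff.mp h)
    rw [hN]
    exact_mod_cast Nat.pos_of_ne_zero h1
  have hD0 : 0 < D := by
    rw [hD, Real.sqrt_pos, abs_pos]
    exact_mod_cast NumberField.discr_ne_zero K
  set a := Real.exp (-u) * φ₁ (e₀ : K) with ha
  set b := Real.exp (-u) * φ₁ (e₁ : K) with hb
  set c := Real.exp u * φ₂ (e₀ : K) with hc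
  set d := Real.exp u * φ₂ (e₁ : K) with hd
  have hexp : Real.exp (-u) * Real.exp u = 1 := by rw [← Real.exp_add]; simp
  have hδ : a * d - b * c =
      φ₁ (e₀ : K) * φ₂ (e₁ : K) - φ₁ (e₁ : K) * φ₂ (e₀ : K) := by
    have : a * d - b * c = (Real.exp (-u) * Real.exp u) *
        (φ₁ (e₀ : K) * φ₂ (e₁ : K) - φ₁ (e₁ : K) * φ₂ (e₀ : K)) := by
      rw [ha, hb, hc, hd]; ring
    rw [this, hexp, one_mul]
  rw [← hδ] at hdet
  have hδ0 : a * d - b * c ≠ 0 := by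
    rw [← abs_pos, hdet]
    positivity
  obtain ⟨ℓ, hℓ, hℓ2, ⟨p, hp0, hp⟩, hcnt⟩ := hcount a b c d hδ0
  let α : ℤ × ℤ → 𝓞 K := fun p => (p.1 : 𝓞 K) * e₀ + (p.2 : 𝓞 K) * e₁
  have hψ : ∀ (φ : K →+* ℝ) (p : ℤ × ℤ), φ ((α p : 𝓞 K) : K) = p.1 * φ (e₀ : K) + p.2 * φ (e₁ : K) := by
    intro φ p
    set ψ : 𝓞 K →+* ℝ := φ.comp (algebraMap (𝓞 K) K) with hψ
    change ψ (α p) = p.1 * ψ e₀ + p.2 * ψ e₁
    simp only [α]
    rw [map_add, map_mul, map_mul, map_intCast, map_intCast]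
  have hbn : ∀ p : ℤ × ℤ, bn φ₁ φ₂ u (α p : K) = FF a b c d ((p.1 : ℝ), (p.2 : ℝ)) := by
    intro p
    unfold bn FF
    rw [hψ, hψ]
    congr 1
    · rw [← abs_of_pos (Real.exp_pos (-u)), ← abs_mul]
      congr 1
      simp only [ha, hb]
      ring
    · rw [← abs_of_pos (Real.exp_pos u), ← abs_mul]
      congr 1
      simp only [hc, hd]
      ring
  have hα0 : ∀ p : ℤ × ℤ, α p = 0 → p = (0, 0) := by
    intro p hp
    by_contra h
    have h1 := FF_pos hδ0 h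
    rw [← hbn, hp] at h1
    simp [bn] at h1
  have hinj : Function.Injective α := by
    intro p q hpq
    have h1 : α (p - q) = 0 := by
      have : α (p - q) = α p - α q := by
        simp only [α, Prod.fst_sub, Prod.snd_sub]
        push_cast
        ring
      rw [this, hpq, sub_self]
    exact sub_eq_zero.mp (hα0 _ h1)
  have hmem : ∀ p, α p ∈ J := fun p =>
    J.add_mem (J.mul_mem_left _ he₀) (J.mul_mem_left _ he₁)
  have hbn0 : ∀ p, 0 ≤ bn φ₁ φ₂ u (α p : K) := fun p => by rw [hbn]; exact FF_nonneg _ _ _ _ _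
  have hset : ∀ x : ℝ, 0 ≤ x → {z : 𝓞 K | z ∈ J ∧ z ≠ 0 ∧ bn φ₁ φ₂ u (z : K) ^ 2 ≤ x * N} =
      α '' {p : ℤ × ℤ | p ≠ (0, 0) ∧ FF a b c d ((p.1 : ℝ), (p.2 : ℝ)) ≤ Real.sqrt (x * N)} := by
    intro x hx
    ext z
    constructor
    · rintro ⟨hz, hz0, hzb⟩
      obtain ⟨m, n, hmn⟩ := hspan z hz
      have hz' : z = α (m, n) := hmn
      refine ⟨(m, n), ⟨?_, ?_⟩, hz'.symm⟩
      · intro h
        rw [Prod.mk.injEq] at h
        apply hz0
        rw [hmn, h.1, h.2]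
        simp
      · have h1 := hbn (m, n)
        rw [← h1, ← hz']
        exact Real.le_sqrt_of_sq_le hzb
    · rintro ⟨p, ⟨hp0, hp⟩, rfl⟩
      refine ⟨hmem p, fun h => hp0 (hα0 p h), ?_⟩
      rw [← hbn] at hp
      calc bn φ₁ φ₂ u (α p : K) ^ 2 ≤ Real.sqrt (x * N) ^ 2 :=
            pow_le_pow_left₀ (hbn0 p) hp 2
        _ = x * N := Real.sq_sqrt (by positivity)
  have hsN : 0 < Real.sqrt N := Real.sqrt_pos.mpr hN0
  have hsN2 : Real.sqrt N ^ 2 = N := Real.sq_sqrt hN0.le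
  refine ⟨ℓ / Real.sqrt N, by positivity, ?_, ⟨α p, hmem p, fun h => hp0 (hα0 p h), ?_⟩, ?_⟩
  · rw [div_pow, hsN2, div_le_iff₀ hN0]
    rw [hdet] at hℓ2
    linarith
  · rw [hbn, hp, div_pow, hsN2]
    field_simp
  · intro x hx
    obtain ⟨h3, h4⟩ := hcnt (Real.sqrt (x * N)) (Real.sqrt_nonneg _)
    rw [hset x hx]
    refine ⟨h3.image _, ?_⟩
    rw [Set.ncard_image_of_injective _ hinj]
    have e1 : 4 * Real.sqrt (x * N) ^ 2 / |a * d - b * c| = 4 * x / D := by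
      rw [Real.sq_sqrt (by positivity), hdet]
      field_simp
    have e2 : C * Real.sqrt (x * N) / ℓ = C * Real.sqrt x / (ℓ / Real.sqrt N) := by
      rw [Real.sqrt_mul hx]
      field_simp
    rw [e1, e2] at h4
    exact h4

end Pool.Hhelper85.RQ
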