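import Pool.Agent.Hhelper85.RQ.Defs

/-!
# Counting points of `ℤ²` in the balls of a norm on `ℝ²`

PAPER PROOF. Write `f₁ = F (1, 0)`. (1) For all real `x, y`: `F (x, y) ≥ |y| f₁ / 2`. Enough for
`y = 1` (homogeneity, `y ≠ 0`): let `m = round x`; `f₁ ≤ F (m, 1) ≤ F (x, 1) + |m - x| f₁ ≤
F (x, 1) + f₁ / 2`. Also `F (x, y) ≥ |x| f₁ - |y| F (0, 1)`, `F` is Lipschitz, hence continuous.
So `{F ≤ r}` is compact. (2) For real `y` let `s(y)` be the length (Lebesgue measure) of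
`{x | F (x, y) ≤ r}`: it is a compact interval (convexity), empty for `|y| > 2 r / f₁`; its length is
at most `2 r / f₁`: hence for the symmetric function `s(-y) = s(y)` and, by convexity
(`{F ≤ r}` convex: the sections satisfy `s((1-t) a + t b) ≥ (1-t) s(a) + t s(b)` when both are
nonempty), `s` is antitone on `[0, ∞)`: for `0 ≤ y ≤ y'`, `y = (1-t) (-y') + t y'` and
`s(-y') = s(y')`. (If the section at `y'` is nonempty so is the one at `-y'`.) Direct argument for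
antitone: the interval `[a, b]` at `y'` and `[-b, -a]` at `-y'`; convex combinations give at
`y` the interval from `(2t-1)`-combinations: `(1-t)(-b) + t a` to `(1-t)(-a) + t b` of length
`b - a`. (3) Row `n`: the number of integers `m` with `F (m, n) ≤ r` differs from `s(n)` by at most `1`
(integers in a compact interval of length `L`, possibly empty: between `L - 1` and `L + 1`; for
an empty section both are `0`). (4) Number of rows with `1 ≤ n` and nonempty section `≤ 2 r / f₁`,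
and for `r < f₁` there are no non-zero points at all. So the number of points `p ≠ 0` is
`∑_{|n| ≤ 2r/f₁} s(n) + O(r / f₁)` for `r ≥ f₁` (row `0` minus the origin: error `≤ 2`, `≤ 2 r/f₁`).
(5) `∑_{n ≥ 1} s(n)` and `∫_0^∞ s` differ by at most `s(0) ≤ 2 r / f₁` (antitone), so the sum over all
`n` differs from `∫_ℝ s` by `O(r / f₁)`; `∫_ℝ s = vol {F ≤ r} = r² vol {F ≤ 1}` (Fubini
`Measure.prod_apply`/`volume_eq_prod`, and scaling `Measure.addHaar_smul`). For `r < f₁` the count is `0` and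
`vol {F ≤ r} ≤ (2 r/f₁) * (4 r / f₁) ≤ 8 r / f₁`.
-/

set_option linter.unusedSectionVars false

open MeasureTheory
open scoped Pointwise

namespace Pool.Hhelper85.RQ

namespace NC

open Set

section Basic

variable {F : ℝ × ℝ → ℝ} (h0 : ∀ p, 0 ≤ F p) (h1 : ∀ (t : ℝ) (p : ℝ × ℝ), F (t • p) = |t| * F p)
  (h2 : ∀ p q, F (p + q) ≤ F p + F q)

include h1 in
lemma F_horiz (x : ℝ) : F (x, 0) = |x| * F (1, 0) := by
  have := h1 x (1, 0)
  simpa using this

include h1 in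
lemma F_vert (y : ℝ) : F (0, y) = |y| * F (0, 1) := by
  have := h1 y (0, 1)
  simpa using this

include h1 in
lemma F_zero : F (0, 0) = 0 := by
  have := F_horiz h1 0
  simpa using this

include h1 in
lemma F_neg (p : ℝ × ℝ) : F (-p) = F p := by
  simpa using h1 (-1) p

include h1 in
lemma F_neg' (x y : ℝ) : F (-x, -y) = F (x, y) := F_neg h1 (x, y)

include h1 h2 in
lemma F_le (x y : ℝ) : F (x, y) ≤ |x| * F (1, 0) + |y| * F (0, 1) := by
  rw [← F_horiz h1, ← F_vert h1]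
  have := h2 (x, 0) (0, y)
  simpa using this

include h1 h2 in
lemma F_lip (p q : ℝ × ℝ) : |F p - F q| ≤ F (p - q) := by
  rw [abs_le]
  constructor
  · have := h2 p (q - p)
    rw [add_sub_cancel] at this
    have h3 : F (q - p) = F (p - q) := by rw [← F_neg h1, neg_sub]
    linarith
  · have := h2 q (p - q)
    rw [add_sub_cancel] at this
    linarith

include h1 h2 in
lemma F_cont : Continuous F := by
  rw [continuous_iff_continuousAt]
  intro q
  rw [ContinuousAt, tendsto_iff_dist_tendsto_zero]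
  have hb : ∀ p : ℝ × ℝ, dist (F p) (F q) ≤ |p.1 - q.1| * F (1, 0) + |p.2 - q.2| * F (0, 1) := by
    intro p
    rw [Real.dist_eq]
    exact (F_lip h1 h2 p q).trans (F_le h1 h2 (p.1 - q.1) (p.2 - q.2))
  refine squeeze_zero (fun p => dist_nonneg) hb ?_
  have hc : Continuous fun p : ℝ × ℝ => |p.1 - q.1| * F (1, 0) + |p.2 - q.2| * F (0, 1) := by
    fun_prop
  have := hc.tendsto q
  simpa using this

/-- horizontal section -/
def S (F : ℝ × ℝ → ℝ) (r y : ℝ) : Set ℝ := {x | F (x, y) ≤ r}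

include h1 h2 in
lemma S_closed (r y : ℝ) : IsClosed (S F r y) := by
  have hc : Continuous fun x : ℝ => F (x, y) := (F_cont h1 h2).comp (by fun_prop)
  exact isClosed_le hc continuous_const

include h1 h2 in
lemma S_convex (r y : ℝ) : Convex ℝ (S F r y) := by
  intro x hx x' hx' a b ha hb hab
  have hx : F (x, y) ≤ r := hx
  have hx' : F (x', y) ≤ r := hx'
  change F (a • x + b • x', y) ≤ r
  have e : ((a • x + b • x', y) : ℝ × ℝ) = a • (x, y) + b • (x', y) := by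
    ext
    · simp
    · simp only [Prod.snd_add, Prod.smul_snd, smul_eq_mul]
      rw [← add_mul, hab, one_mul]
  rw [e]
  refine (h2 _ _).trans ?_
  rw [h1, h1, abs_of_nonneg ha, abs_of_nonneg hb]
  calc a * F (x, y) + b * F (x', y) ≤ a * r + b * r := by gcongr
    _ = r := by rw [← add_mul, hab, one_mul]

variable (hf : 0 < F (1, 0))

include h1 h2 hf in
lemma S_bdd (r y : ℝ) : S F r y ⊆ Icc (-((r + |y| * F (0, 1)) / F (1, 0)))
    ((r + |y| * F (0, 1)) / F (1, 0)) := by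
  intro x hx
  have hx : F (x, y) ≤ r := hx
  rw [mem_Icc, ← abs_le, le_div_iff₀ hf, ← F_horiz h1]
  have := h2 (x, y) (0, -y)
  simp only [Prod.mk_add_mk, add_zero, add_neg_cancel] at this
  rw [F_vert h1 (-y), abs_neg] at this
  linarith

include h0 h1 h2 hf in
lemma S_compact (r y : ℝ) : IsCompact (S F r y) :=
  isCompact_Icc.of_isClosed_subset (S_closed h1 h2 r y) (S_bdd h1 h2 hf r y)

include h0 h1 h2 hf in
lemma S_eq (r y : ℝ) (hne : (S F r y).Nonempty) : ∃ a b, a ≤ b ∧ S F r y = Icc a b := by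
  have he := eq_Icc_of_connected_compact ⟨hne, (S_convex h1 h2 r y).isPreconnected⟩
    (S_compact h0 h1 h2 hf r y)
  refine ⟨_, _, ?_, he⟩
  rw [he] at hne
  exact nonempty_Icc.1 hne

/-- length of the section -/
noncomputable def s (F : ℝ × ℝ → ℝ) (r y : ℝ) : ℝ := (volume (S F r y)).toReal

lemma s_nonneg (r y : ℝ) : 0 ≤ s F r y := ENNReal.toReal_nonneg

include h0 h1 h2 hf in
lemma s_le (r y : ℝ) (hr : 0 ≤ r) : s F r y ≤ 2 * r / F (1, 0) := by
  rcases (S F r y).eq_empty_or_nonempty with he | hne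
  · unfold s; rw [he]; simp; positivity
  · obtain ⟨a, b, hab, he⟩ := S_eq h0 h1 h2 hf r y hne
    unfold s
    rw [he, Real.volume_Icc, ENNReal.toReal_ofReal (by linarith), le_div_iff₀ hf]
    have ha : F (a, y) ≤ r := by
      have : a ∈ S F r y := by rw [he]; exact ⟨le_rfl, hab⟩
      exact this
    have hb : F (b, y) ≤ r := by
      have : b ∈ S F r y := by rw [he]; exact ⟨hab, le_rfl⟩
      exact this
    have h3 := h2 (b, y) (-a, -y)
    rw [F_neg' h1] at h3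
    simp only [Prod.mk_add_mk, add_neg_cancel] at h3
    rw [F_horiz h1, abs_of_nonneg (by linarith)] at h3
    have : (b + -a) = b - a := by ring
    rw [this] at h3
    linarith

include h1 in
lemma S_neg (r y : ℝ) : S F r (-y) = (fun x => -x) ⁻¹' (S F r y) := by
  ext x
  change F (x, -y) ≤ r ↔ F (-x, y) ≤ r
  have := F_neg' h1 (-x) y
  rw [neg_neg] at this
  rw [this]

include h1 in
lemma s_neg (r y : ℝ) : s F r (-y) = s F r y := by
  unfold s
  rw [S_neg h1]
  congr 1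
  exact Measure.measure_preimage_neg volume (S F r y)

include h1 in
lemma s_abs (r y : ℝ) : s F r |y| = s F r y := by
  rcases abs_choice y with h | h <;> rw [h]
  exact s_neg h1 r y

include h0 h1 h2 hf in
lemma s_anti (r : ℝ) : AntitoneOn (s F r) (Ici 0) := by
  intro y hy y' hy' hyy
  rw [mem_Ici] at hy hy'
  rcases (S F r y').eq_empty_or_nonempty with he | hne
  · have : s F r y' = 0 := by unfold s; rw [he]; simp
    rw [this]; exact s_nonneg r y
  · obtain ⟨a, b, hab, he⟩ := S_eq h0 h1 h2 hf r y' hne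
    have ha : F (a, y') ≤ r := by
      have : a ∈ S F r y' := by rw [he]; exact ⟨le_rfl, hab⟩
      exact this
    have hb : F (b, y') ≤ r := by
      have : b ∈ S F r y' := by rw [he]; exact ⟨hab, le_rfl⟩
      exact this
    obtain ⟨t, ht0, ht1, hty⟩ : ∃ t : ℝ, 0 ≤ t ∧ t ≤ 1 ∧ t * y' - (1 - t) * y' = y := by
      rcases hy'.eq_or_lt with h | h
      · refine ⟨1, by norm_num, le_rfl, ?_⟩
        rw [← h] at hyy ⊢
        linarith
      · refine ⟨(1 + y / y') / 2, by positivity, ?_, ?_⟩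
        · have : y / y' ≤ 1 := by rw [div_le_one h]; exact hyy
          linarith
        · field_simp
          ring
    have h3 : F (t * a - (1 - t) * b, y) ≤ r := by
      have e : ((t * a - (1 - t) * b, y) : ℝ × ℝ) = t • (a, y') + (1 - t) • (-b, -y') := by
        ext
        · simp; ring
        · simp only [Prod.snd_add, Prod.smul_snd, smul_eq_mul]
          rw [← hty]; ring
      rw [e]
      refine (h2 _ _).trans ?_
      rw [h1, h1, F_neg' h1, abs_of_nonneg ht0, abs_of_nonneg (by linarith)]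
      nlinarith
    have h4 : F (t * b - (1 - t) * a, y) ≤ r := by
      have e : ((t * b - (1 - t) * a, y) : ℝ × ℝ) = t • (b, y') + (1 - t) • (-a, -y') := by
        ext
        · simp; ring
        · simp only [Prod.snd_add, Prod.smul_snd, smul_eq_mul]
          rw [← hty]; ring
      rw [e]
      refine (h2 _ _).trans ?_
      rw [h1, h1, F_neg' h1, abs_of_nonneg ht0, abs_of_nonneg (by linarith)]
      nlinarith
    have hsub : Icc (t * a - (1 - t) * b) (t * b - (1 - t) * a) ⊆ S F r y :=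
      (S_convex h1 h2 r y).ordConnected.out h3 h4
    unfold s
    rw [he]
    refine ENNReal.toReal_mono (S_compact h0 h1 h2 hf r y).measure_lt_top.ne ?_
    calc volume (Icc a b) = volume (Icc (t * a - (1 - t) * b) (t * b - (1 - t) * a)) := by
          rw [Real.volume_Icc, Real.volume_Icc]; congr 1; ring
      _ ≤ volume (S F r y) := measure_mono hsub

include h0 h1 h2 hf in
/-- integers in a section -/
lemma N_s (r y : ℝ) : {m : ℤ | F (m, y) ≤ r}.Finite ∧
    |(({m : ℤ | F (m, y) ≤ r}.ncard : ℕ) : ℝ) - s F r y| ≤ 1 := by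
  rcases (S F r y).eq_empty_or_nonempty with he | hne
  · have h3 : {m : ℤ | F (m, y) ≤ r} = ∅ := by
      ext m
      simp only [mem_ofPred_eq, mem_empty_iff_false, iff_false]
      intro hm
      have : (m : ℝ) ∈ S F r y := hm
      rw [he] at this
      exact this
    unfold s
    rw [h3, he]
    simp
  · obtain ⟨a, b, hab, he⟩ := S_eq h0 h1 h2 hf r y hne
    have h3 : {m : ℤ | F (m, y) ≤ r} = ((Finset.Icc ⌈a⌉ ⌊b⌋ : Finset ℤ) : Set ℤ) := by
      ext m
      simp only [mem_ofPred_eq, Finset.coe_Icc, mem_Icc, Int.ceil_le, Int.le_floor]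
      have : F (m, y) ≤ r ↔ (m : ℝ) ∈ S F r y := Iff.rfl
      rw [this, he, mem_Icc]
    rw [h3, Set.ncard_coe_finset, Int.card_Icc]
    refine ⟨Finset.finite_toSet _, ?_⟩
    have hc1 := Int.ceil_lt_add_one a
    have hc2 := Int.le_ceil a
    have hf1 := Int.lt_floor_add_one b
    have hf2 := Int.floor_le b
    have hnn : 0 ≤ ⌊b⌋ + 1 - ⌈a⌉ := by
      have : ((⌈a⌉ : ℤ) : ℝ) < (⌊b⌋ : ℝ) + 1 + 1 := by linarith
      have : ⌈a⌉ < ⌊b⌋ + 1 + 1 := by exact_mod_cast this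
      omega
    have h5 : (((⌊b⌋ + 1 - ⌈a⌉).toNat : ℕ) : ℝ) = (⌊b⌋ : ℝ) + 1 - (⌈a⌉ : ℝ) := by
      have : (((⌊b⌋ + 1 - ⌈a⌉).toNat : ℕ) : ℤ) = ⌊b⌋ + 1 - ⌈a⌉ := Int.toNat_of_nonneg hnn
      have := congrArg (fun z : ℤ => (z : ℝ)) this
      push_cast at this
      exact_mod_cast this
    unfold s
    rw [he, Real.volume_Icc, ENNReal.toReal_ofReal (by linarith), h5, abs_le]
    constructor <;> linarith

variable (hint : ∀ m n : ℤ, (m, n) ≠ (0, 0) → F (1, 0) ≤ F ((m : ℝ), (n : ℝ)))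

include h1 h2 hf hint in
lemma F_low_one (x : ℝ) : F (1, 0) / 2 ≤ F (x, 1) := by
  have h3 := hint (round x) 1 (by simp)
  have h4 := h2 (x, 1) ((round x : ℝ) - x, 0)
  simp only [Prod.mk_add_mk, add_sub_cancel, add_zero] at h4
  rw [F_horiz h1 ((round x : ℝ) - x)] at h4
  have h5 : |(round x : ℝ) - x| ≤ 1 / 2 := by
    rw [abs_sub_comm]; exact abs_sub_round x
  have h6 : |(round x : ℝ) - x| * F (1, 0) ≤ 1 / 2 * F (1, 0) := by gcongr
  simp only [Int.cast_one] at h3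
  linarith

include h0 h1 h2 hf hint in
lemma F_low (x y : ℝ) : |y| * F (1, 0) / 2 ≤ F (x, y) := by
  rcases eq_or_ne y 0 with rfl | hy
  · simp [h0]
  · have e : ((x, y) : ℝ × ℝ) = y • (x / y, 1) := by
      ext
      · simp; field_simp
      · simp
    rw [e, h1]
    have := F_low_one h1 h2 hf hint (x / y)
    have h3 : 0 ≤ |y| := abs_nonneg y
    nlinarith

include h0 h1 h2 hf hint in
lemma S_empty {r y : ℝ} (h : 2 * r / F (1, 0) < |y|) : S F r y = ∅ := by
  ext x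
  simp only [mem_empty_iff_false, iff_false]
  intro hx
  have hx : F (x, y) ≤ r := hx
  have := F_low h0 h1 h2 hf hint x y
  rw [div_lt_iff₀ hf] at h
  linarith

include h0 h1 h2 hf hint in
lemma s_zero {r y : ℝ} (h : 2 * r / F (1, 0) < |y|) : s F r y = 0 := by
  unfold s; rw [S_empty h0 h1 h2 hf hint h]; simp


include h1 h2 in
lemma vol_int (r : ℝ) (hfin : ∀ y, volume (S F r y) < ⊤) :
    (volume {p : ℝ × ℝ | F p ≤ r}).toReal = ∫ y, s F r y := by
  have hmeas : MeasurableSet {p : ℝ × ℝ | F p ≤ r} :=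
    (isClosed_le (F_cont h1 h2) continuous_const).measurableSet
  have hv : volume {p : ℝ × ℝ | F p ≤ r} = ∫⁻ y, volume (S F r y) := by
    rw [Measure.volume_eq_prod, Measure.prod_apply_symm hmeas]
    rfl
  have hm : Measurable fun y => volume (S F r y) := by
    have := measurable_measure_prodMk_right (μ := (volume : Measure ℝ)) hmeas
    exact this
  unfold s
  rw [integral_toReal hm.aemeasurable (Filter.Eventually.of_forall hfin), hv]

include h1 in
lemma vol_scale {r : ℝ} (hr : 0 < r) :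
    (volume {p : ℝ × ℝ | F p ≤ r}).toReal = (volume {p : ℝ × ℝ | F p ≤ 1}).toReal * r ^ 2 := by
  have hs : {p : ℝ × ℝ | F p ≤ r} = r • {p : ℝ × ℝ | F p ≤ 1} := by
    ext p
    rw [Set.mem_smul_set_iff_inv_smul_mem₀ hr.ne']
    simp only [mem_ofPred_eq]
    rw [h1, abs_of_pos (inv_pos.2 hr), inv_mul_le_iff₀ hr, mul_one]
  rw [hs, Measure.addHaar_smul]
  have : Module.finrank ℝ (ℝ × ℝ) = 2 := by simp
  rw [this, ENNReal.toReal_mul, ENNReal.toReal_ofReal (abs_nonneg _), abs_of_nonneg (by positivity)]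
  ring

include h0 h1 h2 hf hint in
lemma int_small {r : ℝ} (hr : 0 ≤ r) :
    ∫ y, s F r y ≤ (2 * r / F (1, 0)) * (2 * (2 * r / F (1, 0))) := by
  set ρ := 2 * r / F (1, 0) with hρ
  have hρ0 : 0 ≤ ρ := by positivity
  have h3 : ∫ y in Icc (-ρ) ρ, s F r y = ∫ y, s F r y := by
    apply setIntegral_eq_integral_of_forall_compl_eq_zero
    intro y hy
    apply s_zero h0 h1 h2 hf hint
    rw [mem_Icc, ← abs_le, not_le] at hy
    exact hy
  rw [← h3]
  have h4 : ‖∫ y in Icc (-ρ) ρ, s F r y‖ ≤ ρ * (volume : Measure ℝ).real (Icc (-ρ) ρ) := by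
    apply norm_setIntegral_le_of_norm_le_const
    · simp
    · intro y _
      rw [Real.norm_of_nonneg (s_nonneg r y)]
      exact s_le h0 h1 h2 hf r y hr
  have h5 : (volume : Measure ℝ).real (Icc (-ρ) ρ) = 2 * ρ := by
    rw [Measure.real, Real.volume_Icc, ENNReal.toReal_ofReal (by linarith)]
    ring
  rw [h5] at h4
  exact (le_abs_self _).trans h4

include h0 h1 h2 hf hint in
lemma int_sum {r : ℝ} (hr : 0 ≤ r) :
    |∑ n ∈ Finset.Icc (-(⌊2 * r / F (1, 0)⌋₊ : ℤ)) (⌊2 * r / F (1, 0)⌋₊ : ℤ), s F r n -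
      ∫ y, s F r y| ≤ s F r 0 := by
  set ρ := 2 * r / F (1, 0) with hρ
  set M := ⌊ρ⌋₊ with hM
  have hρ0 : 0 ≤ ρ := by positivity
  have hMρ : ρ < (M : ℝ) + 1 := Nat.lt_floor_add_one ρ
  have hanti := s_anti h0 h1 h2 hf r
  have heven : Function.Even (fun n : ℤ => s F r n) := by
    intro n
    simp only [Int.cast_neg]
    exact s_neg h1 r n
  have e1 : ∫ y, s F r y = 2 * ∫ y in Ioi (0 : ℝ), s F r y := by
    rw [← integral_comp_abs]
    congr 1
    funext y
    exact (s_abs h1 r y).symm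
  have e2 : ∫ y in Ioi (0 : ℝ), s F r y = ∫ y in (0 : ℝ)..(0 + ((M + 1 : ℕ) : ℝ)), s F r y := by
    rw [intervalIntegral.integral_of_le (by positivity)]
    apply setIntegral_eq_of_subset_of_forall_sdiff_eq_zero measurableSet_Ioi
    · intro y hy; exact hy.1
    · intro y hy
      apply s_zero h0 h1 h2 hf hint
      have hy1 : 0 < y := hy.1
      have hy2 : ¬ (y ∈ Ioc (0 : ℝ) (0 + ((M + 1 : ℕ) : ℝ))) := hy.2
      rw [mem_Ioc, not_and, not_le] at hy2
      have := hy2 hy1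
      push_cast at this
      rw [abs_of_pos hy1]
      linarith
  have hanti' : AntitoneOn (s F r) (Icc (0 : ℝ) (0 + ((M + 1 : ℕ) : ℝ))) :=
    hanti.mono (fun y hy => hy.1)
  have b1 := hanti'.integral_le_sum
  have b2 := hanti'.sum_le_integral
  have e3 : ∑ n ∈ Finset.Icc (-(M : ℤ)) (M : ℤ), s F r n
      = 2 * ∑ m ∈ Finset.range (M + 1), s F r m - s F r 0 := by
    have := Finset.sum_Icc_of_even_eq_range heven M
    simpa using this
  have e4 : ∑ i ∈ Finset.range (M + 1), s F r (0 + (i : ℝ)) = ∑ m ∈ Finset.range (M + 1), s F r m := by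
    simp
  have e5 : ∑ i ∈ Finset.range (M + 1), s F r (0 + ((i + 1 : ℕ) : ℝ))
      = ∑ m ∈ Finset.range (M + 1), s F r m - s F r 0 + s F r ((M + 1 : ℕ) : ℝ) := by
    have h6 := Finset.sum_range_succ' (fun i : ℕ => s F r (i : ℝ)) (M + 1)
    have h7 := Finset.sum_range_succ (fun i : ℕ => s F r (i : ℝ)) (M + 1)
    simp only [zero_add] at h6 h7 ⊢
    simp only [Nat.cast_zero] at h6
    linarith
  rw [e4, ← e2] at b1
  rw [e5, ← e2] at b2
  rw [e3, e1, abs_le]
  have := s_nonneg (F := F) r ((M + 1 : ℕ) : ℝ)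
  constructor <;> linarith

include h0 h1 h2 hf hint in
lemma count_rows {r : ℝ} (hr : 0 ≤ r) :
    {p : ℤ × ℤ | F ((p.1 : ℝ), (p.2 : ℝ)) ≤ r}.Finite ∧
    {p : ℤ × ℤ | F ((p.1 : ℝ), (p.2 : ℝ)) ≤ r}.ncard =
      ∑ n ∈ Finset.Icc (-(⌊2 * r / F (1, 0)⌋₊ : ℤ)) (⌊2 * r / F (1, 0)⌋₊ : ℤ),
        {m : ℤ | F ((m : ℝ), (n : ℝ)) ≤ r}.ncard := by
  set ρ := 2 * r / F (1, 0) with hρ
  set M := ⌊ρ⌋₊ with hM
  have hρ0 : 0 ≤ ρ := by positivity
  have hrow : ∀ n : ℤ, ∀ m : ℤ, F ((m : ℝ), (n : ℝ)) ≤ r → n ∈ Finset.Icc (-(M : ℤ)) (M : ℤ) := by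
    intro n m hmn
    have h3 := F_low h0 h1 h2 hf hint (m : ℝ) (n : ℝ)
    have h4 : |(n : ℝ)| ≤ ρ := by
      rw [hρ, le_div_iff₀ hf]; linarith
    have h5 : (n.natAbs : ℝ) ≤ ρ := by
      rw [Nat.cast_natAbs, Int.cast_abs]; exact h4
    have h6 : n.natAbs ≤ M := Nat.le_floor h5
    rw [Finset.mem_Icc]
    omega
  have hN : ∀ n : ℤ, {m : ℤ | F ((m : ℝ), (n : ℝ)) ≤ r}.Finite :=
    fun n => (N_s h0 h1 h2 hf r n).1
  have hfin : {p : ℤ × ℤ | F ((p.1 : ℝ), (p.2 : ℝ)) ≤ r}.Finite := by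
    have hbig : (⋃ n ∈ (Finset.Icc (-(M : ℤ)) (M : ℤ) : Finset ℤ),
        (fun m : ℤ => (m, n)) '' {m : ℤ | F ((m : ℝ), (n : ℝ)) ≤ r}).Finite :=
      Set.Finite.biUnion (Finset.finite_toSet _) (fun n _ => (hN n).image _)
    refine hbig.subset ?_
    rintro ⟨m, n⟩ hmn
    simp only [mem_ofPred_eq] at hmn
    rw [Set.mem_iUnion₂]
    exact ⟨n, hrow n m hmn, m, hmn, rfl⟩
  refine ⟨hfin, ?_⟩
  rw [Set.ncard_eq_toFinset_card _ hfin]
  rw [Finset.card_eq_sum_card_fiberwise (f := Prod.snd) (t := Finset.Icc (-(M : ℤ)) (M : ℤ))]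
  · refine Finset.sum_congr rfl (fun n _ => ?_)
    rw [Set.ncard_eq_toFinset_card _ (hN n)]
    have : (hfin.toFinset.filter fun p => Prod.snd p = n)
        = (hN n).toFinset.image (fun m => (m, n)) := by
      ext ⟨m, k⟩
      simp only [Finset.mem_filter, Set.Finite.mem_toFinset, mem_ofPred_eq, Finset.mem_image,
        Prod.mk.injEq]
      constructor
      · rintro ⟨h3, rfl⟩; exact ⟨m, h3, rfl, rfl⟩
      · rintro ⟨m', h3, rfl, rfl⟩; exact ⟨h3, rfl⟩
    rw [this, Finset.card_image_of_injective]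
    intro a b hab
    simpa using hab
  · rintro ⟨m, n⟩ hmn
    have hmn : (m, n) ∈ hfin.toFinset := hmn
    rw [Set.Finite.mem_toFinset] at hmn
    exact hrow n m hmn

end Basic

end NC

theorem norm_count : ∃ C : ℝ, 0 < C ∧
    ∀ F : ℝ × ℝ → ℝ, (∀ p, 0 ≤ F p) → (∀ (t : ℝ) (p : ℝ × ℝ), F (t • p) = |t| * F p) →
      (∀ p q, F (p + q) ≤ F p + F q) → 0 < F (1, 0) →
      (∀ m n : ℤ, (m, n) ≠ (0, 0) → F (1, 0) ≤ F ((m : ℝ), (n : ℝ))) →
      ∀ r : ℝ, 0 ≤ r →
        {p : ℤ × ℤ | p ≠ (0, 0) ∧ F ((p.1 : ℝ), (p.2 : ℝ)) ≤ r}.Finite ∧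
        |(({p : ℤ × ℤ | p ≠ (0, 0) ∧ F ((p.1 : ℝ), (p.2 : ℝ)) ≤ r}.ncard : ℕ) : ℝ) -
          (volume {p : ℝ × ℝ | F p ≤ 1}).toReal * r ^ 2| ≤ C * r / F (1, 0) := by
  refine ⟨8, by norm_num, ?_⟩
  intro F h0 h1 h2 hf hint r hr
  obtain ⟨hfin, hcard⟩ := NC.count_rows h0 h1 h2 hf hint hr
  have hset : {p : ℤ × ℤ | p ≠ (0, 0) ∧ F ((p.1 : ℝ), (p.2 : ℝ)) ≤ r}
      = {p : ℤ × ℤ | F ((p.1 : ℝ), (p.2 : ℝ)) ≤ r} \ {(0, 0)} := by
    ext p
    simp only [Set.mem_ofPred_eq, Set.mem_sdiff, Set.mem_singleton_iff]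
    exact and_comm
  refine ⟨by rw [hset]; exact hfin.sdiff, ?_⟩
  rcases hr.eq_or_lt with h | hrpos
  · -- r = 0
    subst h
    have : {p : ℤ × ℤ | p ≠ (0, 0) ∧ F ((p.1 : ℝ), (p.2 : ℝ)) ≤ 0} = ∅ := by
      ext p
      simp only [Set.mem_ofPred_eq, Set.mem_empty_iff_false, iff_false, not_and, not_le]
      intro hp
      exact hf.trans_le (hint p.1 p.2 hp)
    rw [this]
    simp
  have hvol : (volume {p : ℝ × ℝ | F p ≤ 1}).toReal * r ^ 2 = ∫ y, NC.s F r y := by
    rw [← NC.vol_scale h1 hrpos]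
    exact NC.vol_int h1 h2 r (fun y => (NC.S_compact h0 h1 h2 hf r y).measure_lt_top)
  rw [hvol]
  have hint0 : 0 ≤ ∫ y, NC.s F r y := integral_nonneg (fun y => NC.s_nonneg r y)
  set ρ := 2 * r / F (1, 0) with hρ
  have hρ0 : 0 ≤ ρ := by positivity
  have hCρ : 8 * r / F (1, 0) = 4 * ρ := by rw [hρ]; ring
  rw [hCρ]
  rcases lt_or_ge r (F (1, 0)) with hlt | hge
  · have : {p : ℤ × ℤ | p ≠ (0, 0) ∧ F ((p.1 : ℝ), (p.2 : ℝ)) ≤ r} = ∅ := by
      ext p
      simp only [Set.mem_ofPred_eq, Set.mem_empty_iff_false, iff_false, not_and, not_le]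
      intro hp
      exact hlt.trans_le (hint p.1 p.2 hp)
    rw [this]
    simp only [Set.ncard_empty, Nat.cast_zero, zero_sub, abs_neg, abs_of_nonneg hint0]
    have h3 := NC.int_small h0 h1 h2 hf hint hr
    rw [← hρ] at h3
    have h4 : ρ ≤ 2 := by rw [hρ, div_le_iff₀ hf]; linarith
    nlinarith
  · have hρ2 : 2 ≤ ρ := by rw [hρ, le_div_iff₀ hf]; linarith
    have h00 : ((0, 0) : ℤ × ℤ) ∈ {p : ℤ × ℤ | F ((p.1 : ℝ), (p.2 : ℝ)) ≤ r} := by
      simp only [Set.mem_ofPred_eq, Int.cast_zero]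
      rw [NC.F_zero h1]
      exact hr
    have h1' := Set.ncard_sdiff_singleton_add_one h00 hfin
    rw [← hset] at h1'
    have hsum := NC.int_sum h0 h1 h2 hf hint hr
    rw [← hρ] at hsum
    set M := ⌊ρ⌋₊ with hM
    have hMρ : (M : ℝ) ≤ ρ := Nat.floor_le hρ0
    have hs0 := NC.s_le h0 h1 h2 hf r 0 hr
    rw [← hρ] at hs0
    have hdiff : |((({p : ℤ × ℤ | F ((p.1 : ℝ), (p.2 : ℝ)) ≤ r}.ncard : ℕ) : ℝ)) -
        ∑ n ∈ Finset.Icc (-(M : ℤ)) (M : ℤ), NC.s F r n| ≤ 2 * M + 1 := by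
      rw [hcard]
      push_cast
      rw [← Finset.sum_sub_distrib]
      refine (Finset.abs_sum_le_sum_abs _ _).trans ?_
      calc ∑ n ∈ Finset.Icc (-(M : ℤ)) (M : ℤ),
            |(({m : ℤ | F ((m : ℝ), (n : ℝ)) ≤ r}.ncard : ℕ) : ℝ) - NC.s F r n|
          ≤ ∑ n ∈ Finset.Icc (-(M : ℤ)) (M : ℤ), (1 : ℝ) :=
            Finset.sum_le_sum (fun n _ => (NC.N_s h0 h1 h2 hf r n).2)
        _ = 2 * M + 1 := by
            rw [Finset.sum_const, Int.card_Icc, nsmul_eq_mul, mul_one]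
            have : ((M : ℤ) + 1 - (-(M : ℤ))).toNat = 2 * M + 1 := by omega
            rw [this]; push_cast; ring
    have hcast : ((({p : ℤ × ℤ | p ≠ (0, 0) ∧ F ((p.1 : ℝ), (p.2 : ℝ)) ≤ r}.ncard : ℕ) : ℝ)) + 1
        = (({p : ℤ × ℤ | F ((p.1 : ℝ), (p.2 : ℝ)) ≤ r}.ncard : ℕ) : ℝ) := by
      exact_mod_cast h1'
    rw [abs_le] at hdiff hsum ⊢
    constructor <;> linarith [hdiff.1, hdiff.2, hsum.1, hsum.2]

end Pool.Hhelper85.RQ
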