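import Pool.Agent.Hhelper85.RQ.Defs

/-!
# Hecke's unfolding for the classes of a real quadratic field

PAPER PROOF. For `α ≠ 0`, with `v(α) = (1/2) log (|φ₁ α| / |φ₂ α|)`:
`bn u α ^ 2 = |φ₁ α| |φ₂ α| exp (2 |v(α) - u|)` (the two entries of the max are
`√(|φ₁ α φ₂ α|) exp (± (v(α) - u))`). For the unit `η`: `|φ₁ η| = e^R`, `|φ₂ η| = e^(-R)` (the
norm of a unit is `±1`), so `bn u (η^k α) = bn (u - k R) α`; and `bn u (-α) = bn u α`.
For every ideal `I` in the class `A`, `J * I` is principal (`ClassGroup.mk0_eq_one_iff`), pick a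
generator `α_I`; `α_I ∈ J`, and `|φ₁ α_I φ₂ α_I| = |norm α_I| = absNorm J * absNorm I`. Conversely a
nonzero `α ∈ J` has `span {α} = J * I` with `I` in the class `A` unique. So
`{α ∈ J, α ≠ 0} ≃ (I, sign, k ∈ ℤ)` by `α = ± η^k α_I` (the units are `± η^k`, distinct for
distinct `(sign, k)` since `|φ₁ η| > 1`). Hence the left side is
`∑_I ∑_{sign} ∑_k ∫⁻_{(0,R]} φ (bn (u - kR) α_I ^ 2 / N J) du = 2 ∑_I ∫⁻_ℝ φ (bn u α_I ^ 2 / N J) du`
(`lintegral_tsum`, countable index; the intervals `(-kR, -kR + R]` tile `ℝ`, e.g.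
`iUnion_Ioc_zsmul`-type lemma + `lintegral_iUnion`, translation invariance
`lintegral_sub_right_eq_self`), and by the formula for `bn` the last integral is
`∫⁻_ℝ φ (N I * exp (2 |v(α_I) - u|)) du = ∫⁻_ℝ φ (N I * exp (2 |v|)) dv` (translation and reflection).
-/

open scoped NumberField nonZeroDivisors ENNReal
open MeasureTheory

namespace Pool.Hhelper85.RQ

section basic

variable {K : Type} [Field K] (φ₁ φ₂ : K →+* ℝ)

/-- half the logarithm of the quotient of the absolute values -/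
noncomputable def vv (x : K) : ℝ := (Real.log |φ₁ x| - Real.log |φ₂ x|) / 2

lemma bn_sq {x : K} (hx : x ≠ 0) (u : ℝ) :
    bn φ₁ φ₂ u x ^ 2 = |φ₁ x| * |φ₂ x| * Real.exp (2 * |vv φ₁ φ₂ x - u|) := by
  have h1 : 0 < |φ₁ x| := abs_pos.mpr (by simpa using hx)
  have h2 : 0 < |φ₂ x| := abs_pos.mpr (by simpa using hx)
  set a := Real.log |φ₁ x| with ha
  set b := Real.log |φ₂ x| with hb
  have e1 : |φ₁ x| = Real.exp a := (Real.exp_log h1).symm
  have e2 : |φ₂ x| = Real.exp b := (Real.exp_log h2).symm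
  have e3 : bn φ₁ φ₂ u x = Real.exp (max (a - u) (b + u)) := by
    unfold bn
    rw [e1, e2, ← Real.exp_add, ← Real.exp_add, Real.exp_monotone.map_max]
    ring_nf
  have e4 : 2 * max (a - u) (b + u) = a + b + 2 * |vv φ₁ φ₂ x - u| := by
    have : vv φ₁ φ₂ x - u = ((a - u) - (b + u)) / 2 := by
      simp only [vv, ← ha, ← hb]; ring
    rw [this, abs_div, abs_two]
    rcases le_total (a - u) (b + u) with h | h
    · rw [max_eq_right h, abs_of_nonpos (by linarith)]; ring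
    · rw [max_eq_left h, abs_of_nonneg (by linarith)]; ring
  rw [e3, e1, e2, ← Real.exp_nat_mul, ← Real.exp_add, ← Real.exp_add]
  congr 1

lemma bn_neg (u : ℝ) (x : K) : bn φ₁ φ₂ u (-x) = bn φ₁ φ₂ u x := by
  simp [bn, map_neg, abs_neg]

lemma exp_zpow' (R : ℝ) (k : ℤ) : Real.exp R ^ k = Real.exp (k * R) := by
  rw [← Real.rpow_intCast, ← Real.exp_mul, mul_comm]

lemma bn_mul_pow {e : K} {R : ℝ} (h1 : |φ₁ e| = Real.exp R) (h2 : |φ₂ e| = Real.exp (-R))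
    (k : ℤ) (u : ℝ) (x : K) :
    bn φ₁ φ₂ u (e ^ k * x) = bn φ₁ φ₂ (u - k * R) x := by
  unfold bn
  rw [map_mul, map_mul, abs_mul, abs_mul, map_zpow₀, map_zpow₀, abs_zpow, abs_zpow, h1, h2,
    exp_zpow', exp_zpow', ← mul_assoc, ← mul_assoc, ← Real.exp_add, ← Real.exp_add]
  have e1 : -u + k * R = -(u - k * R) := by ring
  have e2 : u + k * -R = u - k * R := by ring
  rw [e1, e2]

end basic

lemma coe_zpow' {K : Type} [Field K] [NumberField K] (η : (𝓞 K)ˣ) (k : ℤ) :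
    (((η ^ k : (𝓞 K)ˣ) : 𝓞 K) : K) = ((η : 𝓞 K) : K) ^ k := NumberField.Units.coe_zpow η k

lemma coe_neg' {K : Type} [Field K] [NumberField K] (x : 𝓞 K) :
    ((-x : 𝓞 K) : K) = -(x : K) := map_neg (algebraMap (𝓞 K) K) x

lemma coe_mul' {K : Type} [Field K] [NumberField K] (x y : 𝓞 K) :
    ((x * y : 𝓞 K) : K) = (x : K) * (y : K) := map_mul (algebraMap (𝓞 K) K) x y

/-- tiling of the line -/
lemma tile {R : ℝ} (hR : 0 < R) (h : ℝ → ℝ≥0∞) :
    ∑' k : ℤ, ∫⁻ u in Set.Ioc 0 R, h (u - k * R) = ∫⁻ u, h u := by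
  have h1 : ∫⁻ u, h u = ∑' n : ℤ, ∫⁻ u in Set.Ioc (n • R) ((n + 1) • R), h u := by
    rw [← lintegral_iUnion (fun n => measurableSet_Ioc) (Set.pairwise_disjoint_Ioc_zsmul R),
      iUnion_Ioc_zsmul hR, setLIntegral_univ]
  rw [h1, ← (Equiv.neg ℤ).tsum_eq]
  refine tsum_congr fun n => ?_
  have h2 : ∫⁻ u in Set.Ioc (n • R) ((n + 1) • R), h u =
      ∫⁻ u, (Set.Ioc (n • R) ((n + 1) • R)).indicator h u := by
    rw [lintegral_indicator measurableSet_Ioc]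
  have h3 : ∫⁻ u in Set.Ioc 0 R, h (u - ((Equiv.neg ℤ) n : ℤ) * R) =
      ∫⁻ u, (Set.Ioc 0 R).indicator (fun u => h (u - ((Equiv.neg ℤ) n : ℤ) * R)) u := by
    rw [lintegral_indicator measurableSet_Ioc]
  rw [h2, h3, ← lintegral_add_right_eq_self
    (fun u => (Set.Ioc (n • R) ((n + 1) • R)).indicator h u) ((n : ℝ) * R)]
  refine lintegral_congr fun u => ?_
  simp only [Set.indicator, Set.mem_Ioc, zsmul_eq_mul, Equiv.neg_apply, Int.cast_neg, Int.cast_add,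
    Int.cast_one]
  have e : u - -(n : ℝ) * R = u + n * R := by ring
  rw [e]
  congr 1
  apply propext
  constructor
  · rintro ⟨h1, h2⟩; constructor <;> nlinarith
  · rintro ⟨h1, h2⟩; constructor <;> nlinarith

theorem unfold (K : Type) [Field K] [NumberField K] (φ₁ φ₂ : K →+* ℝ) (η : (𝓞 K)ˣ) (R : ℝ)
    (hnorm : ∀ x : K, |((Algebra.norm ℚ x : ℚ) : ℝ)| = |φ₁ x| * |φ₂ x|)
    (hη : 1 < |φ₁ ((η : 𝓞 K) : K)|) (hR : Real.log |φ₁ ((η : 𝓞 K) : K)| = R)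
    (hunits : ∀ v : (𝓞 K)ˣ, ∃ k : ℤ, v = η ^ k ∨ v = -η ^ k)
    (A : ClassGroup (𝓞 K)) (J : (Ideal (𝓞 K))⁰) (hJ : ClassGroup.mk0 J = A⁻¹)
    (φ : ℝ → ℝ≥0∞) (hφ : Measurable φ) :
    ∫⁻ u in Set.Ioc 0 R, ∑' α : {α : 𝓞 K // α ∈ (J : Ideal (𝓞 K)) ∧ α ≠ 0},
        φ (bn φ₁ φ₂ u ((α : 𝓞 K) : K) ^ 2 / (Ideal.absNorm (J : Ideal (𝓞 K)) : ℝ)) =
      2 * ∑' I : {I : (Ideal (𝓞 K))⁰ // ClassGroup.mk0 I = A},
        ∫⁻ v : ℝ, φ ((Ideal.absNorm ((I : (Ideal (𝓞 K))⁰) : Ideal (𝓞 K)) : ℝ) *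
          Real.exp (2 * |v|)) := by
  classical
  have hJ0 : (J : Ideal (𝓞 K)) ≠ 0 := nonZeroDivisors.coe_ne_zero J
  have hR0 : 0 < R := by rw [← hR]; exact Real.log_pos hη
  have hη1 : |φ₁ ((η : 𝓞 K) : K)| = Real.exp R := by
    rw [← hR, Real.exp_log (by linarith)]
  have hη2 : |φ₂ ((η : 𝓞 K) : K)| = Real.exp (-R) := by
    have h1 := hnorm ((η : 𝓞 K) : K)
    have h2 : |((Algebra.norm ℚ ((η : 𝓞 K) : K) : ℚ) : ℝ)| = 1 := by
      have h3 : |(Algebra.norm ℚ ((η : 𝓞 K) : K))| = 1 := by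
        simp
      rw [← Rat.cast_abs, h3]; simp
    rw [h2, hη1] at h1
    rw [Real.exp_neg]
    exact eq_inv_of_mul_eq_one_right h1.symm
  -- generators
  have hgen : ∀ I : {I : (Ideal (𝓞 K))⁰ // ClassGroup.mk0 I = A}, ∃ g : 𝓞 K, g ≠ 0 ∧
      (J : Ideal (𝓞 K)) * ((I : (Ideal (𝓞 K))⁰) : Ideal (𝓞 K)) = Ideal.span {g} := by
    intro I
    have h1 : ClassGroup.mk0 (I : (Ideal (𝓞 K))⁰) = (ClassGroup.mk0 J)⁻¹ := by
      rw [hJ, inv_inv, I.2]
    obtain ⟨x, hx0, hx⟩ := ClassGroup.mk0_eq_mk0_inv_iff.mp h1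
    exact ⟨x, hx0, by rw [← hx, mul_comm]⟩
  choose g hg0 hg using hgen
  have hgJ : ∀ I, g I ∈ (J : Ideal (𝓞 K)) := by
    intro I
    have : g I ∈ (J : Ideal (𝓞 K)) * ((I : (Ideal (𝓞 K))⁰) : Ideal (𝓞 K)) := by
      rw [hg I]; exact Ideal.mem_span_singleton_self _
    exact Ideal.mul_le_left this
  -- units
  let un : ℤ × Bool → (𝓞 K)ˣ := fun p => if p.2 then η ^ p.1 else -η ^ p.1
  have hun_abs : ∀ p : ℤ × Bool, |φ₁ ((un p : 𝓞 K) : K)| = Real.exp (p.1 * R) := by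
    intro p
    have h1 : |φ₁ (((η ^ p.1 : (𝓞 K)ˣ) : 𝓞 K) : K)| = Real.exp (p.1 * R) := by
      rw [coe_zpow', map_zpow₀, abs_zpow, hη1, exp_zpow']
    simp only [un]
    split_ifs
    · exact h1
    · rw [Units.val_neg, coe_neg', map_neg, abs_neg]
      exact h1
  have hun_inj : Function.Injective un := by
    intro p q h
    have h1 : Real.exp (p.1 * R) = Real.exp (q.1 * R) := by
      rw [← hun_abs, ← hun_abs, h]
    have h2 : p.1 = q.1 := by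
      have := mul_right_cancel₀ hR0.ne' (Real.exp_injective h1)
      exact_mod_cast this
    obtain ⟨k, s⟩ := p
    obtain ⟨l, t⟩ := q
    simp only at h2
    subst h2
    have hneg : η ^ k ≠ -η ^ k := by
      intro e
      have h3 : ((η ^ k : (𝓞 K)ˣ) : 𝓞 K) = -((η ^ k : (𝓞 K)ˣ) : 𝓞 K) := by
        conv_lhs => rw [e]
        rw [Units.val_neg]
      have h4 : ((η ^ k : (𝓞 K)ˣ) : 𝓞 K) = 0 := self_eq_neg.1 h3
      exact (η ^ k).ne_zero h4
    cases s <;> cases t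
    · rfl
    · exact absurd (by simpa [un] using h.symm) hneg
    · exact absurd (by simpa [un] using h) hneg
    · rfl
  let F : {I : (Ideal (𝓞 K))⁰ // ClassGroup.mk0 I = A} × (ℤ × Bool) →
      {α : 𝓞 K // α ∈ (J : Ideal (𝓞 K)) ∧ α ≠ 0} :=
    fun p => ⟨(un p.2 : 𝓞 K) * g p.1, Ideal.mul_mem_left _ _ (hgJ p.1),
      mul_ne_zero (un p.2).ne_zero (hg0 p.1)⟩
  have hF_inj : Function.Injective F := by
    rintro ⟨I, p⟩ ⟨I', p'⟩ h
    have h1 : (un p : 𝓞 K) * g I = (un p' : 𝓞 K) * g I' := congrArg Subtype.val h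
    have h2 : Ideal.span {g I} = Ideal.span {g I'} := by
      rw [Ideal.span_singleton_eq_span_singleton]
      refine ⟨un p * (un p')⁻¹, ?_⟩
      have : g I' = ((un p')⁻¹ : (𝓞 K)ˣ) * ((un p : 𝓞 K) * g I) := by
        rw [h1, Units.inv_mul_cancel_left]
      rw [this]
      push_cast
      ring
    have h3 : I = I' := by
      apply Subtype.ext
      apply Subtype.ext
      apply mul_left_cancel₀ hJ0
      rw [hg, hg, h2]
    subst h3
    have h4 : (un p : 𝓞 K) = un p' := mul_right_cancel₀ (hg0 I) h1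
    have h5 : p = p' := hun_inj (Units.ext h4)
    rw [h5]
  have hF_surj : Function.Surjective F := by
    rintro ⟨x, hx, hx0⟩
    obtain ⟨I, hI⟩ := Ideal.dvd_iff_le.mpr ((Ideal.span_singleton_le_iff_mem (J : Ideal (𝓞 K))).mpr hx)
    have hI0 : I ≠ 0 := by
      rintro rfl
      rw [mul_zero, Ideal.zero_eq_bot, Ideal.span_singleton_eq_bot] at hI
      exact hx0 hI
    have h1 : ClassGroup.mk0 (⟨I, mem_nonZeroDivisors_iff_ne_zero.mpr hI0⟩ : (Ideal (𝓞 K))⁰) = A := by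
      have : ClassGroup.mk0 (⟨I, mem_nonZeroDivisors_iff_ne_zero.mpr hI0⟩ : (Ideal (𝓞 K))⁰) =
        (ClassGroup.mk0 J)⁻¹ :=
        ClassGroup.mk0_eq_mk0_inv_iff.mpr ⟨x, hx0, by rw [mul_comm]; exact hI.symm⟩
      rw [this, hJ, inv_inv]
    have h2 := hg ⟨_, h1⟩
    rw [← hI, Ideal.span_singleton_eq_span_singleton] at h2
    obtain ⟨v, hv⟩ := h2.symm
    obtain ⟨k, hk | hk⟩ := hunits v
    · refine ⟨(⟨_, h1⟩, (k, true)), Subtype.ext ?_⟩
      simp only [F, un, if_true]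
      rw [← hk, mul_comm]
      exact hv
    · refine ⟨(⟨_, h1⟩, (k, false)), Subtype.ext ?_⟩
      simp only [F, un]
      rw [if_neg (by simp), ← hk, mul_comm]
      exact hv
  let e := Equiv.ofBijective F ⟨hF_inj, hF_surj⟩
  -- countability
  have hcount : Countable (𝓞 K) :=
    (NumberField.RingOfIntegers.basis K).equivFun.toEquiv.countable_iff.mpr inferInstance
  have hNJ : (0 : ℝ) < Ideal.absNorm (J : Ideal (𝓞 K)) := by
    have : Ideal.absNorm (J : Ideal (𝓞 K)) ≠ 0 := Ideal.absNorm_ne_zero_of_nonZeroDivisors J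
    exact_mod_cast Nat.pos_of_ne_zero this
  have hbnm : ∀ x : K, Measurable (fun u => bn φ₁ φ₂ u x) := by
    intro x
    unfold bn
    fun_prop
  have hm : ∀ x : K, Measurable (fun u => φ (bn φ₁ φ₂ u x ^ 2 /
      (Ideal.absNorm (J : Ideal (𝓞 K)) : ℝ))) := by
    intro x
    exact hφ.comp (((hbnm x).pow_const 2).div_const _)
  rw [lintegral_tsum (fun α => (hm _).aemeasurable)]
  rw [← e.tsum_eq, ENNReal.tsum_prod', ← ENNReal.tsum_mul_left]
  refine tsum_congr fun I => ?_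
  rw [ENNReal.tsum_prod']
  have hstep : ∀ (k : ℤ) (s : Bool) (u : ℝ),
      bn φ₁ φ₂ u (((e (I, (k, s)) : {α : 𝓞 K // α ∈ (J : Ideal (𝓞 K)) ∧ α ≠ 0}) : 𝓞 K) : K) =
        bn φ₁ φ₂ (u - k * R) ((g I : 𝓞 K) : K) := by
    intro k s u
    have h1 : ((e (I, (k, s)) : {α : 𝓞 K // α ∈ (J : Ideal (𝓞 K)) ∧ α ≠ 0}) : 𝓞 K) =
        (un (k, s) : 𝓞 K) * g I := rfl
    rw [h1, coe_mul']
    cases s with
    | true =>
      simp only [un, if_true]
      rw [coe_zpow']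
      exact bn_mul_pow φ₁ φ₂ hη1 hη2 k u _
    | false =>
      simp only [un]
      rw [if_neg (by simp), Units.val_neg, coe_neg', neg_mul, bn_neg, coe_zpow']
      exact bn_mul_pow φ₁ φ₂ hη1 hη2 k u _
  simp only [hstep, tsum_bool]
  simp only [← two_mul]
  rw [ENNReal.tsum_mul_left]
  congr 1
  rw [tile hR0 (fun u => φ (bn φ₁ φ₂ u ((g I : 𝓞 K) : K) ^ 2 /
      (Ideal.absNorm (J : Ideal (𝓞 K)) : ℝ)))]
  have hgI : ((g I : 𝓞 K) : K) ≠ 0 := by
    simpa using hg0 I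
  have hN : |φ₁ ((g I : 𝓞 K) : K)| * |φ₂ ((g I : 𝓞 K) : K)| =
      (Ideal.absNorm (J : Ideal (𝓞 K)) : ℝ) *
        (Ideal.absNorm ((I : (Ideal (𝓞 K))⁰) : Ideal (𝓞 K)) : ℝ) := by
    rw [← hnorm]
    have h1 : Ideal.absNorm (Ideal.span {g I}) = (Algebra.norm ℤ (g I)).natAbs :=
      Ideal.absNorm_span_singleton _
    rw [← hg I, map_mul] at h1
    have h2 : (Algebra.norm ℚ ((g I : 𝓞 K) : K) : ℚ) = ((Algebra.norm ℤ (g I) : ℤ) : ℚ) :=
      (Algebra.coe_norm_int (g I)).symm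
    rw [h2]
    have h3 : |(((Algebra.norm ℤ (g I) : ℤ) : ℚ) : ℝ)| = ((Algebra.norm ℤ (g I)).natAbs : ℝ) := by
      push_cast
      rw [Nat.cast_natAbs]
      simp
    rw [h3, ← h1]
    push_cast
    rfl
  have hfin : ∀ u : ℝ, bn φ₁ φ₂ u ((g I : 𝓞 K) : K) ^ 2 /
      (Ideal.absNorm (J : Ideal (𝓞 K)) : ℝ) =
      (Ideal.absNorm ((I : (Ideal (𝓞 K))⁰) : Ideal (𝓞 K)) : ℝ) *
        Real.exp (2 * |vv φ₁ φ₂ ((g I : 𝓞 K) : K) - u|) := by
    intro u
    rw [bn_sq φ₁ φ₂ hgI u, hN]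
    field_simp
  simp only [hfin]
  exact lintegral_sub_left_eq_self (fun v : ℝ =>
    φ ((Ideal.absNorm ((I : (Ideal (𝓞 K))⁰) : Ideal (𝓞 K)) : ℝ) * Real.exp (2 * |v|))) _

end Pool.Hhelper85.RQ
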