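import Pool.Agent.Hhelper85.RQ.Struct
import Pool.Agent.Hhelper85.RQ.IdealBox
import Pool.Agent.Hhelper85.RQ.Unfold
import Pool.Agent.Hhelper85.CZ.Basic
import Pool.Agent.Hhelper85.CZ.Count

/-!
# Logarithmic counting of the ideals of a class of a real quadratic field

PAPER PROOF. Take `φ₁, φ₂, η` from `real_quadratic_structure`, `R = regulator K > 0`; `C₀` from
`ideal_box_count`; `D = discr K`; for the class `A` choose `J` with `mk0 J = A⁻¹`. For `u ∈ ℝ` let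
`n_x(u)` be the number of nonzero `α ∈ J` with `bn u α ^ 2 ≤ x N J`, and
`g(u) = ∑_α ψ (bn u α ^ 2 / N J)`, `ψ(y) = y⁻¹` for `0 < y ≤ C₀ √D`, `0` otherwise (finite sum,
by the finiteness in `ideal_box_count`; measurable in `u` as a countable sum of measurable
functions). (1) `unfold` with `φ = indicator of {y ≤ x}`: `∫_0^R n_x = 2 ∑_{I ∈ A} |{v : N I e^(2|v|)
≤ x}| = 2 ∑_{I ∈ A, N I ≤ x} log (x / N I) = 2 ∑_{n ≤ x} rCl n log (x / n)` (sums over ideals by norm: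
`sum_rCl`/`sum_rCl_real` in `CZ/Count.lean`). (2) By `ideal_box_count`, `|n_x(u) - 4 x / √D| ≤ C₀ √x / ℓ(u)`,
and `1 / ℓ(u)^2 ≤ g(u)` since the minimal vector has `bn² / N J = ℓ² ≤ C₀ √D`. So
`|∑ rCl n log (x/n) - 2 R x / √D| ≤ √x * W`, `W := (C₀/2) ∫_0^R √(g(u)) du` (real or lintegral of
`g^(1/2)`). (3) Cauchy-Schwarz: `W² ≤ (C₀²/4) R ∫_0^R g`, and `unfold` with `φ = ψ`:
`∫_0^R g = 2 ∑_{I ∈ A} ∫ ψ (N I e^(2|v|)) dv ≤ 2 ∑_{I ∈ A, N I ≤ C₀ √D} (N I)⁻¹` as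
`∫ e^(-2|v|) dv = 1`. Sum over `A`: `∑_A ∫ g ≤ 2 ∑_{N I ≤ C₀ √D} (N I)⁻¹ ≤
2 (C₀ √D)^(2ε) ∑ (N I)^(-(1+2ε)) ≤ C D^ε` (`sum_nm_le (1 + 2ε)`, `finite_idl`).
(4) `g(u) ≥ 1/ℓ² ≥ 1 / (C₀ √D)` for all `u`, so `h R / (C₀ √D) ≤ ∑_A ∫_0^R g ≤ C D^ε`.
-/

open scoped NumberField nonZeroDivisors ENNReal
open Pool.Hhelper85.CZ MeasureTheory

namespace Pool.Hhelper85.RQ

theorem lint_log {x y : ℝ} (hx : 0 < x) (hy : 0 < y) :
    ∫⁻ v : ℝ, Set.indicator (Set.Iic x) (1 : ℝ → ℝ≥0∞) (y * Real.exp (2 * |v|)) =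
      ENNReal.ofReal (Real.log (x / y)) := by
  have h1 : ∀ v : ℝ, Set.indicator (Set.Iic x) (1 : ℝ → ℝ≥0∞) (y * Real.exp (2 * |v|)) =
      Set.indicator (Set.Icc (-(Real.log (x / y) / 2)) (Real.log (x / y) / 2)) (1 : ℝ → ℝ≥0∞) v := by
    intro v
    have : y * Real.exp (2 * |v|) ∈ Set.Iic x ↔
        v ∈ Set.Icc (-(Real.log (x / y) / 2)) (Real.log (x / y) / 2) := by
      rw [Set.mem_Iic, Set.mem_Icc, ← abs_le, ← le_div_iff₀' hy,
        ← Real.le_log_iff_exp_le (by positivity)]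
      constructor <;> intro h <;> linarith
    by_cases h : y * Real.exp (2 * |v|) ∈ Set.Iic x
    · rw [Set.indicator_of_mem h, Set.indicator_of_mem (this.mp h)]
      rfl
    · rw [Set.indicator_of_notMem h, Set.indicator_of_notMem (fun h' => h (this.mpr h'))]
  simp_rw [h1]
  rw [lintegral_indicator_one measurableSet_Icc, Real.volume_Icc]
  congr 1
  ring

theorem lint_exp : ∫⁻ v : ℝ, ENNReal.ofReal (Real.exp (-(2 * |v|))) ≤ ENNReal.ofReal Real.pi := by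
  have h1 : ∫⁻ v : ℝ, ENNReal.ofReal ((1 + v ^ 2)⁻¹) = ENNReal.ofReal Real.pi := by
    rw [← ofReal_integral_eq_lintegral_ofReal integrable_inv_one_add_sq
      (Filter.Eventually.of_forall fun v => by positivity), integral_univ_inv_one_add_sq]
  rw [← h1]
  refine lintegral_mono fun v => ENNReal.ofReal_le_ofReal ?_
  rw [Real.exp_neg]
  apply inv_anti₀ (by positivity)
  have := Real.quadratic_le_exp_of_nonneg (x := 2 * |v|) (by positivity)
  have h2 : v ^ 2 = |v| ^ 2 := (sq_abs v).symm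
  rw [h2]
  nlinarith [abs_nonneg v, sq_nonneg |v|]

open Classical in
theorem sum_rCl_f {K : Type} [Field K] [NumberField K] (A : ClassGroup (𝓞 K)) (x : ℝ) (f : ℕ → ℝ) :
    ∑ n ∈ Finset.Icc 1 ⌊x⌋₊, (rCl K A n : ℝ) * f n =
      ∑ I ∈ (idl K x).filter (fun I => ClassGroup.mk0 I = A), f (nm K I) := by
  have h := sum_rCl A x (fun n => (f n : ℂ))
  exact_mod_cast h

/-- the minorant cut-off -/
noncomputable def ψc (Y : ℝ) : ℝ → ℝ≥0∞ :=
  Set.indicator (Set.Ioc 0 Y) fun y => ENNReal.ofReal y⁻¹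

theorem ψc_meas (Y : ℝ) : Measurable (ψc Y) :=
  Measurable.indicator (by fun_prop) measurableSet_Ioc

theorem lint_ψc (Y : ℝ) {y : ℝ} (hy : 0 < y) :
    ∫⁻ v : ℝ, ψc Y (y * Real.exp (2 * |v|)) ≤
      ENNReal.ofReal Real.pi * (if y ≤ Y then ENNReal.ofReal y⁻¹ else 0) := by
  by_cases h : y ≤ Y
  · rw [if_pos h]
    calc ∫⁻ v : ℝ, ψc Y (y * Real.exp (2 * |v|)) ≤
        ∫⁻ v : ℝ, ENNReal.ofReal y⁻¹ * ENNReal.ofReal (Real.exp (-(2 * |v|))) := by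
          refine lintegral_mono fun v => ?_
          refine (Set.indicator_le_self' (fun _ _ => zero_le) _).trans ?_
          rw [mul_inv, ← Real.exp_neg, ENNReal.ofReal_mul (by positivity)]
      _ = ENNReal.ofReal y⁻¹ * ∫⁻ v : ℝ, ENNReal.ofReal (Real.exp (-(2 * |v|))) :=
          lintegral_const_mul' _ _ ENNReal.ofReal_ne_top
      _ ≤ ENNReal.ofReal y⁻¹ * ENNReal.ofReal Real.pi := by gcongr; exact lint_exp
      _ = _ := mul_comm _ _
  · rw [if_neg h, mul_zero, nonpos_iff_eq_zero]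
    have : ∀ v : ℝ, ψc Y (y * Real.exp (2 * |v|)) = 0 := by
      intro v
      refine Set.indicator_of_notMem ?_ _
      rintro ⟨-, h2⟩
      apply h
      have h3 : 1 ≤ Real.exp (2 * |v|) := Real.one_le_exp (by positivity)
      nlinarith
    simp [this]


instance countable_oK (K : Type) [Field K] [NumberField K] : Countable (𝓞 K) :=
  (NumberField.RingOfIntegers.basis K).equivFun.toEquiv.injective.countable

theorem bn_cont {K : Type} [Field K] (φ₁ φ₂ : K →+* ℝ) (x : K) :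
    Continuous fun u : ℝ => bn φ₁ φ₂ u x := by
  unfold bn
  fun_prop

/-- The unfolded sum. -/
noncomputable def US {K : Type} [Field K] [NumberField K] (φ₁ φ₂ : K →+* ℝ) (J : Ideal (𝓞 K))
    (φ : ℝ → ℝ≥0∞) (u : ℝ) : ℝ≥0∞ :=
  ∑' α : {α : 𝓞 K // α ∈ J ∧ α ≠ 0},
    φ (bn φ₁ φ₂ u ((α : 𝓞 K) : K) ^ 2 / (Ideal.absNorm J : ℝ))

theorem US_meas {K : Type} [Field K] [NumberField K] (φ₁ φ₂ : K →+* ℝ) (J : Ideal (𝓞 K))
    (φ : ℝ → ℝ≥0∞) (hφ : Measurable φ) : Measurable (US φ₁ φ₂ J φ) := by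
  have : Countable {α : 𝓞 K // α ∈ J ∧ α ≠ 0} := Subtype.countable
  refine Measurable.tsum fun α => hφ.comp ?_
  exact (((bn_cont φ₁ φ₂ _).pow 2).div_const _).measurable

theorem US_card {K : Type} [Field K] [NumberField K] (φ₁ φ₂ : K →+* ℝ) (J : Ideal (𝓞 K))
    (hN : 0 < (Ideal.absNorm J : ℝ)) (x u : ℝ)
    (hfin : {α : 𝓞 K | α ∈ J ∧ α ≠ 0 ∧
            bn φ₁ φ₂ u (α : K) ^ 2 ≤ x * (Ideal.absNorm J : ℝ)}.Finite) :
    US φ₁ φ₂ J (Set.indicator (Set.Iic x) 1) u =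
      ENNReal.ofReal (({α : 𝓞 K | α ∈ J ∧ α ≠ 0 ∧
            bn φ₁ φ₂ u (α : K) ^ 2 ≤ x * (Ideal.absNorm J : ℝ)}.ncard : ℕ) : ℝ) := by
  set S := {α : 𝓞 K | α ∈ J ∧ α ≠ 0 ∧
            bn φ₁ φ₂ u (α : K) ^ 2 ≤ x * (Ideal.absNorm J : ℝ)} with hS
  rw [ENNReal.ofReal_natCast]
  have h1 : US φ₁ φ₂ J (Set.indicator (Set.Iic x) 1) u =
      ∑' α : 𝓞 K, S.indicator (fun _ => (1 : ℝ≥0∞)) α := by
    refine (tsum_subtype {α : 𝓞 K | α ∈ J ∧ α ≠ 0}
      (fun α : 𝓞 K => Set.indicator (Set.Iic x) (1 : ℝ → ℝ≥0∞)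
      (bn φ₁ φ₂ u (α : K) ^ 2 / (Ideal.absNorm J : ℝ)))).trans (tsum_congr fun α => ?_)
    by_cases h : α ∈ S
    · rw [Set.indicator_of_mem h, Set.indicator_of_mem (show α ∈ {α : 𝓞 K | α ∈ J ∧ α ≠ 0} from
        ⟨h.1, h.2.1⟩), Set.indicator_of_mem]
      · rfl
      · rw [Set.mem_Iic, div_le_iff₀ hN]
        exact h.2.2
    · rw [Set.indicator_of_notMem h]
      by_cases h' : α ∈ {α : 𝓞 K | α ∈ J ∧ α ≠ 0}
      · rw [Set.indicator_of_mem h', Set.indicator_of_notMem]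
        rw [Set.mem_Iic, div_le_iff₀ hN]
        exact fun h2 => h ⟨h'.1, h'.2, h2⟩
      · rw [Set.indicator_of_notMem h']
  rw [h1, ← tsum_subtype S (fun _ => (1 : ℝ≥0∞)), ENNReal.tsum_set_one, ← hfin.cast_ncard_eq]
  rfl

theorem core {C₀ : ℝ} (hC₀ : 0 < C₀) {K : Type} [Field K] [NumberField K] (φ₁ φ₂ : K →+* ℝ)
    {R : ℝ} (hR : 0 < R) {D : ℝ} (hD : 0 < D) (A : ClassGroup (𝓞 K)) (J : (Ideal (𝓞 K))⁰)
    (hbox : ∀ u : ℝ,
      ∃ ℓ : ℝ, 0 < ℓ ∧ ℓ ^ 2 ≤ C₀ * D ∧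
        (∃ α : 𝓞 K, α ∈ (J : Ideal (𝓞 K)) ∧ α ≠ 0 ∧
          bn φ₁ φ₂ u (α : K) ^ 2 = ℓ ^ 2 * (Ideal.absNorm (J : Ideal (𝓞 K)) : ℝ)) ∧
        ∀ x : ℝ, 0 ≤ x →
          {α : 𝓞 K | α ∈ (J : Ideal (𝓞 K)) ∧ α ≠ 0 ∧
            bn φ₁ φ₂ u (α : K) ^ 2 ≤ x * (Ideal.absNorm (J : Ideal (𝓞 K)) : ℝ)}.Finite ∧
          |(({α : 𝓞 K | α ∈ (J : Ideal (𝓞 K)) ∧ α ≠ 0 ∧
              bn φ₁ φ₂ u (α : K) ^ 2 ≤ x * (Ideal.absNorm (J : Ideal (𝓞 K)) : ℝ)}.ncard : ℕ) : ℝ) -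
            4 * x / D| ≤ C₀ * Real.sqrt x / ℓ)
    (hunf : ∀ φ : ℝ → ℝ≥0∞, Measurable φ →
      ∫⁻ u in Set.Ioc 0 R, US φ₁ φ₂ (J : Ideal (𝓞 K)) φ u =
      2 * ∑' I : {I : (Ideal (𝓞 K))⁰ // ClassGroup.mk0 I = A},
        ∫⁻ v : ℝ, φ ((Ideal.absNorm ((I : (Ideal (𝓞 K))⁰) : Ideal (𝓞 K)) : ℝ) *
          Real.exp (2 * |v|))) :
    ∃ G : ℝ≥0∞, G ≤ 2 * ∑' I : {I : (Ideal (𝓞 K))⁰ // ClassGroup.mk0 I = A},
        ENNReal.ofReal Real.pi * (if (nm K I.1 : ℝ) ≤ C₀ * D then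
          ENNReal.ofReal ((nm K I.1 : ℝ)⁻¹) else 0) ∧
      ENNReal.ofReal (R / (C₀ * D)) ≤ G ∧
      (G ≠ ∞ → ∃ W : ℝ, 0 ≤ W ∧ W ^ 2 ≤ C₀ ^ 2 / 4 * R * G.toReal ∧
        ∀ x : ℝ, 1 ≤ x →
          |(∑ n ∈ Finset.Icc 1 ⌊x⌋₊, (rCl K A n : ℝ) * Real.log (x / n)) - 2 * R / D * x| ≤
            W * Real.sqrt x) := by
  classical
  have hN : 0 < (Ideal.absNorm (J : Ideal (𝓞 K)) : ℝ) := by exact_mod_cast nm_pos J
  set g : ℝ → ℝ≥0∞ := US φ₁ φ₂ (J : Ideal (𝓞 K)) (ψc (C₀ * D)) with hg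
  have hgm : Measurable g := US_meas _ _ _ _ (ψc_meas _)
  have hg1 : ∀ (u ℓ : ℝ) (α : 𝓞 K), 0 < ℓ → ℓ ^ 2 ≤ C₀ * D → α ∈ (J : Ideal (𝓞 K)) → α ≠ 0 →
      bn φ₁ φ₂ u (α : K) ^ 2 = ℓ ^ 2 * (Ideal.absNorm (J : Ideal (𝓞 K)) : ℝ) →
      ENNReal.ofReal ((ℓ ^ 2)⁻¹) ≤ g u := by
    intro u ℓ α hℓ hℓ2 hα hα0 hb
    have h1 : ψc (C₀ * D) (bn φ₁ φ₂ u (α : K) ^ 2 / (Ideal.absNorm (J : Ideal (𝓞 K)) : ℝ)) =
        ENNReal.ofReal ((ℓ ^ 2)⁻¹) := by
      rw [hb, mul_div_assoc, div_self hN.ne', mul_one]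
      exact Set.indicator_of_mem (show ℓ ^ 2 ∈ Set.Ioc 0 (C₀ * D) from ⟨by positivity, hℓ2⟩)
        (fun y : ℝ => ENNReal.ofReal y⁻¹)
    rw [← h1, hg]
    exact ENNReal.le_tsum (f := fun α : {α : 𝓞 K // α ∈ (J : Ideal (𝓞 K)) ∧ α ≠ 0} =>
      ψc (C₀ * D) (bn φ₁ φ₂ u ((α : 𝓞 K) : K) ^ 2 / (Ideal.absNorm (J : Ideal (𝓞 K)) : ℝ)))
      ⟨α, hα, hα0⟩
  refine ⟨∫⁻ u in Set.Ioc 0 R, g u, ?_, ?_, ?_⟩
  · rw [hunf _ (ψc_meas _)]
    gcongr with I
    exact lint_ψc _ (by exact_mod_cast nm_pos I.1)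
  · -- lower bound
    have h1 : ∀ u, ENNReal.ofReal ((C₀ * D)⁻¹) ≤ g u := by
      intro u
      obtain ⟨ℓ, hℓ, hℓ2, ⟨α, hα, hα0, hb⟩, -⟩ := hbox u
      refine le_trans (ENNReal.ofReal_le_ofReal ?_) (hg1 u ℓ α hℓ hℓ2 hα hα0 hb)
      exact inv_anti₀ (by positivity) hℓ2
    calc ENNReal.ofReal (R / (C₀ * D)) = ENNReal.ofReal ((C₀ * D)⁻¹) * ENNReal.ofReal R := by
          rw [← ENNReal.ofReal_mul (by positivity)]
          congr 1
          field_simp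
      _ = ∫⁻ u in Set.Ioc 0 R, ENNReal.ofReal ((C₀ * D)⁻¹) := by
          rw [setLIntegral_const, Real.volume_Ioc, sub_zero]
      _ ≤ _ := lintegral_mono fun u => h1 u
  · intro hG
    set G : ℝ≥0∞ := ∫⁻ u in Set.Ioc 0 R, g u with hGdef
    set V : ℝ≥0∞ := ∫⁻ u in Set.Ioc 0 R, g u ^ (1 / 2 : ℝ) with hV
    have hVG : V ≤ ENNReal.ofReal R ^ (1 / 2 : ℝ) * G ^ (1 / 2 : ℝ) := by
      have h1 := ENNReal.lintegral_mul_le_Lp_mul_Lq (volume.restrict (Set.Ioc 0 R))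
        Real.HolderConjugate.two_two (f := fun _ => (1 : ℝ≥0∞)) (g := fun u => g u ^ (1 / 2 : ℝ))
        aemeasurable_const (hgm.pow_const _).aemeasurable
      have e1 : ∀ u, (g u ^ (1 / 2 : ℝ)) ^ (2 : ℝ) = g u := by
        intro u
        rw [← ENNReal.rpow_mul]
        norm_num
      simp only [Pi.mul_apply, one_mul, ENNReal.one_rpow, e1] at h1
      rw [setLIntegral_const, Real.volume_Ioc, sub_zero, one_mul] at h1
      exact h1
    have hVne : V ≠ ∞ := by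
      refine ne_top_of_le_ne_top ?_ hVG
      exact ENNReal.mul_ne_top (ENNReal.rpow_ne_top_of_nonneg (by norm_num) ENNReal.ofReal_ne_top)
        (ENNReal.rpow_ne_top_of_nonneg (by norm_num) hG)
    have hVG2 : V.toReal ^ 2 ≤ R * G.toReal := by
      have h1 : V ^ 2 ≤ ENNReal.ofReal R * G := by
        calc V ^ 2 ≤ (ENNReal.ofReal R ^ (1 / 2 : ℝ) * G ^ (1 / 2 : ℝ)) ^ 2 := by gcongr
          _ = ENNReal.ofReal R * G := by
            rw [mul_pow, ← ENNReal.rpow_natCast, ← ENNReal.rpow_natCast, ← ENNReal.rpow_mul,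
              ← ENNReal.rpow_mul]
            norm_num
      have h2 := ENNReal.toReal_mono (ENNReal.mul_ne_top ENNReal.ofReal_ne_top hG) h1
      rw [ENNReal.toReal_pow, ENNReal.toReal_mul, ENNReal.toReal_ofReal hR.le] at h2
      exact h2
    refine ⟨C₀ / 2 * V.toReal, by positivity, ?_, ?_⟩
    · calc (C₀ / 2 * V.toReal) ^ 2 = C₀ ^ 2 / 4 * V.toReal ^ 2 := by ring
        _ ≤ C₀ ^ 2 / 4 * (R * G.toReal) := by gcongr
        _ = _ := by ring
    intro x hx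
    have hx0 : 0 < x := by linarith
    set n : ℝ → ℝ≥0∞ := US φ₁ φ₂ (J : Ideal (𝓞 K)) (Set.indicator (Set.Iic x) 1) with hn
    have hnm : Measurable n := US_meas _ _ _ _ (measurable_one.indicator measurableSet_Iic)
    have hpt : ∀ u, n u ≤ ENNReal.ofReal (4 * x / D) +
          ENNReal.ofReal (C₀ * Real.sqrt x) * g u ^ (1 / 2 : ℝ) ∧
        ENNReal.ofReal (4 * x / D) ≤ n u +
          ENNReal.ofReal (C₀ * Real.sqrt x) * g u ^ (1 / 2 : ℝ) := by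
      intro u
      obtain ⟨ℓ, hℓ, hℓ2, ⟨α, hα, hα0, hb⟩, hcnt⟩ := hbox u
      obtain ⟨hfin, hab⟩ := hcnt x hx0.le
      have h1 := hg1 u ℓ α hℓ hℓ2 hα hα0 hb
      have h2 : ENNReal.ofReal (C₀ * Real.sqrt x / ℓ) ≤
          ENNReal.ofReal (C₀ * Real.sqrt x) * g u ^ (1 / 2 : ℝ) := by
        rw [div_eq_mul_inv, ENNReal.ofReal_mul (by positivity)]
        gcongr
        have h3 : ENNReal.ofReal ℓ⁻¹ = ENNReal.ofReal ((ℓ ^ 2)⁻¹) ^ (1 / 2 : ℝ) := by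
          rw [ENNReal.ofReal_rpow_of_nonneg (by positivity) (by norm_num), ← Real.sqrt_eq_rpow,
            ← inv_pow, Real.sqrt_sq (by positivity)]
        rw [h3]
        gcongr
      have h4 := US_card φ₁ φ₂ (J : Ideal (𝓞 K)) hN x u hfin
      set cnt : ℝ := (({α : 𝓞 K | α ∈ (J : Ideal (𝓞 K)) ∧ α ≠ 0 ∧
            bn φ₁ φ₂ u (α : K) ^ 2 ≤ x * (Ideal.absNorm (J : Ideal (𝓞 K)) : ℝ)}.ncard : ℕ) : ℝ)
        with hcnt'
      have hcnt0 : 0 ≤ cnt := by rw [hcnt']; positivity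
      rw [abs_le] at hab
      constructor
      · rw [hn, h4]
        refine le_trans (ENNReal.ofReal_le_ofReal (q := 4 * x / D + C₀ * Real.sqrt x / ℓ)
          (by linarith [hab.2])) ?_
        rw [ENNReal.ofReal_add (by positivity) (by positivity)]
        gcongr
      · rw [hn, h4]
        refine le_trans (ENNReal.ofReal_le_ofReal (q := cnt + C₀ * Real.sqrt x / ℓ)
          (by linarith [hab.1])) ?_
        rw [ENNReal.ofReal_add (by positivity) (by positivity)]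
        gcongr
    set Sx : ℝ := ∑ n ∈ Finset.Icc 1 ⌊x⌋₊, (rCl K A n : ℝ) * Real.log (x / n) with hSx
    have hlog : ∀ I ∈ (idl K x).filter (fun I => ClassGroup.mk0 I = A),
        0 ≤ Real.log (x / (nm K I : ℝ)) := by
      intro I hI
      have h1 := mem_idl.1 (Finset.mem_filter.1 hI).1
      have h2 := one_le_nm I
      apply Real.log_nonneg
      rw [le_div_iff₀ (by linarith)]
      linarith
    have hSx' : Sx = ∑ I ∈ (idl K x).filter (fun I => ClassGroup.mk0 I = A),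
        Real.log (x / (nm K I : ℝ)) := by
      rw [hSx]
      exact sum_rCl_f A x (fun n => Real.log (x / (n : ℝ)))
    have hSx0 : 0 ≤ Sx := by
      rw [hSx']
      exact Finset.sum_nonneg hlog
    have hint : ∫⁻ u in Set.Ioc 0 R, n u = ENNReal.ofReal (2 * Sx) := by
      rw [hn, hunf _ (measurable_one.indicator measurableSet_Iic),
        ENNReal.ofReal_mul (by norm_num)]
      congr 1
      · simp
      have h1 : ∀ I : {I : (Ideal (𝓞 K))⁰ // ClassGroup.mk0 I = A},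
          ∫⁻ v : ℝ, Set.indicator (Set.Iic x) (1 : ℝ → ℝ≥0∞)
            ((Ideal.absNorm ((I : (Ideal (𝓞 K))⁰) : Ideal (𝓞 K)) : ℝ) * Real.exp (2 * |v|)) =
          ENNReal.ofReal (Real.log (x / (nm K I.1 : ℝ))) := by
        intro I
        exact lint_log hx0 (by exact_mod_cast nm_pos I.1)
      simp_rw [h1]
      refine (tsum_subtype {I : (Ideal (𝓞 K))⁰ | ClassGroup.mk0 I = A}
        (fun I => ENNReal.ofReal (Real.log (x / (nm K I : ℝ))))).trans ?_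
      rw [tsum_eq_sum (s := (idl K x).filter (fun I => ClassGroup.mk0 I = A))]
      · rw [hSx', ENNReal.ofReal_sum_of_nonneg hlog]
        refine Finset.sum_congr rfl fun I hI => ?_
        exact Set.indicator_of_mem (s := {I : (Ideal (𝓞 K))⁰ | ClassGroup.mk0 I = A})
          (Finset.mem_filter.1 hI).2 _
      · intro I hI
        by_cases hA : ClassGroup.mk0 I = A
        · rw [Set.indicator_of_mem (s := {I : (Ideal (𝓞 K))⁰ | ClassGroup.mk0 I = A}) hA]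
          apply ENNReal.ofReal_of_nonpos
          have h2 : x < nm K I := by
            by_contra h3
            exact hI (Finset.mem_filter.2 ⟨mem_idl.2 (not_lt.1 h3), hA⟩)
          have h3 := one_le_nm I
          apply Real.log_nonpos (by positivity)
          rw [div_le_one (by linarith)]
          exact h2.le
        · exact Set.indicator_of_notMem (s := {I : (Ideal (𝓞 K))⁰ | ClassGroup.mk0 I = A}) hA _
    have hI1 : ENNReal.ofReal (2 * Sx) ≤ ENNReal.ofReal (4 * x / D * R) +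
        ENNReal.ofReal (C₀ * Real.sqrt x) * V := by
      rw [← hint]
      refine (lintegral_mono fun u => (hpt u).1).trans (le_of_eq ?_)
      rw [lintegral_add_left measurable_const, setLIntegral_const, Real.volume_Ioc, sub_zero,
        lintegral_const_mul' _ _ ENNReal.ofReal_ne_top, ← ENNReal.ofReal_mul (by positivity)]
    have hI2 : ENNReal.ofReal (4 * x / D * R) ≤ ENNReal.ofReal (2 * Sx) +
        ENNReal.ofReal (C₀ * Real.sqrt x) * V := by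
      rw [← hint]
      have h1 : ∫⁻ u in Set.Ioc 0 R, ENNReal.ofReal (4 * x / D) ≤
          ∫⁻ u in Set.Ioc 0 R, (n u + ENNReal.ofReal (C₀ * Real.sqrt x) * g u ^ (1 / 2 : ℝ)) :=
        lintegral_mono fun u => (hpt u).2
      rw [lintegral_add_left hnm, setLIntegral_const, Real.volume_Ioc, sub_zero,
        lintegral_const_mul' _ _ ENNReal.ofReal_ne_top, ← ENNReal.ofReal_mul (by positivity)] at h1
      exact h1
    have hJ1 := ENNReal.toReal_mono (ENNReal.add_ne_top.2 ⟨ENNReal.ofReal_ne_top,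
      ENNReal.mul_ne_top ENNReal.ofReal_ne_top hVne⟩) hI1
    have hJ2 := ENNReal.toReal_mono (ENNReal.add_ne_top.2 ⟨ENNReal.ofReal_ne_top,
      ENNReal.mul_ne_top ENNReal.ofReal_ne_top hVne⟩) hI2
    rw [ENNReal.toReal_add ENNReal.ofReal_ne_top (ENNReal.mul_ne_top ENNReal.ofReal_ne_top hVne),
      ENNReal.toReal_mul, ENNReal.toReal_ofReal (by positivity), ENNReal.toReal_ofReal (by positivity),
      ENNReal.toReal_ofReal (by positivity)] at hJ1 hJ2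
    have e1 : 4 * x / D * R = 2 * (2 * R / D * x) := by ring
    rw [e1] at hJ1 hJ2
    rw [abs_le]
    constructor <;> linarith


theorem sum_fib {K : Type} [Field K] [NumberField K] (f : (Ideal (𝓞 K))⁰ → ℝ≥0∞) :
    ∑ A : ClassGroup (𝓞 K), ∑' I : {I : (Ideal (𝓞 K))⁰ // ClassGroup.mk0 I = A}, f I.1 =
      ∑' I, f I := by
  rw [← (Equiv.sigmaFiberEquiv (fun I : (Ideal (𝓞 K))⁰ => ClassGroup.mk0 I)).tsum_eq f,
    ENNReal.tsum_sigma', tsum_fintype]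
  rfl

theorem sum_inv {ε : ℝ} (hε : 0 < ε) {C₂ : ℝ} {K : Type} [Field K] [NumberField K]
    (h : ∀ S : Finset (Ideal (𝓞 K))⁰, ∑ I ∈ S, (nm K I : ℝ) ^ (-(1 + 2 * ε)) ≤ C₂)
    {Y : ℝ} (hY : 0 < Y) :
    ∑' I : (Ideal (𝓞 K))⁰, (if (nm K I : ℝ) ≤ Y then ENNReal.ofReal ((nm K I : ℝ)⁻¹) else 0) ≤
      ENNReal.ofReal (Y ^ (2 * ε) * C₂) := by
  rw [tsum_eq_sum (s := idl K Y)]
  · calc ∑ I ∈ idl K Y, (if (nm K I : ℝ) ≤ Y then ENNReal.ofReal ((nm K I : ℝ)⁻¹) else 0) =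
        ∑ I ∈ idl K Y, ENNReal.ofReal ((nm K I : ℝ)⁻¹) :=
          Finset.sum_congr rfl fun I hI => if_pos (mem_idl.1 hI)
      _ = ENNReal.ofReal (∑ I ∈ idl K Y, (nm K I : ℝ)⁻¹) :=
          (ENNReal.ofReal_sum_of_nonneg fun I _ => by positivity).symm
      _ ≤ _ := by
          apply ENNReal.ofReal_le_ofReal
          calc ∑ I ∈ idl K Y, (nm K I : ℝ)⁻¹ ≤
              ∑ I ∈ idl K Y, Y ^ (2 * ε) * (nm K I : ℝ) ^ (-(1 + 2 * ε)) := by
                refine Finset.sum_le_sum fun I hI => ?_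
                have h1 := mem_idl.1 hI
                have h2 := one_le_nm I
                have h3 : (0 : ℝ) < nm K I := by linarith
                calc (nm K I : ℝ)⁻¹ = (nm K I : ℝ) ^ (2 * ε) * (nm K I : ℝ) ^ (-(1 + 2 * ε)) := by
                      rw [← Real.rpow_add h3, ← Real.rpow_neg_one]
                      congr 1
                      ring
                  _ ≤ _ := by gcongr
            _ = Y ^ (2 * ε) * ∑ I ∈ idl K Y, (nm K I : ℝ) ^ (-(1 + 2 * ε)) := by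
                rw [Finset.mul_sum]
            _ ≤ _ := by
                gcongr
                exact h _
  · intro I hI
    rw [if_neg fun h1 => hI (mem_idl.2 h1)]

theorem real_class_count (ε : ℝ) (hε : 0 < ε) : ∃ C : ℝ, 0 < C ∧
    ∀ (K : Type) [Field K] [NumberField K], Module.finrank ℚ K = 2 →
      0 < NumberField.discr K →
      ∃ W : ClassGroup (𝓞 K) → ℝ, (∀ A, 0 ≤ W A) ∧
        (∀ A, ∀ x : ℝ, 1 ≤ x →
          |(∑ n ∈ Finset.Icc 1 ⌊x⌋₊, (rCl K A n : ℝ) * Real.log (x / n)) -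
            2 * NumberField.Units.regulator K /
              Real.sqrt |(NumberField.discr K : ℝ)| * x| ≤ W A * Real.sqrt x) ∧
        ∑ A, W A ^ 2 ≤ C * NumberField.Units.regulator K *
          |(NumberField.discr K : ℝ)| ^ ε ∧
        Nat.card (ClassGroup (𝓞 K)) * NumberField.Units.regulator K ≤
          C * |(NumberField.discr K : ℝ)| ^ (1 / 2 + ε) := by
  obtain ⟨C₀, hC₀, hbox⟩ := ideal_box_count
  obtain ⟨C₂, hC₂, hsum⟩ := sum_nm_le (1 + 2 * ε) (by linarith)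
  have hC₂0 : 0 < C₂ := by linarith
  set M : ℝ := 2 * Real.pi * (C₀ ^ (2 * ε) * C₂) with hM
  have hM0 : 0 < M := by positivity
  refine ⟨M * (C₀ ^ 2 + C₀), by positivity, ?_⟩
  intro K _ _ h2 hd
  obtain ⟨φ₁, φ₂, η, hφ, hnorm, hη, hlog, hunits⟩ := real_quadratic_structure K h2 hd
  set R : ℝ := NumberField.Units.regulator K with hR
  have hR0 : 0 < R := by rw [← hlog]; exact Real.log_pos hη
  have hd0 : 0 < |(NumberField.discr K : ℝ)| := by
    rw [abs_pos]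
    exact_mod_cast hd.ne'
  set D : ℝ := Real.sqrt |(NumberField.discr K : ℝ)| with hD
  have hD0 : 0 < D := Real.sqrt_pos.mpr hd0
  have hDe : D ^ (2 * ε) = |(NumberField.discr K : ℝ)| ^ ε := by
    rw [hD, Real.sqrt_eq_rpow, ← Real.rpow_mul hd0.le]
    congr 1
    ring
  have hDe' : D * |(NumberField.discr K : ℝ)| ^ ε = |(NumberField.discr K : ℝ)| ^ (1 / 2 + ε) := by
    rw [hD, Real.sqrt_eq_rpow, ← Real.rpow_add hd0]
  have hcore : ∀ A : ClassGroup (𝓞 K), ∃ G : ℝ≥0∞,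
      G ≤ 2 * ∑' I : {I : (Ideal (𝓞 K))⁰ // ClassGroup.mk0 I = A},
        ENNReal.ofReal Real.pi * (if (nm K I.1 : ℝ) ≤ C₀ * D then
          ENNReal.ofReal ((nm K I.1 : ℝ)⁻¹) else 0) ∧
      ENNReal.ofReal (R / (C₀ * D)) ≤ G ∧
      (G ≠ ∞ → ∃ W : ℝ, 0 ≤ W ∧ W ^ 2 ≤ C₀ ^ 2 / 4 * R * G.toReal ∧
        ∀ x : ℝ, 1 ≤ x →
          |(∑ n ∈ Finset.Icc 1 ⌊x⌋₊, (rCl K A n : ℝ) * Real.log (x / n)) - 2 * R / D * x| ≤
            W * Real.sqrt x) := by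
    intro A
    obtain ⟨J, hJ⟩ := ClassGroup.mk0_surjective (R := 𝓞 K) A⁻¹
    have hJ0 : (J : Ideal (𝓞 K)) ≠ ⊥ := nonZeroDivisors.ne_zero J.2
    exact core hC₀ φ₁ φ₂ hR0 hD0 A J (fun u => hbox K h2 φ₁ φ₂ hφ J hJ0 u)
      (fun φ hφm => unfold K φ₁ φ₂ η R hnorm hη hlog hunits A J hJ φ hφm)
  choose G hG1 hG2 hG3 using hcore
  set T : ℝ := 2 * Real.pi * ((C₀ * D) ^ (2 * ε) * C₂) with hT
  have hT0 : 0 < T := by positivity
  have hTM : T = M * |(NumberField.discr K : ℝ)| ^ ε := by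
    rw [hT, hM, Real.mul_rpow hC₀.le hD0.le, hDe]
    ring
  have hGsum : ∑ A, G A ≤ ENNReal.ofReal T := by
    calc ∑ A, G A ≤ ∑ A, 2 * ∑' I : {I : (Ideal (𝓞 K))⁰ // ClassGroup.mk0 I = A},
          ENNReal.ofReal Real.pi * (if (nm K I.1 : ℝ) ≤ C₀ * D then
          ENNReal.ofReal ((nm K I.1 : ℝ)⁻¹) else 0) := Finset.sum_le_sum fun A _ => hG1 A
      _ = 2 * (ENNReal.ofReal Real.pi * ∑' I : (Ideal (𝓞 K))⁰, (if (nm K I : ℝ) ≤ C₀ * D then
          ENNReal.ofReal ((nm K I : ℝ)⁻¹) else 0)) := by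
          rw [← Finset.mul_sum]
          simp_rw [ENNReal.tsum_mul_left]
          rw [← Finset.mul_sum, sum_fib (fun I : (Ideal (𝓞 K))⁰ => (if (nm K I : ℝ) ≤ C₀ * D then
          ENNReal.ofReal ((nm K I : ℝ)⁻¹) else 0))]
      _ ≤ 2 * (ENNReal.ofReal Real.pi * ENNReal.ofReal ((C₀ * D) ^ (2 * ε) * C₂)) := by
          gcongr
          exact sum_inv hε (hsum K h2) (by positivity)
      _ = ENNReal.ofReal T := by
          have e : (2 : ℝ≥0∞) = ENNReal.ofReal 2 := by simp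
          rw [e, ← ENNReal.ofReal_mul Real.pi_pos.le, ← ENNReal.ofReal_mul (by norm_num), hT]
          congr 1
          ring
  have hGne : ∀ A, G A ≠ ∞ := fun A =>
    ne_top_of_le_ne_top ENNReal.ofReal_ne_top
      ((Finset.single_le_sum (f := G) (fun _ _ => zero_le) (Finset.mem_univ A)).trans hGsum)
  have hGsum' : ∑ A, (G A).toReal ≤ T := by
    rw [← ENNReal.toReal_sum fun A _ => hGne A]
    calc (∑ A, G A).toReal ≤ (ENNReal.ofReal T).toReal :=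
          ENNReal.toReal_mono ENNReal.ofReal_ne_top hGsum
      _ = T := ENNReal.toReal_ofReal hT0.le
  choose W hW0 hW1 hW2 using fun A => hG3 A (hGne A)
  refine ⟨W, hW0, hW2, ?_, ?_⟩
  · calc ∑ A, W A ^ 2 ≤ ∑ A, C₀ ^ 2 / 4 * R * (G A).toReal := Finset.sum_le_sum fun A _ => hW1 A
      _ = C₀ ^ 2 / 4 * R * ∑ A, (G A).toReal := by rw [Finset.mul_sum]
      _ ≤ C₀ ^ 2 / 4 * R * T := by gcongr
      _ = M * (C₀ ^ 2 / 4) * (R * |(NumberField.discr K : ℝ)| ^ ε) := by rw [hTM]; ring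
      _ ≤ M * (C₀ ^ 2 + C₀) * (R * |(NumberField.discr K : ℝ)| ^ ε) := by
          gcongr
          nlinarith [sq_nonneg C₀]
      _ = _ := by ring
  · have h3 : (Nat.card (ClassGroup (𝓞 K)) : ℝ) * (R / (C₀ * D)) ≤ T := by
      calc (Nat.card (ClassGroup (𝓞 K)) : ℝ) * (R / (C₀ * D)) =
          ∑ A : ClassGroup (𝓞 K), R / (C₀ * D) := by
            rw [Finset.sum_const, nsmul_eq_mul, Finset.card_univ, Nat.card_eq_fintype_card]
        _ ≤ ∑ A, (G A).toReal := by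
            refine Finset.sum_le_sum fun A _ => ?_
            have := ENNReal.toReal_mono (hGne A) (hG2 A)
            rwa [ENNReal.toReal_ofReal (by positivity)] at this
        _ ≤ T := hGsum'
    calc (Nat.card (ClassGroup (𝓞 K)) : ℝ) * R =
        (Nat.card (ClassGroup (𝓞 K)) : ℝ) * (R / (C₀ * D)) * (C₀ * D) := by field_simp
      _ ≤ T * (C₀ * D) := by gcongr
      _ = M * C₀ * (D * |(NumberField.discr K : ℝ)| ^ ε) := by rw [hTM]; ring
      _ = M * C₀ * |(NumberField.discr K : ℝ)| ^ (1 / 2 + ε) := by rw [hDe']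
      _ ≤ _ := by
          gcongr
          nlinarith [sq_nonneg C₀]

end Pool.Hhelper85.RQ
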