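import Pool.Agent.Hhelper85.RQ.Defs

/-!
# Structure of real quadratic fields

PAPER PROOF. `NumberField.sign_discr` gives `Even (nrComplexPlaces K)` for positive discriminant,
and `r₁ + 2 r₂ = 2`, so `r₂ = 0` (`r₂ = 1` is odd), `r₁ = 2`: there are exactly two real
infinite places; real places give ring homomorphisms `K →+* ℝ`
(`InfinitePlace.embedding_of_isReal`, `ComplexEmbedding.IsReal.embedding`). The norm:
`InfinitePlace.prod_eq_abs_norm` (`∏ w, w x ^ mult w = |norm x|`, `mult = 1` at real places,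
`w x = |φ x|`). The unit rank is `r₁ + r₂ - 1 = 1`; let `η₀` be the fundamental unit
(`Units.fundSystem`), every unit is `ζ * η₀ ^ k` with `ζ` of finite order
(`Units.exist_unique_eq_mul_prod`); a unit of finite order in a field with a real embedding is
`±1` (its image in `ℝ` has a power equal to `1`). The regulator is `|log |φ₁ η₀||`
(`Units.regulator_eq_det` with a `1 × 1` matrix), positive; replace `η₀` by its inverse if
`|φ₁ η₀| < 1`.
-/

open scoped NumberField nonZeroDivisors

namespace Pool.Hhelper85.RQ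

open NumberField NumberField.InfinitePlace NumberField.Units in
theorem real_quadratic_structure (K : Type) [Field K] [NumberField K]
    (h2 : Module.finrank ℚ K = 2) (hD : 0 < NumberField.discr K) :
    ∃ (φ₁ φ₂ : K →+* ℝ) (η : (𝓞 K)ˣ), φ₁ ≠ φ₂ ∧
      (∀ x : K, |((Algebra.norm ℚ x : ℚ) : ℝ)| = |φ₁ x| * |φ₂ x|) ∧
      1 < |φ₁ ((η : 𝓞 K) : K)| ∧
      Real.log |φ₁ ((η : 𝓞 K) : K)| = NumberField.Units.regulator K ∧
      ∀ v : (𝓞 K)ˣ, ∃ k : ℤ, v = η ^ k ∨ v = -η ^ k := by
  classical
  -- signature
  have hsgn := NumberField.sign_discr K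
  rw [Int.sign_eq_one_of_pos hD] at hsgn
  have hsum := card_add_two_mul_card_eq_rank K
  rw [h2] at hsum
  have hc0 : nrComplexPlaces K = 0 := by
    have hle : nrComplexPlaces K ≤ 1 := by omega
    rcases Nat.le_one_iff_eq_zero_or_eq_one.mp hle with h | h
    · exact h
    · rw [h] at hsgn
      norm_num at hsgn
  have hr2 : nrRealPlaces K = 2 := by omega
  have hcard : Fintype.card (InfinitePlace K) = 2 := by
    rw [card_eq_nrRealPlaces_add_nrComplexPlaces, hc0, hr2]
  have hreal : ∀ w : InfinitePlace K, IsReal w := by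
    intro w
    by_contra hw
    rw [not_isReal_iff_isComplex] at hw
    have : IsEmpty { w : InfinitePlace K // IsComplex w } := Fintype.card_eq_zero_iff.mp hc0
    exact this.false ⟨w, hw⟩
  obtain ⟨w1, w2, hw12, huniv⟩ := Finset.card_eq_two.mp (Finset.card_univ.trans hcard)
  have habs1 : ∀ x : K, |embedding_of_isReal (hreal w1) x| = w1 x := fun x => by
    rw [← Real.norm_eq_abs]
    exact norm_embedding_of_isReal _ _
  have habs2 : ∀ x : K, |embedding_of_isReal (hreal w2) x| = w2 x := fun x => by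
    rw [← Real.norm_eq_abs]
    exact norm_embedding_of_isReal _ _
  have hne : embedding_of_isReal (hreal w1) ≠ embedding_of_isReal (hreal w2) := by
    intro h
    apply hw12
    apply InfinitePlace.ext
    intro x
    rw [← habs1, ← habs2, h]
  have hnorm : ∀ x : K, |((Algebra.norm ℚ x : ℚ) : ℝ)|
      = |embedding_of_isReal (hreal w1) x| * |embedding_of_isReal (hreal w2) x| := by
    intro x
    have h := prod_eq_abs_norm x
    rw [huniv, Finset.prod_pair hw12, (hreal w1).mult_eq_one, (hreal w2).mult_eq_one, pow_one,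
      pow_one, Rat.cast_abs] at h
    rw [habs1, habs2, h]
  have hrank : rank K = 1 := by
    rw [rank, hcard]
  -- torsion
  have htors : ∀ ζ : (𝓞 K)ˣ, ζ ∈ torsion K → ζ = 1 ∨ ζ = -1 := by
    intro ζ hζ
    have h1 := (mem_torsion (K := K)).mp hζ w1
    rw [← habs1] at h1
    rcases (abs_eq zero_le_one).mp h1 with h | h
    · left
      ext
      apply (embedding_of_isReal (hreal w1)).injective
      rw [h]
      simp
    · right
      ext
      apply (embedding_of_isReal (hreal w1)).injective
      rw [h]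
      simp
  obtain ⟨e0⟩ : Nonempty ({w // w ≠ w2} ≃ Fin (rank K)) := by
    apply Fintype.card_eq.mp
    rw [Fintype.card_fin, hrank, Fintype.card_subtype_compl, hcard]
    simp
  have hreg := regulator_eq_det K w2 e0
  set i0 : Fin (rank K) := e0 ⟨w1, hw12⟩ with hi0
  have hsubs : Subsingleton (Fin (rank K)) := by
    rw [hrank]
    infer_instance
  have hfin : ∀ i : Fin (rank K), i = i0 := fun i => Subsingleton.elim _ _
  have hdet : (Matrix.of fun (i w : {w // w ≠ w2}) ↦ (mult w.val : ℝ) *
        Real.log (w.val (fundSystem K (e0 i) : K))).det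
      = Real.log (w1 (fundSystem K i0 : K)) := by
    have hsub' : Subsingleton {w // w ≠ w2} := e0.injective.subsingleton
    rw [Matrix.det_eq_elem_of_subsingleton _ (⟨w1, hw12⟩ : {w // w ≠ w2})]
    simp only [Matrix.of_apply, (hreal w1).mult_eq_one, Nat.cast_one, one_mul]
    rfl
  rw [hdet] at hreg
  have hregpos := regulator_pos K
  have hunit : ∀ v : (𝓞 K)ˣ, ∃ k : ℤ, v = fundSystem K i0 ^ k ∨ v = -fundSystem K i0 ^ k := by
    intro v
    obtain ⟨⟨ζ, f⟩, hv, -⟩ := exist_unique_eq_mul_prod K v
    have hprod : ∏ i, (fundSystem K i) ^ (f i) = fundSystem K i0 ^ (f i0) := by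
      rw [Fintype.prod_eq_single i0]
      intro i hi
      exact absurd (hfin i) hi
    simp only [hprod] at hv
    refine ⟨f i0, ?_⟩
    rcases htors ζ ζ.2 with h | h
    · left
      rw [hv, h, one_mul]
    · right
      rw [hv, h, neg_one_mul]
  have hlogabs : |Real.log (w1 (fundSystem K i0 : K))| = regulator K := hreg.symm
  by_cases hpos : 0 ≤ Real.log (w1 (fundSystem K i0 : K))
  · refine ⟨embedding_of_isReal (hreal w1), embedding_of_isReal (hreal w2), fundSystem K i0,
      hne, hnorm, ?_, ?_, hunit⟩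
    · rw [habs1]
      rw [abs_of_nonneg hpos] at hlogabs
      have hp : 0 < w1 (fundSystem K i0 : K) := by
        rw [InfinitePlace.pos_iff]
        simp
      exact (Real.log_pos_iff hp.le).mp (by rw [hlogabs]; exact hregpos)
    · rw [habs1, ← hlogabs, abs_of_nonneg hpos]
  · push Not at hpos
    have hinv : ((((fundSystem K i0)⁻¹ : (𝓞 K)ˣ) : 𝓞 K) : K) = (((fundSystem K i0 : (𝓞 K)ˣ) : 𝓞 K) : K)⁻¹ := by
      apply eq_inv_of_mul_eq_one_left
      rw [← map_mul, ← Units.val_mul]
      simp
    have hlog : Real.log (w1 ((((fundSystem K i0)⁻¹ : (𝓞 K)ˣ) : 𝓞 K) : K)) = regulator K := by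
      rw [hinv, map_inv₀, Real.log_inv, ← hlogabs, abs_of_neg hpos]
    refine ⟨embedding_of_isReal (hreal w1), embedding_of_isReal (hreal w2), (fundSystem K i0)⁻¹,
      hne, hnorm, ?_, ?_, ?_⟩
    · rw [habs1]
      have hp : 0 < w1 ((((fundSystem K i0)⁻¹ : (𝓞 K)ˣ) : 𝓞 K) : K) := by
        rw [InfinitePlace.pos_iff]
        simp
      exact (Real.log_pos_iff hp.le).mp (by rw [hlog]; exact hregpos)
    · rw [habs1, hlog]
    · intro v
      obtain ⟨k, hk⟩ := hunit v
      refine ⟨-k, ?_⟩
      rw [inv_zpow', neg_neg]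
      exact hk

end Pool.Hhelper85.RQ
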